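import Mathlib

/-!
Units of a filtered ring which are congruent to one, and their leading terms.
-/

namespace Pool.Agent.Helper90.QP

open scoped commutatorElement

/-- A decreasing filtration of a ring `E` by additive subgroups which is compatible with the
multiplication and with the powers of a scalar `t`. -/
structure Filt (R E : Type) [CommRing R] [Ring E] [Algebra R E] (t : R) where
  I : ℕ → AddSubgroup E
  mul_mem : ∀ {j k : ℕ} {x y : E}, x ∈ I j → y ∈ I k → x * y ∈ I (j + k)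
  anti : ∀ k, I (k + 1) ≤ I k
  zero_top : ∀ x, x ∈ I 0
  smul_mem : ∀ (k : ℕ) (x : E), t ^ k • x ∈ I k

namespace Filt

variable {R E : Type} [CommRing R] [Ring E] [Algebra R E] {t : R} (F : Filt R E t)

theorem anti' {j k : ℕ} (h : j ≤ k) : F.I k ≤ F.I j := by
  induction h with
  | refl => exact le_rfl
  | step _ ih => exact (F.anti _).trans ih

theorem mul_left {k : ℕ} {x : E} (y : E) (h : x ∈ F.I k) : y * x ∈ F.I k := by
  have := F.mul_mem (F.zero_top y) h
  rwa [zero_add] at this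

theorem mul_right {k : ℕ} {x : E} (y : E) (h : x ∈ F.I k) : x * y ∈ F.I k := F.mul_mem h (F.zero_top y)

/-- The unit `x` is `1 + t ^ k D` up to terms of higher order. -/
def P (k : ℕ) (x : Eˣ) (D : E) : Prop := (x : E) - 1 - t ^ k • D ∈ F.I (k + 1)

theorem P_one (k : ℕ) : F.P k 1 0 := by
  unfold P
  simp only [Units.val_one, sub_self, smul_zero]
  exact zero_mem _

theorem sub_one_mem {k : ℕ} {x : Eˣ} {D : E} (h : F.P k x D) : (x : E) - 1 ∈ F.I k := by
  have h1 := add_mem (F.anti _ h) (F.smul_mem k D)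
  rwa [sub_add_cancel] at h1

theorem P_mul {k : ℕ} (hk : 1 ≤ k) {x y : Eˣ} {D D' : E} (hx : F.P k x D) (hy : F.P k y D') :
    F.P k (x * y) (D + D') := by
  unfold P
  have h1 : ((x : E) - 1) * ((y : E) - 1) ∈ F.I (k + 1) :=
    F.anti' (by omega) (F.mul_mem (F.sub_one_mem hx) (F.sub_one_mem hy))
  have h2 := add_mem (add_mem h1 hx) hy
  convert h2 using 1
  rw [Units.val_mul, smul_add]
  noncomm_ring

theorem P_inv {k : ℕ} (hk : 1 ≤ k) {x : Eˣ} {D : E} (hx : F.P k x D) : F.P k x⁻¹ (-D) := by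
  unfold P
  have h0 := F.sub_one_mem hx
  have h1 : ((x : E) - 1) * (((x : E) - 1) * ((x⁻¹ : Eˣ) : E)) ∈ F.I (k + 1) :=
    F.anti' (by omega) (F.mul_mem h0 (F.mul_right _ h0))
  have h2 := sub_mem h1 hx
  convert h2 using 1
  have e : (x : E) * ((x⁻¹ : Eˣ) : E) = 1 := x.mul_inv
  have e1 : ((x : E) - 1) * (((x : E) - 1) * ((x⁻¹ : Eˣ) : E)) = (x : E) - 1 - (1 - ((x⁻¹ : Eˣ) : E)) := by
    have : (((x : E) - 1) * ((x⁻¹ : Eˣ) : E)) = 1 - ((x⁻¹ : Eˣ) : E) := by
      rw [sub_mul, e, one_mul]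
    rw [this, sub_mul, one_mul, mul_sub, mul_one, e]
  rw [e1, smul_neg]
  abel

theorem P_drop {k : ℕ} {x : Eˣ} {D : E} (hx : F.P (k + 1) x D) : F.P k x 0 := by
  unfold P
  rw [smul_zero, sub_zero]
  exact F.sub_one_mem hx

theorem aux1 (a b A B : E) : (a - A) * b + A * (b - B) = a * b - A * B := by noncomm_ring

theorem aux2 (a b A B u : E) :
    (a * b - b * a) * (u - 1) + (a * b - A - (b * a - B)) = (a * b - b * a) * u - (A - B) := by
  noncomm_ring

theorem P_comm {k l : ℕ} (hk : 1 ≤ k) (hl : 1 ≤ l) {x y : Eˣ} {D D' : E} (hx : F.P k x D)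
    (hy : F.P l y D') : F.P (k + l) ⁅x, y⁆ (D * D' - D' * D) := by
  unfold P
  have hx0 := F.sub_one_mem hx
  have hy0 := F.sub_one_mem hy
  have hx' : (x : E) - 1 - t ^ k • D ∈ F.I (k + 1) := hx
  have hy' : (y : E) - 1 - t ^ l • D' ∈ F.I (l + 1) := hy
  -- `x⁻¹ y⁻¹ - 1` has degree one
  have hxi : ((x⁻¹ : Eˣ) : E) * ((y⁻¹ : Eˣ) : E) - 1 ∈ F.I 1 := by
    have h1 : ((x⁻¹ : Eˣ) : E) - 1 ∈ F.I 1 := F.anti' hk (F.sub_one_mem (F.P_inv hk hx))
    have h2 : ((y⁻¹ : Eˣ) : E) - 1 ∈ F.I 1 := F.anti' hl (F.sub_one_mem (F.P_inv hl hy))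
    have h3 := add_mem (F.mul_left ((x⁻¹ : Eˣ) : E) h2) h1
    convert h3 using 1
    noncomm_ring
  have e0 : ((⁅x, y⁆ : Eˣ) : E) - 1 = (((x : E) - 1) * ((y : E) - 1) - ((y : E) - 1) * ((x : E) - 1))
      * (((x⁻¹ : Eˣ) : E) * ((y⁻¹ : Eˣ) : E)) := by
    have e1 : ((x : E) - 1) * ((y : E) - 1) - ((y : E) - 1) * ((x : E) - 1) = (x : E) * y - y * x := by
      noncomm_ring
    rw [e1, sub_mul, commutatorElement_def]
    have e2 : (y : E) * x * (((x⁻¹ : Eˣ) : E) * ((y⁻¹ : Eˣ) : E)) = 1 := by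
      rw [mul_assoc, ← mul_assoc (x : E), x.mul_inv, one_mul, y.mul_inv]
    rw [e2, Units.val_mul, Units.val_mul, Units.val_mul]
    simp only [mul_assoc]
  rw [e0]
  generalize ((x⁻¹ : Eˣ) : E) * ((y⁻¹ : Eˣ) : E) = u at hxi ⊢
  generalize (x : E) - 1 = a at hx0 hx' ⊢
  generalize (y : E) - 1 = b at hy0 hy' ⊢
  have c1 : a * b - b * a ∈ F.I (k + l) := by
    refine sub_mem (F.mul_mem hx0 hy0) ?_
    rw [add_comm k l]; exact F.mul_mem hy0 hx0
  have h4 : (a * b - b * a) * (u - 1) ∈ F.I (k + l + 1) := F.mul_mem c1 hxi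
  have h5 : a * b - (t ^ k • D) * (t ^ l • D') ∈ F.I (k + l + 1) := by
    have h6 : (a - t ^ k • D) * b ∈ F.I (k + l + 1) := by
      have := F.mul_mem hx' hy0
      rwa [show k + 1 + l = k + l + 1 by ring] at this
    have h7 : (t ^ k • D) * (b - t ^ l • D') ∈ F.I (k + l + 1) := by
      have := F.mul_mem (F.smul_mem k D) hy'
      rwa [← add_assoc] at this
    have h8 := add_mem h6 h7
    rwa [aux1] at h8
  have h5' : b * a - (t ^ l • D') * (t ^ k • D) ∈ F.I (k + l + 1) := by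
    have h6 : (b - t ^ l • D') * a ∈ F.I (k + l + 1) := by
      have := F.mul_mem hy' hx0
      rwa [show l + 1 + k = k + l + 1 by ring] at this
    have h7 : (t ^ l • D') * (a - t ^ k • D) ∈ F.I (k + l + 1) := by
      have := F.mul_mem (F.smul_mem l D') hx'
      rwa [show l + (k + 1) = k + l + 1 by ring] at this
    have h8 := add_mem h6 h7
    rwa [aux1] at h8
  have h9 := add_mem h4 (sub_mem h5 h5')
  rw [aux2] at h9
  have e3 : (t ^ k • D) * (t ^ l • D') = t ^ (k + l) • (D * D') := by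
    rw [smul_mul_smul_comm, pow_add]
  have e4 : (t ^ l • D') * (t ^ k • D) = t ^ (k + l) • (D' * D) := by
    rw [smul_mul_smul_comm, pow_add, mul_comm (t ^ l)]
  rw [e3, e4, ← smul_sub] at h9
  exact h9

end Filt

end Pool.Agent.Helper90.QP
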