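import Mathlib

/-!
Derivations and Fox derivatives of free associative algebras.
-/

namespace Pool.Agent.Helper90.QP

section general

variable {R : Type} [CommRing R] {ι : Type}

/-- The generators of the free associative algebra. -/
def X (R : Type) [CommRing R] {ι : Type} (i : ι) : FreeAlgebra R ι := FreeAlgebra.ι R i

/-- An auxiliary homomorphism to triangular matrices. -/
def tdHom (α σ : FreeAlgebra R ι →ₐ[R] FreeAlgebra R ι) (d : ι → FreeAlgebra R ι) :
    FreeAlgebra R ι →ₐ[R] Matrix (Fin 2) (Fin 2) (FreeAlgebra R ι) :=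
  FreeAlgebra.lift R fun i => !![α (X R i), d i; 0, σ (X R i)]

theorem tdHom_X (α σ : FreeAlgebra R ι →ₐ[R] FreeAlgebra R ι) (d : ι → FreeAlgebra R ι) (i : ι) :
    tdHom α σ d (X R i) = !![α (X R i), d i; 0, σ (X R i)] := FreeAlgebra.lift_ι_apply _ _

theorem tdHom_entries (α σ : FreeAlgebra R ι →ₐ[R] FreeAlgebra R ι) (d : ι → FreeAlgebra R ι)
    (f : FreeAlgebra R ι) :
    tdHom α σ d f 0 0 = α f ∧ tdHom α σ d f 1 0 = 0 ∧ tdHom α σ d f 1 1 = σ f := by
  induction f using FreeAlgebra.induction with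
  | grade0 r =>
    rw [AlgHom.commutes, AlgHom.commutes, AlgHom.commutes]
    simp [Matrix.algebraMap_matrix_apply]
  | grade1 i =>
    have h : tdHom α σ d (FreeAlgebra.ι R i) = !![α (X R i), d i; 0, σ (X R i)] := tdHom_X α σ d i
    rw [h]
    simp [X]
  | mul a b ha hb =>
    obtain ⟨a1, a2, a3⟩ := ha
    obtain ⟨b1, b2, b3⟩ := hb
    rw [map_mul, map_mul, map_mul]
    simp only [Matrix.mul_apply, Fin.sum_univ_two, a1, a2, a3, b1, b2, b3]
    simp
  | add a b ha hb =>
    obtain ⟨a1, a2, a3⟩ := ha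
    obtain ⟨b1, b2, b3⟩ := hb
    rw [map_add, map_add, map_add]
    simp only [Matrix.add_apply, a1, a2, a3, b1, b2, b3]
    simp

/-- The twisted derivation `δ (f g) = α f δ g + δ f σ g` with given values on the generators. -/
def td (α σ : FreeAlgebra R ι →ₐ[R] FreeAlgebra R ι) (d : ι → FreeAlgebra R ι) :
    FreeAlgebra R ι →ₗ[R] FreeAlgebra R ι where
  toFun f := tdHom α σ d f 0 1
  map_add' f g := by rw [map_add, Matrix.add_apply]
  map_smul' r f := by rw [map_smul, Matrix.smul_apply]; rfl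

theorem td_X (α σ : FreeAlgebra R ι →ₐ[R] FreeAlgebra R ι) (d : ι → FreeAlgebra R ι) (i : ι) :
    td α σ d (X R i) = d i := by
  change tdHom α σ d (X R i) 0 1 = d i
  rw [tdHom_X]; rfl

theorem td_mul (α σ : FreeAlgebra R ι →ₐ[R] FreeAlgebra R ι) (d : ι → FreeAlgebra R ι)
    (f g : FreeAlgebra R ι) : td α σ d (f * g) = α f * td α σ d g + td α σ d f * σ g := by
  change tdHom α σ d (f * g) 0 1 = α f * tdHom α σ d g 0 1 + tdHom α σ d f 0 1 * σ g
  obtain ⟨a1, a2, a3⟩ := tdHom_entries α σ d f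
  obtain ⟨b1, b2, b3⟩ := tdHom_entries α σ d g
  rw [map_mul, Matrix.mul_apply, Fin.sum_univ_two, a1, b3]

theorem td_algebraMap (α σ : FreeAlgebra R ι →ₐ[R] FreeAlgebra R ι) (d : ι → FreeAlgebra R ι)
    (r : R) : td α σ d (algebraMap R _ r) = 0 := by
  change tdHom α σ d (algebraMap R _ r) 0 1 = 0
  rw [AlgHom.commutes]
  simp [Matrix.algebraMap_matrix_apply]

theorem td_one (α σ : FreeAlgebra R ι →ₐ[R] FreeAlgebra R ι) (d : ι → FreeAlgebra R ι) :
    td α σ d 1 = 0 := by
  have := td_algebraMap α σ d 1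
  rwa [map_one] at this

/-- The derivation with given values on the generators. -/
def der (d : ι → FreeAlgebra R ι) : FreeAlgebra R ι →ₗ[R] FreeAlgebra R ι :=
  td (AlgHom.id R _) (AlgHom.id R _) d

theorem der_X (d : ι → FreeAlgebra R ι) (i : ι) : der d (X R i) = d i := td_X _ _ _ _
theorem der_mul (d : ι → FreeAlgebra R ι) (f g : FreeAlgebra R ι) :
    der d (f * g) = f * der d g + der d f * g := td_mul _ _ _ _ _
theorem der_one (d : ι → FreeAlgebra R ι) : der d 1 = 0 := td_one _ _ _
theorem der_algebraMap (d : ι → FreeAlgebra R ι) (r : R) : der d (algebraMap R _ r) = 0 :=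
  td_algebraMap _ _ _ _

/-- The augmentation. -/
def aug : FreeAlgebra R ι →ₐ[R] R := FreeAlgebra.lift R fun _ => 0

theorem aug_X (i : ι) : aug (X R i) = (0 : R) := FreeAlgebra.lift_ι_apply _ _

/-- The augmentation, as an endomorphism. -/
def aug' : FreeAlgebra R ι →ₐ[R] FreeAlgebra R ι := (Algebra.ofId R (FreeAlgebra R ι)).comp aug

theorem aug'_X (i : ι) : aug' (X R i) = (0 : FreeAlgebra R ι) := by
  unfold aug'
  rw [AlgHom.comp_apply, aug_X, map_zero]

/-- The Fox derivative: `∂_j (g X_i) = δ_ij g`. -/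
noncomputable def fox [DecidableEq ι] (j : ι) : FreeAlgebra R ι →ₗ[R] FreeAlgebra R ι :=
  td (AlgHom.id R _) aug' (Pi.single j 1)

theorem fox_mul_X [DecidableEq ι] (j i : ι) (g : FreeAlgebra R ι) :
    fox j (g * X R i) = if i = j then g else 0 := by
  unfold fox
  rw [td_mul, td_X, aug'_X, mul_zero, add_zero, Pi.single_apply, mul_ite, mul_one, mul_zero]
  rfl

theorem fox_mul [DecidableEq ι] (j : ι) (f g : FreeAlgebra R ι) :
    fox j (f * g) = f * fox j g + fox j f * aug' g := td_mul _ _ _ _ _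

theorem fox_X [DecidableEq ι] (j i : ι) :
    fox j (X R i) = if i = j then 1 else 0 := by
  have := fox_mul_X j i (1 : FreeAlgebra R ι)
  rwa [one_mul] at this

theorem fox_algebraMap [DecidableEq ι] (j : ι) (r : R) :
    fox j (algebraMap R (FreeAlgebra R ι) r) = 0 := td_algebraMap _ _ _ _

theorem fox_one [DecidableEq ι] (j : ι) : fox j (1 : FreeAlgebra R ι) = 0 := td_one _ _ _

/-- The left Fox derivative: `∂_j (X_i g) = δ_ij g`. -/
noncomputable def lfox [DecidableEq ι] (j : ι) : FreeAlgebra R ι →ₗ[R] FreeAlgebra R ι :=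
  td aug' (AlgHom.id R _) (Pi.single j 1)

theorem lfox_X_mul [DecidableEq ι] (j i : ι) (g : FreeAlgebra R ι) :
    lfox j (X R i * g) = if i = j then g else 0 := by
  unfold lfox
  rw [td_mul, td_X, aug'_X, zero_mul, zero_add, Pi.single_apply, ite_mul, one_mul, zero_mul]
  rfl

/-- Two linear maps agree if they agree on `1` and on the multiples of the generators. -/
theorem lin_ext {M : Type} [AddCommGroup M] [Module R M] {φ ψ : FreeAlgebra R ι →ₗ[R] M}
    (h1 : φ 1 = ψ 1) (h2 : ∀ g i, φ (g * X R i) = ψ (g * X R i)) : φ = ψ := by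
  -- every element is a combination of `1` and multiples of the generators
  have h : ∀ f : FreeAlgebra R ι, ∀ g : FreeAlgebra R ι, φ g = ψ g → φ (g * f) = ψ (g * f) := by
    intro f
    induction f using FreeAlgebra.induction with
    | grade0 r =>
      intro g hg
      have : g * algebraMap R (FreeAlgebra R ι) r = r • g := by
        rw [← Algebra.commutes, ← Algebra.smul_def]
      rw [this, map_smul, map_smul, hg]
    | grade1 i => intro g _; exact h2 g i
    | mul a b ha hb => intro g hg; rw [← mul_assoc]; exact hb _ (ha _ hg)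
    | add a b ha hb => intro g hg; rw [mul_add, map_add, map_add, ha _ hg, hb _ hg]
  ext1 f
  have := h f 1 h1
  rwa [one_mul] at this

/-- A derivation vanishing on the generators vanishes; twisted form. -/
theorem td_ext {A : Type} [Ring A] [Algebra R A] {φ ψ : FreeAlgebra R ι →ₗ[R] A}
    {α σ : FreeAlgebra R ι →ₐ[R] A}
    (hφ : ∀ f g, φ (f * g) = α f * φ g + φ f * σ g) (hψ : ∀ f g, ψ (f * g) = α f * ψ g + ψ f * σ g)
    (h : ∀ i, φ (X R i) = ψ (X R i)) : φ = ψ := by
  have h1 : ∀ {φ : FreeAlgebra R ι →ₗ[R] A},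
      (∀ f g, φ (f * g) = α f * φ g + φ f * σ g) → φ 1 = 0 := by
    intro φ hφ
    have h2 := hφ 1 1
    simp only [mul_one, one_mul, map_one α, map_one σ] at h2
    exact left_eq_add.1 h2
  have key : ∀ g, φ g = ψ g := by
    intro g
    induction g using FreeAlgebra.induction with
    | grade0 r =>
      have : algebraMap R (FreeAlgebra R ι) r = r • 1 := by rw [Algebra.smul_def, mul_one]
      rw [this, map_smul, map_smul, h1 hφ, h1 hψ]
    | grade1 i => exact h i
    | mul a b ha hb => rw [hφ, hψ, ha, hb]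
    | add a b ha hb => rw [map_add, map_add, ha, hb]
  ext1 g
  exact key g

/-- Two derivations which agree on the generators agree. -/
theorem der_ext {φ ψ : FreeAlgebra R ι →ₗ[R] FreeAlgebra R ι}
    (hφ : ∀ f g, φ (f * g) = f * φ g + φ f * g) (hψ : ∀ f g, ψ (f * g) = f * ψ g + ψ f * g)
    (h : ∀ i, φ (X R i) = ψ (X R i)) : φ = ψ :=
  td_ext (α := AlgHom.id R _) (σ := AlgHom.id R _) hφ hψ h

end general

end Pool.Agent.Helper90.QP
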