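import Mathlib
import Pool.Agent.Helper90.QP.Filt
import Pool.Agent.Helper90.QP.Free

/-!
The base ring `F_2[t]/(t^10)` and the Magnus homomorphism.
-/

namespace Pool.Agent.Helper90.QP

open scoped commutatorElement

/-- The ring `F_2[t]/(t^10)`. -/
def RR : Type := Polynomial (ZMod 2) ⧸ Ideal.span {(Polynomial.X : Polynomial (ZMod 2)) ^ 10}

noncomputable instance : CommRing RR :=
  inferInstanceAs (CommRing (Polynomial (ZMod 2) ⧸ Ideal.span {(Polynomial.X : Polynomial (ZMod 2)) ^ 10}))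

noncomputable instance : Algebra (ZMod 2) RR :=
  inferInstanceAs (Algebra (ZMod 2)
    (Polynomial (ZMod 2) ⧸ Ideal.span {(Polynomial.X : Polynomial (ZMod 2)) ^ 10}))

/-- The variable. -/
noncomputable def tt : RR := Ideal.Quotient.mk _ Polynomial.X

theorem tt_pow : tt ^ 10 = 0 := by
  have h : Ideal.Quotient.mk (Ideal.span {(Polynomial.X : Polynomial (ZMod 2)) ^ 10})
      (Polynomial.X ^ 10) = 0 :=
    Ideal.Quotient.eq_zero_iff_mem.2 (Ideal.subset_span rfl)
  rw [map_pow] at h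
  exact h

theorem tt_nine : tt ^ 9 ≠ 0 := by
  intro h
  have h1 : Ideal.Quotient.mk (Ideal.span {(Polynomial.X : Polynomial (ZMod 2)) ^ 10})
      (Polynomial.X ^ 9) = 0 := by rw [map_pow]; exact h
  rw [Ideal.Quotient.eq_zero_iff_mem, Ideal.mem_span_singleton] at h1
  have h2 := (Polynomial.X_pow_dvd_iff.1 h1) 9 (by norm_num)
  rw [Polynomial.coeff_X_pow] at h2
  simp at h2

theorem two_RR : (2 : RR) = 0 := by
  have h : algebraMap (ZMod 2) RR 2 = 2 := map_ofNat _ 2
  rw [← h]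
  have : (2 : ZMod 2) = 0 := rfl
  rw [this, map_zero]

instance : Nontrivial RR := ⟨⟨tt ^ 9, 0, tt_nine⟩⟩

/-- The coefficients. -/
noncomputable def cc (c : ZMod 2) : RR := algebraMap (ZMod 2) RR c

theorem cc_zero : cc 0 = 0 := map_zero _
theorem cc_one : cc 1 = 1 := map_one _
theorem cc_add (a b : ZMod 2) : cc (a + b) = cc a + cc b := map_add _ _ _
theorem cc_neg (a : ZMod 2) : cc (-a) = - cc a := map_neg _ _
theorem cc_mul (a b : ZMod 2) : cc (a * b) = cc a * cc b := map_mul _ _ _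

theorem zmod_cases (c : ZMod 2) : c = 0 ∨ c = 1 := by
  revert c; decide

theorem rat {j : ℕ} (hj : j ≤ 9) {c : ZMod 2} {r : RR} (h : tt ^ j * cc c = tt ^ (j + 1) * r) :
    c = 0 := by
  rcases zmod_cases c with hc | hc
  · exact hc
  · exfalso
    rw [hc, cc_one, mul_one] at h
    have h1 : tt ^ 9 = tt ^ (9 - j) * tt ^ j := by rw [← pow_add]; congr 1; omega
    have h2 : tt ^ 9 = tt ^ 10 * r := by
      rw [h1, h, ← mul_assoc, ← pow_add]; congr 2; omega
    rw [tt_pow, zero_mul] at h2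
    exact tt_nine h2

/-- The free associative algebra on four generators. -/
abbrev SS : Type := FreeAlgebra RR (Fin 4)

/-- The generators. -/
noncomputable def XX (i : Fin 4) : SS := X RR i

theorem tX_nil (i : Fin 4) : IsNilpotent (tt • XX i) := by
  refine ⟨10, ?_⟩
  rw [smul_pow, tt_pow, zero_smul]

/-- The unit `1 + t X_i`. -/
noncomputable def xu (i : Fin 4) : SSˣ := (tX_nil i).isUnit_one_add.unit

theorem xu_val (i : Fin 4) : ((xu i : SSˣ) : SS) = 1 + tt • XX i := rfl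

/-- The Magnus homomorphism. -/
noncomputable def mu : FreeGroup (Fin 4) →* SSˣ := FreeGroup.lift xu

theorem mu_of (i : Fin 4) : ((mu (FreeGroup.of i) : SSˣ) : SS) = 1 + tt • XX i := by
  unfold mu; rw [FreeGroup.lift_apply_of, xu_val]

/-- Exponents modulo two. -/
def lamHom (l : Fin 4) : FreeGroup (Fin 4) →* Multiplicative (ZMod 2) :=
  FreeGroup.lift fun i => Multiplicative.ofAdd (if i = l then 1 else 0)

/-- Exponents modulo two. -/
def lam (l : Fin 4) (w : FreeGroup (Fin 4)) : ZMod 2 := Multiplicative.toAdd (lamHom l w)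

theorem lam_mul (l : Fin 4) (u v : FreeGroup (Fin 4)) : lam l (u * v) = lam l u + lam l v := by
  unfold lam; rw [map_mul]; rfl
theorem lam_one (l : Fin 4) : lam l 1 = 0 := by unfold lam; rw [map_one]; rfl
theorem lam_inv (l : Fin 4) (u : FreeGroup (Fin 4)) : lam l u⁻¹ = - lam l u := by
  unfold lam; rw [map_inv]; rfl
theorem lam_of (l i : Fin 4) : lam l (FreeGroup.of i) = if i = l then 1 else 0 := by
  unfold lam lamHom; rw [FreeGroup.lift_apply_of]; rfl

/-- The linear part. -/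
noncomputable def LL (w : FreeGroup (Fin 4)) : SS := ∑ l, cc (lam l w) • XX l

theorem LL_one : LL 1 = 0 := by
  unfold LL
  refine Finset.sum_eq_zero fun l _ => ?_
  rw [lam_one, cc_zero, zero_smul]

theorem LL_mul (u v : FreeGroup (Fin 4)) : LL (u * v) = LL u + LL v := by
  unfold LL
  rw [← Finset.sum_add_distrib]
  refine Finset.sum_congr rfl fun l _ => ?_
  rw [lam_mul, cc_add, add_smul]

theorem LL_inv (u : FreeGroup (Fin 4)) : LL u⁻¹ = - LL u := by
  unfold LL
  rw [← Finset.sum_neg_distrib]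
  refine Finset.sum_congr rfl fun l _ => ?_
  rw [lam_inv, cc_neg, neg_smul]

theorem LL_of (i : Fin 4) : LL (FreeGroup.of i) = XX i := by
  unfold LL
  simp only [lam_of]
  rw [Finset.sum_eq_single i]
  · rw [if_pos rfl, cc_one, one_smul]
  · intro b _ hb
    rw [if_neg (Ne.symm hb), cc_zero, zero_smul]
  · intro h; exact absurd (Finset.mem_univ i) h

theorem mu_inv_exp (w : FreeGroup (Fin 4)) (g : SS)
    (h : ((mu w : SSˣ) : SS) = 1 + tt • LL w + tt ^ 2 • g) :
    ∃ g', ((mu w⁻¹ : SSˣ) : SS) = 1 + tt • LL w⁻¹ + tt ^ 2 • g' := by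
  have h1 : ((mu w : SSˣ) : SS) * ((mu w⁻¹ : SSˣ) : SS) = 1 := by
    rw [← Units.val_mul, ← map_mul, mul_inv_cancel, map_one]; rfl
  generalize ((mu w⁻¹ : SSˣ) : SS) = v at h1 ⊢
  rw [h] at h1
  refine ⟨-g + (LL w + tt • g) * (LL w + tt • g) * v, ?_⟩
  rw [LL_inv]
  -- with `a = t L + t² g`: `v = 1 - a v = 1 - a + a a v`
  have h2 : v = 1 - (tt • LL w + tt ^ 2 • g) * v := by
    rw [add_assoc, add_mul, one_mul] at h1
    rw [← h1]; abel
  have h3 : v = 1 - (tt • LL w + tt ^ 2 • g) * (1 - (tt • LL w + tt ^ 2 • g) * v) := by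
    rw [← h2]; exact h2
  have h4 : tt • LL w + tt ^ 2 • g = tt • (LL w + tt • g) := by
    rw [smul_add, smul_smul, ← pow_two]
  rw [h4] at h3
  have h5 : (1 : SS) + tt • -LL w + tt ^ 2 • (-g + (LL w + tt • g) * (LL w + tt • g) * v) =
      1 - tt • (LL w + tt • g) + tt ^ 2 • ((LL w + tt • g) * (LL w + tt • g) * v) := by module
  rw [h5]
  generalize LL w + tt • g = y at h3 ⊢
  nth_rewrite 1 [h3]
  rw [mul_sub, mul_one, smul_mul_assoc tt y v, smul_mul_smul_comm, ← pow_two, mul_assoc]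
  abel

theorem mu_exp (w : FreeGroup (Fin 4)) :
    ∃ g, ((mu w : SSˣ) : SS) = 1 + tt • LL w + tt ^ 2 • g := by
  induction w using FreeGroup.induction_on with
  | C1 =>
    refine ⟨0, ?_⟩
    rw [map_one, LL_one]; simp
  | of i =>
    refine ⟨0, ?_⟩
    rw [mu_of, LL_of]; simp
  | inv_of i h =>
    obtain ⟨g, hg⟩ := h
    exact mu_inv_exp _ g hg
  | mul u v hu hv =>
    obtain ⟨g, hg⟩ := hu
    obtain ⟨g', hg'⟩ := hv
    refine ⟨g + g' + LL u * LL v + tt • (LL u * g' + g * LL v) + tt ^ 2 • (g * g'), ?_⟩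
    rw [map_mul, Units.val_mul, hg, hg', LL_mul]
    simp only [mul_add, add_mul, smul_mul_assoc, mul_smul_comm, smul_smul, smul_add, one_mul,
      mul_one]
    ring_nf
    module

end Pool.Agent.Helper90.QP
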