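import Mathlib

/-!
The group of basis-conjugating automorphisms of a free group.
-/

namespace Pool.Agent.Helper90.QP

/-- The group of the basis-conjugating automorphisms of the free group on `x_0, …, x_(n-1)`: the
automorphisms which send each `x_i` to a conjugate `w x_i w⁻¹`. -/
def PSigma (n : ℕ) : Subgroup (MulAut (FreeGroup (Fin n))) where
  carrier := {φ | ∀ i, ∃ w : FreeGroup (Fin n), φ (FreeGroup.of i) = w * FreeGroup.of i * w⁻¹}
  one_mem' i := ⟨1, by simp⟩
  mul_mem' {φ ψ} hφ hψ i := by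
    obtain ⟨w, hw⟩ := hψ i
    obtain ⟨v, hv⟩ := hφ i
    refine ⟨φ w * v, ?_⟩
    rw [MulAut.mul_apply, hw, map_mul, map_mul, map_inv, hv, mul_inv_rev]
    simp only [mul_assoc]
  inv_mem' {φ} hφ i := by
    obtain ⟨w, hw⟩ := hφ i
    refine ⟨(φ⁻¹ w)⁻¹, ?_⟩
    have h : φ⁻¹ (φ (FreeGroup.of i)) = FreeGroup.of i := MulAut.inv_apply_self _ _ _
    rw [hw, map_mul, map_mul, map_inv] at h
    rw [inv_inv]
    nth_rewrite 2 [← h]
    group

end Pool.Agent.Helper90.QP
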