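import Mathlib
import Pool.Agent.Helper90.QP.Base
import Pool.Agent.Helper90.QP.PSig

/-!
Basis-conjugating automorphisms of the free group of rank four and their lifts to the free
associative algebra.
-/

namespace Pool.Agent.Helper90.QP

open scoped commutatorElement

/-- The group. -/
abbrev GG : Type := PSigma 4

/-- The ring of endomorphisms. -/
abbrev EE : Type := Module.End RR SS

/-- The filtration of the ring of endomorphisms. -/
noncomputable def Fi : Filt RR EE tt where
  I k :=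
    { carrier := {φ | ∀ f, ∃ g, φ f = tt ^ k • g}
      zero_mem' := fun f => ⟨0, by simp⟩
      add_mem' := by
        intro φ ψ hφ hψ f
        obtain ⟨g, hg⟩ := hφ f
        obtain ⟨g', hg'⟩ := hψ f
        exact ⟨g + g', by rw [LinearMap.add_apply, hg, hg', smul_add]⟩
      neg_mem' := by
        intro φ hφ f
        obtain ⟨g, hg⟩ := hφ f
        exact ⟨-g, by rw [LinearMap.neg_apply, hg, smul_neg]⟩ }
  mul_mem := by
    intro j k x y hx hy f
    obtain ⟨g, hg⟩ := hy f
    obtain ⟨g', hg'⟩ := hx g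
    refine ⟨g', ?_⟩
    rw [Module.End.mul_apply, hg, map_smul, hg', smul_smul, pow_add, mul_comm]
  anti := by
    intro k x hx f
    obtain ⟨g, hg⟩ := hx f
    refine ⟨tt • g, ?_⟩
    rw [hg, smul_smul, pow_succ]
  zero_top := fun x f => ⟨x f, by rw [pow_zero, one_smul]⟩
  smul_mem := fun k x f => ⟨x f, rfl⟩

theorem mem_Fi {k : ℕ} {φ : EE} : φ ∈ Fi.I k ↔ ∀ f, ∃ g, φ f = tt ^ k • g := Iff.rfl

theorem Fi_ten {φ : EE} (h : φ ∈ Fi.I 10) : φ = 0 := by
  ext1 f
  obtain ⟨g, hg⟩ := h f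
  rw [hg, tt_pow, zero_smul]; rfl

theorem isUnit_of {φ : EE} (h : φ - 1 ∈ Fi.I 1) : IsUnit φ := by
  have h1 : IsNilpotent (φ - 1) := by
    refine ⟨10, Fi_ten ?_⟩
    have : ∀ n : ℕ, (φ - 1) ^ n ∈ Fi.I n := by
      intro n
      induction n with
      | zero => exact Fi.zero_top _
      | succ n ih => rw [pow_succ]; exact Fi.mul_mem ih h
    exact this 10
  have := h1.isUnit_one_add
  rwa [add_sub_cancel] at this

/-- The unit `η` of the endomorphism ring lifts the automorphism `h`. -/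
def Lifts (h : GG) (η : EEˣ) : Prop :=
  ∀ w : FreeGroup (Fin 4), (η : EE) ((mu w : SSˣ) : SS) = ((mu (h.1 w) : SSˣ) : SS)

theorem Lifts.one : Lifts 1 1 := fun _ => rfl

theorem Lifts.mul {h h' : GG} {η η' : EEˣ} (a : Lifts h η) (b : Lifts h' η') :
    Lifts (h * h') (η * η') := by
  intro w
  rw [Units.val_mul, Module.End.mul_apply, b w, a]
  rfl

theorem Lifts.inv {h : GG} {η : EEˣ} (a : Lifts h η) : Lifts h⁻¹ η⁻¹ := by
  intro w
  have h1 : (η : EE) ((mu ((h⁻¹ : GG).1 w) : SSˣ) : SS) = ((mu w : SSˣ) : SS) := by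
    rw [a]
    congr 2
    change h.1 ((h.1)⁻¹ w) = w
    exact MulAut.apply_inv_self _ _ _
  rw [← h1, ← Module.End.mul_apply, Units.inv_mul]
  rfl

theorem Lifts.comm {h h' : GG} {η η' : EEˣ} (a : Lifts h η) (b : Lifts h' η') :
    Lifts ⁅h, h'⁆ ⁅η, η'⁆ := by
  rw [commutatorElement_def, commutatorElement_def]
  exact ((a.mul b).mul a.inv).mul b.inv

/-- A conjugating element. -/
noncomputable def ww (h : GG) (k : Fin 4) : FreeGroup (Fin 4) := Classical.choose (h.2 k)

theorem ww_spec (h : GG) (k : Fin 4) :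
    h.1 (FreeGroup.of k) = ww h k * FreeGroup.of k * (ww h k)⁻¹ := Classical.choose_spec (h.2 k)

theorem lam_conj (l : Fin 4) (w : FreeGroup (Fin 4)) (v : FreeGroup (Fin 4)) :
    lam l (w * v * w⁻¹) = lam l v := by
  rw [lam_mul, lam_mul, lam_inv]; abel

theorem lam_aut (l : Fin 4) (h : GG) (w : FreeGroup (Fin 4)) : lam l (h.1 w) = lam l w := by
  have key : (lamHom l).comp (h.1 : FreeGroup (Fin 4) ≃* FreeGroup (Fin 4)).toMonoidHom = lamHom l := by
    apply FreeGroup.ext_hom
    intro k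
    change lamHom l (h.1 (FreeGroup.of k)) = lamHom l (FreeGroup.of k)
    rw [ww_spec]
    exact congrArg Multiplicative.ofAdd (lam_conj l (ww h k) (FreeGroup.of k))
  exact congrArg Multiplicative.toAdd (DFunLike.congr_fun key w)

/-- The leading term of a conjugate of a generator. -/
theorem conj_exp (w : FreeGroup (Fin 4)) (k : Fin 4) :
    ∃ g, ((mu w : SSˣ) : SS) * XX k * ((mu w⁻¹ : SSˣ) : SS) =
      XX k + tt • (LL w * XX k - XX k * LL w) + tt ^ 2 • g := by
  obtain ⟨g, hg⟩ := mu_exp w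
  obtain ⟨g', hg'⟩ := mu_exp w⁻¹
  rw [hg, hg', LL_inv]
  refine ⟨g * XX k + XX k * g' - LL w * XX k * LL w + tt • (LL w * XX k * g' - g * XX k * LL w) +
    tt ^ 2 • (g * XX k * g'), ?_⟩
  simp only [mul_add, add_mul, smul_mul_assoc, mul_smul_comm, smul_smul, smul_add, one_mul,
    mul_one, mul_neg, smul_neg, smul_sub]
  ring_nf
  module

theorem coeff_LX (l k : Fin 4) (hl : l ≠ k) (w : FreeGroup (Fin 4)) :
    aug (fox l (fox k (LL w * XX k - XX k * LL w))) = cc (lam l w) := by
  have h1 : fox k (LL w * XX k) = LL w := by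
    unfold XX; rw [fox_mul_X, if_pos rfl]
  have h2 : fox k (XX k * LL w) = cc (lam k w) • XX k := by
    unfold LL
    rw [Finset.mul_sum, map_sum, Finset.sum_eq_single k]
    · rw [mul_smul_comm, map_smul]; unfold XX; rw [fox_mul_X, if_pos rfl]
    · intro b _ hb
      rw [mul_smul_comm, map_smul]; unfold XX; rw [fox_mul_X, if_neg hb, smul_zero]
    · intro h; exact absurd (Finset.mem_univ k) h
  rw [map_sub, h1, h2, map_sub]
  have h3 : ∀ i, fox l (XX i) = if i = l then 1 else 0 := by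
    intro i
    have := fox_mul_X l i (1 : SS)
    rwa [one_mul] at this
  have h4 : fox l (cc (lam k w) • XX k) = 0 := by
    rw [map_smul, h3, if_neg (Ne.symm hl), smul_zero]
  have h5 : fox l (LL w) = cc (lam l w) • 1 := by
    unfold LL
    rw [map_sum, Finset.sum_eq_single l]
    · rw [map_smul, h3, if_pos rfl]
    · intro b _ hb
      rw [map_smul, h3, if_neg hb, smul_zero]
    · intro h; exact absurd (Finset.mem_univ l) h
  rw [h4, h5, sub_zero, map_smul, map_one, smul_eq_mul, mul_one]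

theorem lam_unique {w w' : FreeGroup (Fin 4)} {k l : Fin 4} (hl : l ≠ k)
    (h : w * FreeGroup.of k * w⁻¹ = w' * FreeGroup.of k * w'⁻¹) : lam l w = lam l w' := by
  have h1 : ∀ w : FreeGroup (Fin 4), ((mu (w * FreeGroup.of k * w⁻¹) : SSˣ) : SS) =
      1 + tt • (((mu w : SSˣ) : SS) * XX k * ((mu w⁻¹ : SSˣ) : SS)) := by
    intro w
    rw [map_mul, map_mul, Units.val_mul, Units.val_mul, mu_of, mul_add, mul_one, add_mul,
      ← Units.val_mul, ← map_mul, mul_inv_cancel, map_one, mul_smul_comm, smul_mul_assoc]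
    rfl
  obtain ⟨g, hg⟩ := conj_exp w k
  obtain ⟨g', hg'⟩ := conj_exp w' k
  have h2 : (1 : SS) + tt • (((mu w : SSˣ) : SS) * XX k * ((mu w⁻¹ : SSˣ) : SS)) =
      1 + tt • (((mu w' : SSˣ) : SS) * XX k * ((mu w'⁻¹ : SSˣ) : SS)) := by
    rw [← h1, ← h1, h]
  rw [hg, hg'] at h2
  have e0 : ∀ a b c : SS, (1 : SS) + tt • (c + tt • a + tt ^ 2 • b) =
      (1 + tt • c) + (tt ^ 2 • a + tt ^ 3 • b) := by
    intro a b c; module
  rw [e0, e0] at h2
  have h6 := add_left_cancel h2
  have h3 : tt ^ 2 • ((LL w * XX k - XX k * LL w) - (LL w' * XX k - XX k * LL w')) =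
      tt ^ 3 • (g' - g) := by
    generalize LL w * XX k - XX k * LL w = A at h6 ⊢
    generalize LL w' * XX k - XX k * LL w' = B at h6 ⊢
    rw [smul_sub, smul_sub, sub_eq_sub_iff_add_eq_add, h6]; abel
  have h4 := congrArg (fun x => aug (fox l (fox k x))) h3
  simp only [map_smul] at h4
  have c1 := coeff_LX l k hl w
  have c2 := coeff_LX l k hl w'
  rw [map_sub, map_sub, map_sub, c1, c2] at h4
  have h5 : lam l w - lam l w' = 0 := by
    refine rat (j := 2) (by norm_num) (r := aug (fox l (fox k (g' - g)))) ?_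
    rw [sub_eq_add_neg (lam l w), cc_add, cc_neg, ← sub_eq_add_neg]
    exact h4
  exact sub_eq_zero.1 h5

/-- The exponents of an automorphism. -/
noncomputable def ep (k l : Fin 4) (h : GG) : ZMod 2 := if l = k then 0 else lam l (ww h k)

theorem ep_eq {k l : Fin 4} (hl : l ≠ k) {h : GG} {w : FreeGroup (Fin 4)}
    (hw : h.1 (FreeGroup.of k) = w * FreeGroup.of k * w⁻¹) : ep k l h = lam l w := by
  unfold ep
  rw [if_neg hl]
  refine lam_unique (k := k) hl ?_
  rw [← hw, ww_spec]

theorem ep_self (k : Fin 4) (h : GG) : ep k k h = 0 := if_pos rfl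

theorem ep_mul (k l : Fin 4) (h h' : GG) : ep k l (h * h') = ep k l h + ep k l h' := by
  by_cases hl : l = k
  · subst hl; rw [ep_self, ep_self, ep_self, add_zero]
  · have h1 : (h * h').1 (FreeGroup.of k) =
        (h.1 (ww h' k) * ww h k) * FreeGroup.of k * (h.1 (ww h' k) * ww h k)⁻¹ := by
      change h.1 (h'.1 (FreeGroup.of k)) = _
      rw [ww_spec h' k, map_mul, map_mul, map_inv, ww_spec h k]
      group
    rw [ep_eq hl h1, lam_mul, lam_aut, ep_eq hl (ww_spec h k), ep_eq hl (ww_spec h' k), add_comm]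

end Pool.Agent.Helper90.QP
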