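import Mathlib
import Pool.Agent.Helper90.QP.Lift

/-!
Every basis-conjugating automorphism has a lift.
-/

namespace Pool.Agent.Helper90.QP

open scoped commutatorElement

/-- The derivation attached to a generator. -/
noncomputable def DD (k l : Fin 4) : EE := der (Pi.single k (XX l * XX k - XX k * XX l))

theorem DD_mul (k l : Fin 4) (f g : SS) : DD k l (f * g) = f * DD k l g + DD k l f * g :=
  der_mul _ _ _

theorem DD_X (k l i : Fin 4) : DD k l (XX i) = if i = k then XX l * XX k - XX k * XX l else 0 := by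
  unfold DD XX
  rw [der_X, Pi.single_apply]

/-- The leading term of an automorphism. -/
noncomputable def Dh (h : GG) : EE := ∑ k, ∑ l, cc (ep k l h) • DD k l

theorem Dh_mul (h : GG) (f g : SS) : Dh h (f * g) = f * Dh h g + Dh h f * g := by
  unfold Dh
  simp only [LinearMap.sum_apply, LinearMap.smul_apply, DD_mul, Finset.mul_sum, Finset.sum_mul,
    smul_add, Finset.sum_add_distrib, mul_smul_comm, smul_mul_assoc]

theorem Dh_X (h : GG) (i : Fin 4) :
    Dh h (XX i) = LL (ww h i) * XX i - XX i * LL (ww h i) := by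
  unfold Dh LL
  simp only [LinearMap.sum_apply, LinearMap.smul_apply, DD_X]
  rw [Finset.sum_eq_single i]
  · rw [Finset.mul_sum, Finset.sum_mul, ← Finset.sum_sub_distrib]
    refine Finset.sum_congr rfl fun l _ => ?_
    rw [if_pos rfl]
    by_cases hl : l = i
    · subst hl
      rw [sub_self, smul_zero, smul_mul_assoc, mul_smul_comm, sub_self]
    · unfold ep
      rw [if_neg hl, smul_sub, smul_mul_assoc, mul_smul_comm]
  · intro k _ hk
    refine Finset.sum_eq_zero fun l _ => ?_
    rw [if_neg (Ne.symm hk), smul_zero]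
  · intro h; exact absurd (Finset.mem_univ i) h

/-- The algebra endomorphism attached to an automorphism. -/
noncomputable def eta (h : GG) : SS →ₐ[RR] SS :=
  FreeAlgebra.lift RR fun i => ((mu (ww h i) : SSˣ) : SS) * XX i * ((mu (ww h i)⁻¹ : SSˣ) : SS)

theorem eta_X (h : GG) (i : Fin 4) :
    eta h (XX i) = ((mu (ww h i) : SSˣ) : SS) * XX i * ((mu (ww h i)⁻¹ : SSˣ) : SS) :=
  FreeAlgebra.lift_ι_apply _ _

theorem eta_mu (h : GG) (w : FreeGroup (Fin 4)) :
    eta h ((mu w : SSˣ) : SS) = ((mu (h.1 w) : SSˣ) : SS) := by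
  have key : (Units.map (eta h : SS →* SS)).comp mu =
      mu.comp (h.1 : FreeGroup (Fin 4) ≃* FreeGroup (Fin 4)).toMonoidHom := by
    apply FreeGroup.ext_hom
    intro k
    ext1
    change eta h ((mu (FreeGroup.of k) : SSˣ) : SS) = ((mu (h.1 (FreeGroup.of k)) : SSˣ) : SS)
    rw [mu_of, map_add, map_one, map_smul, eta_X, ww_spec, map_mul, map_mul, Units.val_mul,
      Units.val_mul, mu_of, mul_add, mul_one, add_mul, ← Units.val_mul, ← map_mul, mul_inv_cancel,
      map_one, mul_smul_comm, smul_mul_assoc]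
    rfl
  exact congrArg Units.val (DFunLike.congr_fun key w)

theorem eta_exp (h : GG) (f : SS) : ∃ g, eta h f = f + tt • Dh h f + tt ^ 2 • g := by
  induction f using FreeAlgebra.induction with
  | grade0 r =>
    refine ⟨0, ?_⟩
    have h1 : Dh h (algebraMap RR SS r) = 0 := by
      unfold Dh
      simp only [LinearMap.sum_apply, LinearMap.smul_apply]
      refine Finset.sum_eq_zero fun k _ => Finset.sum_eq_zero fun l _ => ?_
      unfold DD; rw [der_algebraMap, smul_zero]
    rw [AlgHom.commutes, h1]; simp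
  | grade1 i =>
    have h1 : FreeAlgebra.ι RR i = XX i := rfl
    obtain ⟨g, hg⟩ := conj_exp (ww h i) i
    refine ⟨g, ?_⟩
    rw [h1, eta_X, hg, Dh_X]
  | mul a b ha hb =>
    obtain ⟨g, hg⟩ := ha
    obtain ⟨g', hg'⟩ := hb
    refine ⟨g * b + a * g' + Dh h a * Dh h b + tt • (Dh h a * g' + g * Dh h b) + tt ^ 2 • (g * g'), ?_⟩
    rw [map_mul, hg, hg', Dh_mul]
    simp only [mul_add, add_mul, smul_mul_assoc, mul_smul_comm, smul_smul, smul_add]
    ring_nf
    module
  | add a b ha hb =>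
    obtain ⟨g, hg⟩ := ha
    obtain ⟨g', hg'⟩ := hb
    refine ⟨g + g', ?_⟩
    rw [map_add, hg, hg', map_add, smul_add, smul_add]
    abel

theorem eta_mem (h : GG) : (eta h : SS →ₗ[RR] SS) - 1 - tt • Dh h ∈ Fi.I 2 := by
  intro f
  obtain ⟨g, hg⟩ := eta_exp h f
  refine ⟨g, ?_⟩
  change eta h f - f - tt • Dh h f = tt ^ 2 • g
  rw [hg]; abel

theorem exists_lift (h : GG) : ∃ η : EEˣ, Lifts h η ∧ Fi.P 1 η (Dh h) := by
  have h1 : (eta h : SS →ₗ[RR] SS) - 1 ∈ Fi.I 1 := by
    have h2 := add_mem (Fi.anti _ (eta_mem h)) (Fi.smul_mem 1 (Dh h))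
    rw [pow_one, sub_add_cancel] at h2
    exact h2
  obtain ⟨η, hη⟩ := isUnit_of (φ := (eta h : SS →ₗ[RR] SS)) h1
  refine ⟨η, ?_, ?_⟩
  · intro w
    rw [hη]
    exact eta_mu h w
  · unfold Filt.P
    rw [hη, pow_one]
    exact eta_mem h

theorem Dh_add (h h' : GG) : Dh (h * h') = Dh h + Dh h' := by
  unfold Dh
  simp only [ep_mul, cc_add, add_smul, Finset.sum_add_distrib]

end Pool.Agent.Helper90.QP
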