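import Mathlib
import Pool.Agent.Helper90.QP.Lift2
import Pool.Graph.R_pool_sql_team_seeded_3997aac3.Q28.FreeLieV

/-!
Lifts of the elements of the lower central series.
-/

namespace Pool.Agent.Helper90.QP

open BurnLie Q28.FreeLieV
open scoped commutatorElement

section general

theorem FLA_ext {V M : Type} [LieRing M] {f g : FLA V →ₗ⁅ℤ⁆ M} (h : ∀ v, f (gen v) = g (gen v)) :
    f = g := by
  have key : (FreeLieAlgebra.lift ℤ).symm (f : FreeLieAlgebra ℤ V →ₗ⁅ℤ⁆ M) =
      (FreeLieAlgebra.lift ℤ).symm (g : FreeLieAlgebra ℤ V →ₗ⁅ℤ⁆ M) := by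
    funext v
    exact h v
  exact (FreeLieAlgebra.lift ℤ).symm.injective key

/-- The projection. -/
noncomputable def proj (V : Type) [AddCommGroup V] : FLA V →ₗ⁅ℤ⁆ FLie V where
  toFun x := (LieSubmodule.Quotient.mk x : FLA V ⧸ addIdeal V)
  map_add' _ _ := rfl
  map_smul' n x := map_zsmul
    ({ toFun := fun x => (LieSubmodule.Quotient.mk x : FLA V ⧸ addIdeal V)
       map_zero' := rfl
       map_add' := fun _ _ => rfl } : FLA V →+ FLie V) n x
  map_lie' := rfl

theorem proj_surj {V : Type} [AddCommGroup V] (z : FLie V) : ∃ x, proj V x = z :=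
  LieSubmodule.Quotient.surjective_mk' (addIdeal V) z

theorem FLie_ext {V M : Type} [AddCommGroup V] [LieRing M] {f g : FLie V →ₗ⁅ℤ⁆ M}
    (h : ∀ v, f (incl v) = g (incl v)) (z : FLie V) : f z = g z := by
  have key : f.comp (proj V) = g.comp (proj V) := FLA_ext fun v => h v
  obtain ⟨x, rfl⟩ := proj_surj z
  exact LieHom.congr_fun key x

theorem incl_add {V : Type} [AddCommGroup V] (v w : V) :
    (incl (v + w) : FLie V) = incl v + incl w := by
  have h5 : gen (v + w) - gen v - gen w ∈ addIdeal V :=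
    LieSubmodule.subset_lieSpan ⟨v, w, rfl⟩
  have h6 : proj V (gen (v + w) - gen v - gen w) = 0 :=
    (LieSubmodule.Quotient.mk_eq_zero (N := addIdeal V)).2 h5
  rw [map_sub, map_sub, sub_sub, sub_eq_zero] at h6
  exact h6

/-- Induction in the free Lie ring. -/
theorem FLie_ind {V : Type} [AddCommGroup V] {p : FLie V → Prop} (h0 : p 0)
    (h1 : ∀ v, p (incl v)) (h2 : ∀ x y, p x → p y → p (x + y)) (h3 : ∀ x, p x → p (-x))
    (h4 : ∀ x y, p x → p y → p ⁅x, y⁆) (z : FLie V) : p z := by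
  let T : AddSubgroup (FLie V) :=
    { carrier := {x | p x}
      zero_mem' := h0
      add_mem' := fun {x y} hx hy => h2 x y hx hy
      neg_mem' := fun {x} hx => h3 x hx }
  let S : LieSubalgebra ℤ (FLie V) :=
    { carrier := {x | p x}
      zero_mem' := h0
      add_mem' := fun {x y} hx hy => h2 x y hx hy
      smul_mem' := fun n x hx => T.zsmul_mem (x := x) hx n
      lie_mem' := fun {x y} hx hy => h4 x y hx hy }
  let f : V →+ S := AddMonoidHom.mk' (fun v => ⟨incl v, h1 v⟩) fun v w => Subtype.ext (incl_add v w)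
  have h5 : (S.incl.comp (liftF f)) z = (LieHom.id : FLie V →ₗ⁅ℤ⁆ FLie V) z := by
    apply FLie_ext
    intro v
    change ((liftF f (incl v) : S) : FLie V) = incl v
    rw [liftF_incl]
    rfl
  have h6 : ((liftF f z : S) : FLie V) = z := h5
  rw [← h6]
  exact (liftF f z).2

variable {G A : Type} [Group G] [AddCommGroup A]

theorem hom_one {E : G → A} (h : ∀ g h, E (g * h) = E g + E h) : E 1 = 0 := by
  have := h 1 1
  rw [mul_one] at this
  exact left_eq_add.1 this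

theorem hom_comm {E : G → A} (h : ∀ g h, E (g * h) = E g + E h) {g : G} (hg : g ∈ lcs G 1) :
    E g = 0 := by
  let φ : G →* Multiplicative A :=
    { toFun := fun g => Multiplicative.ofAdd (E g)
      map_one' := by rw [hom_one h]; rfl
      map_mul' := fun x y => by rw [h]; rfl }
  have h1 : lcs G 1 ≤ φ.ker := by
    rw [lcs, Subgroup.lowerCentralSeries_succ, Subgroup.commutator_le]
    intro x _ y _
    rw [MonoidHom.mem_ker, map_commutatorElement, commutatorElement_eq_one_iff_mul_comm]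
    exact mul_comm _ _
  have h2 : φ g = 1 := h1 hg
  exact Multiplicative.ofAdd.injective h2

/-- The additive map on `G/[G,G]` given by a homomorphism to an abelian group. -/
noncomputable def onV {E : G → A} (h : ∀ g h, E (g * h) = E g + E h) : Grd G 0 →+ A :=
  MonoidHom.toAdditiveLeft (QuotientGroup.lift ((lcs G 1).subgroupOf (lcs G 0))
    ({ toFun := fun g => Multiplicative.ofAdd (E g)
       map_one' := by rw [Subgroup.coe_one, hom_one h]; rfl
       map_mul' := fun x y => by rw [Subgroup.coe_mul, h]; rfl } : lcs G 0 →* Multiplicative A)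
    (fun g hg => by
      change Multiplicative.ofAdd (E g) = 1
      rw [hom_comm h (Subgroup.mem_subgroupOf.1 hg)]; rfl))

theorem onV_mk {E : G → A} (h : ∀ g h, E (g * h) = E g + E h) (g : lcs G 0) :
    onV h (grMk 0 g) = E g := rfl

theorem mkL_eq_zero {n : ℕ} {g : lcs G n} (h : mkL n g = 0) : (g : G) ∈ lcs G (n + 1) := by
  have h1 : grMk n g = grMk n 1 := by
    have h2 : Function.Injective (ofL (G := G) n) := DirectSum.of_injective n
    apply h2
    rw [grMk_one, map_zero]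
    exact h
  rw [grMk_eq] at h1
  have := inv_mem h1
  simpa using this

theorem mkL_of_mem {n : ℕ} {g : lcs G n} (h : (g : G) ∈ lcs G (n + 1)) : mkL n g = 0 := by
  have h1 : grMk n g = grMk n 1 := by
    rw [grMk_eq]
    simpa using h
  unfold mkL
  rw [h1, grMk_one, map_zero]

theorem natMap_incl (v : Grd G 0) : natMap G (incl v) = ofL 0 v := liftF_incl _ _

/-- A criterion for the failure of quadraticity. -/
theorem not_quad_of {M : Type} [LieRing M] (Ψ : FLie (Grd G 0) →ₗ⁅ℤ⁆ M)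
    (h2 : ∀ t ∈ degTwo (Grd G 0), natMap G t = 0 → Ψ t = 0)
    (z : FLie (Grd G 0)) (hz : natMap G z = 0) (hz' : Ψ z ≠ 0) : ¬ IsQuadratic G := by
  intro h
  apply hz'
  have h1 : z ∈ (natMap G).ker := LieHom.mem_ker.2 hz
  have h3 : LieSubmodule.lieSpan ℤ (FLie (Grd G 0))
      {z | z ∈ (natMap G).ker ∧ z ∈ degTwo (Grd G 0)} ≤ Ψ.ker := by
    rw [LieSubmodule.lieSpan_le]
    rintro t ⟨ht1, ht2⟩
    change t ∈ Ψ.ker
    rw [LieHom.mem_ker]
    exact h2 t ht2 (LieHom.mem_ker.1 ht1)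
  have h4 : z ∈ Ψ.ker := h3 (h ▸ h1)
  exact LieHom.mem_ker.1 h4

end general

/-- The exponents as maps on the abelianization. -/
noncomputable def ev (k l : Fin 4) : Grd GG 0 →+ ZMod 2 := onV (ep_mul k l)

/-- The leading terms of the elements of degree one. -/
noncomputable def DV : Grd GG 0 →+ EE := onV Dh_add

theorem DV_eq (v : Grd GG 0) : DV v = ∑ k, ∑ l, cc (ev k l v) • DD k l := by
  obtain ⟨g, rfl⟩ := grMk_surj 0 v
  rfl

/-- The ring of endomorphisms with its commutator bracket. -/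
noncomputable instance : LieRing EE := LieRing.ofAssociativeRing

/-- The leading term attached to an element of the free Lie ring. -/
noncomputable def DL : FLie (Grd GG 0) →ₗ⁅ℤ⁆ EE := liftF DV

theorem DL_incl (v : Grd GG 0) : DL (incl v) = DV v := liftF_incl _ _

theorem DL_lie (x y : FLie (Grd GG 0)) : DL ⁅x, y⁆ = DL x * DL y - DL y * DL x := by
  rw [LieHom.map_lie]
  rfl

/-- The element `z` of the free Lie ring and the automorphism `h` have the same leading term. -/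
def HL (n : ℕ) (z : FLie (Grd GG 0)) (h : GG) : Prop :=
  ∃ hh : h ∈ lcs GG n, natMap GG z = mkL n ⟨h, hh⟩ ∧
    ∃ η : EEˣ, Lifts h η ∧ Fi.P (n + 1) η (DL z)

theorem HL.one (n : ℕ) : HL n 0 1 := by
  refine ⟨one_mem _, ?_, 1, Lifts.one, ?_⟩
  · rw [map_zero]; exact (mkL_one n).symm
  · rw [map_zero]; exact Fi.P_one _

theorem HL.mul {n : ℕ} {z z' : FLie (Grd GG 0)} {h h' : GG} (a : HL n z h) (b : HL n z' h') :
    HL n (z + z') (h * h') := by
  obtain ⟨hh, hz, η, h1, h2⟩ := a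
  obtain ⟨hh', hz', η', h1', h2'⟩ := b
  refine ⟨mul_mem hh hh', ?_, η * η', h1.mul h1', ?_⟩
  · rw [map_add, hz, hz', ← mkL_mul]; rfl
  · rw [map_add]; exact Fi.P_mul (by omega) h2 h2'

theorem HL.inv {n : ℕ} {z : FLie (Grd GG 0)} {h : GG} (a : HL n z h) : HL n (-z) h⁻¹ := by
  obtain ⟨hh, hz, η, h1, h2⟩ := a
  refine ⟨inv_mem hh, ?_, η⁻¹, h1.inv, ?_⟩
  · rw [map_neg, hz, ← mkL_inv]; rfl
  · rw [map_neg]; exact Fi.P_inv (by omega) h2

theorem HL.comm {n : ℕ} {z z' : FLie (Grd GG 0)} {h h' : GG} (a : HL n z h) (b : HL 0 z' h') :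
    HL (n + 1) ⁅z, z'⁆ ⁅h, h'⁆ := by
  obtain ⟨hh, hz, η, h1, h2⟩ := a
  obtain ⟨hh', hz', η', h1', h2'⟩ := b
  refine ⟨lcs_comm_mem (m := n) (n := 0) hh hh', ?_, ⁅η, η'⁆, h1.comm h1', ?_⟩
  · rw [LieHom.map_lie, hz, hz']
    exact lieHom_mkL n 0 ⟨h, hh⟩ ⟨h', hh'⟩
  · rw [DL_lie]
    exact Fi.P_comm (by omega) (by omega) h2 h2'

theorem HL.base (g : lcs GG 0) : HL 0 (incl (grMk 0 g)) (g : GG) := by
  obtain ⟨η, h1, h2⟩ := exists_lift (g : GG)
  refine ⟨g.2, ?_, η, h1, ?_⟩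
  · rw [natMap_incl]; rfl
  · rw [DL_incl]; exact h2

theorem hasLift : ∀ (n : ℕ) {h : GG}, h ∈ lcs GG n → ∃ z, HL n z h := by
  intro n
  induction n with
  | zero => intro h hh; exact ⟨_, HL.base ⟨h, hh⟩⟩
  | succ n ih =>
    intro h hh
    rw [lcs, Subgroup.mem_lowerCentralSeries_succ_iff] at hh
    induction hh using Subgroup.closure_induction with
    | mem x hx =>
      obtain ⟨y, hy, w, -, rfl⟩ := hx
      obtain ⟨z, hz⟩ := ih hy
      exact ⟨_, hz.comm (HL.base ⟨w, Subgroup.mem_top w⟩)⟩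
    | one => exact ⟨_, HL.one _⟩
    | mul x y _ _ hx hy =>
      obtain ⟨z, hz⟩ := hx
      obtain ⟨z', hz'⟩ := hy
      exact ⟨_, hz.mul hz'⟩
    | inv x _ hx =>
      obtain ⟨z, hz⟩ := hx
      exact ⟨_, hz.inv⟩

/-- The elements of degree two of the free Lie ring. -/
theorem degTwo_lift {t : FLie (Grd GG 0)} (ht : t ∈ degTwo (Grd GG 0)) :
    ∃ h : GG, HL 1 t h := by
  have ht' : t ∈ AddSubgroup.closure {z | ∃ v w : Grd GG 0, z = ⁅incl v, incl w⁆} := by
    rw [← Submodule.span_int_eq_addSubgroupClosure]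
    exact ht
  clear ht
  induction ht' using AddSubgroup.closure_induction with
  | mem t ht =>
    obtain ⟨v, w, rfl⟩ := ht
    obtain ⟨g, rfl⟩ := grMk_surj 0 v
    obtain ⟨g', rfl⟩ := grMk_surj 0 w
    exact ⟨_, (HL.base g).comm (HL.base g')⟩
  | zero => exact ⟨1, HL.one 1⟩
  | add t u _ _ ht hu =>
    obtain ⟨h, hz⟩ := ht
    obtain ⟨h', hz'⟩ := hu
    exact ⟨_, hz.mul hz'⟩
  | neg t _ ht =>
    obtain ⟨h, hz⟩ := ht
    exact ⟨_, hz.inv⟩

theorem Lifts.map_one {h : GG} {η : EEˣ} (a : Lifts h η) : (η : EE) 1 = 1 := by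
  have h1 := a 1
  simp only [_root_.map_one, Units.val_one] at h1
  exact h1

theorem Lifts.tX {h : GG} {η : EEˣ} (a : Lifts h η) (i : Fin 4) :
    ((mu (h.1 (FreeGroup.of i)) : SSˣ) : SS) = 1 + tt • (η : EE) (XX i) := by
  rw [← a, mu_of, map_add, a.map_one, map_smul]

/-- The leading term of a relation of degree two vanishes modulo `t`. -/
theorem degTwo_zero {t : FLie (Grd GG 0)} (ht : t ∈ degTwo (Grd GG 0)) (h0 : natMap GG t = 0)
    (i : Fin 4) : ∃ g, tt ^ 3 • DL t (XX i) = tt ^ 4 • g := by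
  obtain ⟨h, hh, hz, η, h1, h2⟩ := degTwo_lift ht
  rw [h0] at hz
  obtain ⟨z', _, _, η', h1', h2'⟩ := hasLift 2 (mkL_eq_zero hz.symm)
  have h3 := Fi.sub_one_mem h2'
  obtain ⟨g, hg⟩ := h2 (XX i)
  obtain ⟨g', hg'⟩ := h3 (XX i)
  have e1 := h1.tX i
  have e2 := h1'.tX i
  change _ = 1 + tt • (η' : EE) (XX i) at e2
  rw [e1] at e2
  have e3 := add_left_cancel e2
  change (η : EE) (XX i) - XX i - tt ^ 2 • DL t (XX i) = tt ^ 3 • g at hg
  change (η' : EE) (XX i) - XX i = tt ^ 3 • g' at hg'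
  refine ⟨g' - g, ?_⟩
  have e4 : tt ^ 2 • DL t (XX i) = (η : EE) (XX i) - XX i - tt ^ 3 • g := by rw [← hg]; abel
  have e5 : tt • ((η : EE) (XX i)) = tt • (XX i + tt ^ 3 • g') := by rw [e3, ← hg']; congr 1; abel
  have e6 : tt ^ 3 • DL t (XX i) = tt • (tt ^ 2 • DL t (XX i)) := by rw [smul_smul, ← pow_succ']
  rw [e6, e4, smul_sub, smul_sub, e5]
  module

/-- The leading term of an element of high degree. -/
theorem deep_exp {n : ℕ} {h : GG} (hh : h ∈ lcs GG n) :
    ∃ z, natMap GG z = mkL n ⟨h, hh⟩ ∧ ∀ i, ∃ g, ((mu (h.1 (FreeGroup.of i)) : SSˣ) : SS) =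
      1 + tt • XX i + tt ^ (n + 2) • DL z (XX i) + tt ^ (n + 3) • g := by
  obtain ⟨z, _, hz, η, h1, h2⟩ := hasLift n hh
  refine ⟨z, hz, fun i => ?_⟩
  obtain ⟨g, hg⟩ := h2 (XX i)
  change (η : EE) (XX i) - XX i - tt ^ (n + 1) • DL z (XX i) = tt ^ (n + 1 + 1) • g at hg
  refine ⟨g, ?_⟩
  rw [h1.tX i]
  have e : (η : EE) (XX i) = XX i + tt ^ (n + 1) • DL z (XX i) + tt ^ (n + 1 + 1) • g := by
    rw [← hg]; abel
  rw [e]
  module

end Pool.Agent.Helper90.QP
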