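import Mathlib
import Pool.Agent.Helper90.QP.Assoc

/-!
Reduction modulo `t`.
-/

namespace Pool.Agent.Helper90.QP

open BurnLie Q28.FreeLieV
open scoped commutatorElement

/-- The map `t ↦ 0`. -/
noncomputable def epR : RR →+* ZMod 2 :=
  Ideal.Quotient.lift (Ideal.span {(Polynomial.X : Polynomial (ZMod 2)) ^ 10})
    (Polynomial.evalRingHom 0) (by
      intro a ha
      have h1 : Ideal.span {(Polynomial.X : Polynomial (ZMod 2)) ^ 10} ≤
          RingHom.ker (Polynomial.evalRingHom (0 : ZMod 2)) := by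
        rw [Ideal.span_le]
        intro x hx
        rw [Set.mem_singleton_iff] at hx
        rw [hx]
        change _ ∈ RingHom.ker (Polynomial.evalRingHom (0 : ZMod 2))
        rw [RingHom.mem_ker]
        simp
      exact RingHom.mem_ker.1 (h1 ha))

/-- The quotient map. -/
noncomputable def pk : Polynomial (ZMod 2) →+* RR := Ideal.Quotient.mk _

theorem epR_pk (p : Polynomial (ZMod 2)) : epR (pk p) = Polynomial.eval 0 p := rfl

theorem cc_pk (c : ZMod 2) : cc c = pk (Polynomial.C c) := rfl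

theorem tt_pk : tt = pk Polynomial.X := rfl

theorem pk_surj (r : RR) : ∃ p, pk p = r := Ideal.Quotient.mk_surjective r

theorem epR_cc (c : ZMod 2) : epR (cc c) = c := by
  rw [cc_pk, epR_pk, Polynomial.eval_C]

theorem epR_tt : epR tt = 0 := by
  rw [tt_pk, epR_pk, Polynomial.eval_X]

theorem RR_dec (r : RR) : ∃ r', r = cc (epR r) + tt * r' := by
  obtain ⟨p, rfl⟩ := pk_surj r
  refine ⟨pk p.divX, ?_⟩
  rw [epR_pk, cc_pk, tt_pk, ← map_mul, ← map_add]
  congr 1
  have h2 := Polynomial.divX_mul_X_add p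
  rw [← Polynomial.coeff_zero_eq_eval_zero]
  nth_rewrite 1 [← h2]
  ring

theorem epR_zero {j : ℕ} (hj : j ≤ 9) {r s : RR} (h : tt ^ j * r = tt ^ (j + 1) * s) :
    epR r = 0 := by
  obtain ⟨r', hr'⟩ := RR_dec r
  refine rat hj (r := s - r') ?_
  have h1 : cc (epR r) = r - tt * r' := by rw [eq_sub_iff_add_eq]; exact hr'.symm
  rw [h1, mul_sub, h, mul_sub, pow_succ, mul_assoc, mul_assoc]

/-- The ring of endomorphisms with its commutator bracket. -/
noncomputable instance instLieEnd {M : Type} [AddCommGroup M] [Module (ZMod 2) M] :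
    LieRing (Module.End (ZMod 2) M) := LieRing.ofAssociativeRing

theorem end_lie {M : Type} [AddCommGroup M] [Module (ZMod 2) M] (x y : Module.End (ZMod 2) M)
    (m : M) : ⁅x, y⁆ m = x (y m) - y (x m) := rfl

/-- The free algebra over the field with two elements. -/
abbrev S0 : Type := FreeAlgebra (ZMod 2) (Fin 4)

/-- The generators. -/
noncomputable def X0 (i : Fin 4) : S0 := X (ZMod 2) i

/-- Reduction modulo `t`. -/
noncomputable def red : SS →+* S0 :=
  ((FreeAlgebra.equivMonoidAlgebraFreeMonoid (R := ZMod 2) (X := Fin 4)).symm : _ →+* S0).comp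
    ((MonoidAlgebra.mapRingHom (FreeMonoid (Fin 4)) epR).comp
      ((FreeAlgebra.equivMonoidAlgebraFreeMonoid (R := RR) (X := Fin 4)) : SS →+* _))

theorem red_X (i : Fin 4) : red (XX i) = X0 i := by
  change (FreeAlgebra.equivMonoidAlgebraFreeMonoid (R := ZMod 2) (X := Fin 4)).symm
    (MonoidAlgebra.mapRingHom (FreeMonoid (Fin 4)) epR
      (FreeAlgebra.equivMonoidAlgebraFreeMonoid (R := RR) (X := Fin 4) (XX i))) = X0 i
  rw [AlgEquiv.symm_apply_eq]
  have h1 : FreeAlgebra.equivMonoidAlgebraFreeMonoid (R := RR) (X := Fin 4) (XX i) =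
      MonoidAlgebra.of RR (FreeMonoid (Fin 4)) (FreeMonoid.of i) :=
    FreeAlgebra.lift_ι_apply _ _
  have h2 : FreeAlgebra.equivMonoidAlgebraFreeMonoid (R := ZMod 2) (X := Fin 4) (X0 i) =
      MonoidAlgebra.of (ZMod 2) (FreeMonoid (Fin 4)) (FreeMonoid.of i) :=
    FreeAlgebra.lift_ι_apply _ _
  rw [h1, h2, MonoidAlgebra.of_apply, MonoidAlgebra.of_apply, MonoidAlgebra.mapRingHom_single,
    map_one]

theorem red_algebraMap (r : RR) : red (algebraMap RR SS r) = algebraMap (ZMod 2) S0 (epR r) := by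
  change (FreeAlgebra.equivMonoidAlgebraFreeMonoid (R := ZMod 2) (X := Fin 4)).symm
    (MonoidAlgebra.mapRingHom (FreeMonoid (Fin 4)) epR
      (FreeAlgebra.equivMonoidAlgebraFreeMonoid (R := RR) (X := Fin 4) (algebraMap RR SS r))) = _
  rw [AlgEquiv.symm_apply_eq, AlgEquiv.commutes, AlgEquiv.commutes]
  exact MonoidAlgebra.mapRingHom_single _ _ _

theorem red_smul (r : RR) (f : SS) : red (r • f) = epR r • red f := by
  rw [Algebra.smul_def, map_mul, red_algebraMap, Algebra.smul_def]

theorem red_zero {j : ℕ} (hj : j ≤ 9) {f g : SS} (h : tt ^ j • f = tt ^ (j + 1) • g) :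
    red f = 0 := by
  change (FreeAlgebra.equivMonoidAlgebraFreeMonoid (R := ZMod 2) (X := Fin 4)).symm
    (MonoidAlgebra.mapRingHom (FreeMonoid (Fin 4)) epR
      (FreeAlgebra.equivMonoidAlgebraFreeMonoid (R := RR) (X := Fin 4) f)) = 0
  rw [AlgEquiv.symm_apply_eq, map_zero]
  ext m
  rw [MonoidAlgebra.coeff_mapRingHom]
  have h1 := congrArg (fun x => (FreeAlgebra.equivMonoidAlgebraFreeMonoid (R := RR) (X := Fin 4) x).coeff m) h
  simp only [map_smul, MonoidAlgebra.coeff_smul, Finsupp.smul_apply, smul_eq_mul] at h1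
  exact epR_zero hj h1

/-- The derivation attached to a generator. -/
noncomputable def D0 (k l : Fin 4) : Module.End (ZMod 2) S0 :=
  der (Pi.single k (X0 l * X0 k - X0 k * X0 l))

theorem D0_mul (k l : Fin 4) (f g : S0) : D0 k l (f * g) = f * D0 k l g + D0 k l f * g :=
  der_mul _ _ _

theorem D0_X (k l i : Fin 4) : D0 k l (X0 i) = if i = k then X0 l * X0 k - X0 k * X0 l else 0 := by
  unfold D0 X0
  rw [der_X, Pi.single_apply]

theorem red_DD (k l : Fin 4) (f : SS) : red (DD k l f) = D0 k l (red f) := by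
  induction f using FreeAlgebra.induction with
  | grade0 r =>
    unfold DD D0
    rw [der_algebraMap, red_algebraMap, der_algebraMap, map_zero]
  | grade1 i =>
    have h : FreeAlgebra.ι RR i = XX i := rfl
    rw [h, DD_X, red_X, D0_X]
    split_ifs
    · rw [map_sub, map_mul, map_mul, red_X, red_X]
    · rw [map_zero]
  | mul a b ha hb => rw [DD_mul, map_add, map_mul, map_mul, map_mul, D0_mul, ha, hb]
  | add a b ha hb => simp only [map_add, ha, hb]

/-- The homomorphism from the free Lie ring given by its values on the twelve generators. -/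
noncomputable def lft {E : Type} [LieRing E] [Module (ZMod 2) E] (F : Fin 4 → Fin 4 → E) :
    FLie (Grd GG 0) →ₗ⁅ℤ⁆ E :=
  liftF (AddMonoidHom.mk' (fun v => ∑ k, ∑ l, ev k l v • F k l) fun v w => by
    simp only [map_add, add_smul, Finset.sum_add_distrib])

theorem lft_incl {E : Type} [LieRing E] [Module (ZMod 2) E] (F : Fin 4 → Fin 4 → E)
    (v : Grd GG 0) : lft F (incl v) = ∑ k, ∑ l, ev k l v • F k l := liftF_incl _ _

theorem sum_ind3 {ι E1 E2 E3 : Type} [AddCommGroup E1] [AddCommGroup E2] [AddCommGroup E3]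
    {p : E1 → E2 → E3 → Prop} (h0 : p 0 0 0)
    (h2 : ∀ x y z x' y' z', p x y z → p x' y' z' → p (x + x') (y + y') (z + z'))
    {F1 : ι → E1} {F2 : ι → E2} {F3 : ι → E3} (h : ∀ i, p (F1 i) (F2 i) (F3 i)) (s : Finset ι) :
    p (∑ i ∈ s, F1 i) (∑ i ∈ s, F2 i) (∑ i ∈ s, F3 i) := by
  classical
  induction s using Finset.induction_on with
  | empty => simpa using h0
  | insert a s ha ih =>
    rw [Finset.sum_insert ha, Finset.sum_insert ha, Finset.sum_insert ha]
    exact h2 _ _ _ _ _ _ (h a) ih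

/-- Relations between three such homomorphisms are checked on the generators. -/
theorem lft_ind3 {E1 E2 E3 : Type} [LieRing E1] [Module (ZMod 2) E1] [LieRing E2]
    [Module (ZMod 2) E2] [LieRing E3] [Module (ZMod 2) E3] {p : E1 → E2 → E3 → Prop}
    (h0 : p 0 0 0)
    (h2 : ∀ x y z x' y' z', p x y z → p x' y' z' → p (x + x') (y + y') (z + z'))
    (h3 : ∀ x y z, p x y z → p (-x) (-y) (-z))
    (h4 : ∀ x y z x' y' z', p x y z → p x' y' z' → p ⁅x, x'⁆ ⁅y, y'⁆ ⁅z, z'⁆)
    {F1 : Fin 4 → Fin 4 → E1} {F2 : Fin 4 → Fin 4 → E2} {F3 : Fin 4 → Fin 4 → E3}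
    (h : ∀ k l, p (F1 k l) (F2 k l) (F3 k l)) (z : FLie (Grd GG 0)) :
    p (lft F1 z) (lft F2 z) (lft F3 z) := by
  induction z using FLie_ind with
  | h0 => rw [map_zero, map_zero, map_zero]; exact h0
  | h1 v =>
    rw [lft_incl, lft_incl, lft_incl]
    refine sum_ind3 h0 h2 (fun k => sum_ind3 h0 h2 (fun l => ?_) _) _
    rcases zmod_cases (ev k l v) with hc | hc
    · rw [hc, zero_smul, zero_smul, zero_smul]; exact h0
    · rw [hc, one_smul, one_smul, one_smul]; exact h k l
  | h2 x y hx hy => rw [map_add, map_add, map_add]; exact h2 _ _ _ _ _ _ hx hy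
  | h3 x hx => rw [map_neg, map_neg, map_neg]; exact h3 _ _ _ hx
  | h4 x y hx hy =>
    rw [LieHom.map_lie, LieHom.map_lie, LieHom.map_lie]; exact h4 _ _ _ _ _ _ hx hy

/-- The leading term modulo `t`. -/
noncomputable def DL0 : FLie (Grd GG 0) →ₗ⁅ℤ⁆ Module.End (ZMod 2) S0 := lft D0

theorem red_DL (z : FLie (Grd GG 0)) (f : SS) : red (DL z f) = DL0 z (red f) := by
  revert f
  unfold DL0
  induction z using FLie_ind with
  | h0 => intro f; rw [map_zero, map_zero]; exact map_zero red
  | h1 v =>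
    intro f
    rw [DL_incl, DV_eq, lft_incl]
    simp only [LinearMap.sum_apply, LinearMap.smul_apply, map_sum, red_smul, epR_cc, red_DD]
  | h2 x y hx hy =>
    intro f
    rw [map_add, map_add, LinearMap.add_apply, LinearMap.add_apply, map_add, hx, hy]
  | h3 x hx =>
    intro f
    rw [map_neg, map_neg, LinearMap.neg_apply, LinearMap.neg_apply, map_neg, hx]
  | h4 x y hx hy =>
    intro f
    rw [DL_lie, LieHom.map_lie]
    change red (DL x (DL y f) - DL y (DL x f)) = lft D0 x (lft D0 y (red f)) - lft D0 y (lft D0 x (red f))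
    rw [map_sub, hx, hy, hy, hx]

theorem DL0_mul (z : FLie (Grd GG 0)) (f g : S0) :
    DL0 z (f * g) = f * DL0 z g + DL0 z f * g := by
  revert f g
  refine lft_ind3 (F1 := D0) (F2 := D0) (F3 := D0)
    (p := fun x _ _ => ∀ f g, x (f * g) = f * x g + x f * g) ?_ ?_ ?_ ?_ ?_ z
  · intro f g; simp
  · intro x _ _ x' _ _ hx hx' f g
    simp only [LinearMap.add_apply, hx, hx']; noncomm_ring
  · intro x _ _ hx f g
    simp only [LinearMap.neg_apply, hx]; noncomm_ring
  · intro x _ _ x' _ _ hx hx' f g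
    change x (x' (f * g)) - x' (x (f * g)) = f * (x (x' g) - x' (x g)) + (x (x' f) - x' (x f)) * g
    simp only [hx, hx', map_add]; noncomm_ring
  · intro k l f g; exact D0_mul k l f g

theorem degTwo_DL0 {t : FLie (Grd GG 0)} (ht : t ∈ degTwo (Grd GG 0)) (h0 : natMap GG t = 0) :
    DL0 t = 0 := by
  refine der_ext (DL0_mul t) (by simp) ?_
  intro i
  obtain ⟨g, hg⟩ := degTwo_zero ht h0 i
  have h1 := red_zero (by norm_num) hg
  rw [red_DL, red_X] at h1
  exact h1

end Pool.Agent.Helper90.QP
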