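import Mathlib
import Pool.Agent.Helper90.QP.Red

/-!
The action on the words which end with their only letter `X_3`.
-/

namespace Pool.Agent.Helper90.QP

open BurnLie Q28.FreeLieV

/-- The free algebra of rank three over the field with two elements. -/
abbrev S3 : Type := FreeAlgebra (ZMod 2) (Fin 3)

/-- The generators. -/
noncomputable def X3 (i : Fin 3) : S3 := X (ZMod 2) i

/-- A function of two indices in `Fin 4` given by its values on three families. -/
def fam {E : Type} [Zero E] (kl : Fin 3 → Fin 3 → E) (l4 k4 : Fin 3 → E) (k l : Fin 4) : E :=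
  Fin.lastCases (motive := fun _ => E)
    (Fin.lastCases (motive := fun _ => E) 0 l4 l)
    (fun k' => Fin.lastCases (motive := fun _ => E) (k4 k') (fun l' => kl k' l') l) k

section fam
variable {E : Type} [Zero E] (kl : Fin 3 → Fin 3 → E) (l4 k4 : Fin 3 → E)

theorem fam_kl (k l : Fin 3) : fam kl l4 k4 k.castSucc l.castSucc = kl k l := by
  unfold fam; rw [Fin.lastCases_castSucc, Fin.lastCases_castSucc]
theorem fam_l4 (l : Fin 3) : fam kl l4 k4 (Fin.last 3) l.castSucc = l4 l := by
  unfold fam; rw [Fin.lastCases_last, Fin.lastCases_castSucc]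
theorem fam_k4 (k : Fin 3) : fam kl l4 k4 k.castSucc (Fin.last 3) = k4 k := by
  unfold fam; rw [Fin.lastCases_castSucc, Fin.lastCases_last]
theorem fam_44 : fam kl l4 k4 (Fin.last 3) (Fin.last 3) = 0 := by
  unfold fam; rw [Fin.lastCases_last, Fin.lastCases_last]

theorem fam_ind {p : Fin 4 → Fin 4 → Prop} (h1 : ∀ k l : Fin 3, p k.castSucc l.castSucc)
    (h2 : ∀ l : Fin 3, p (Fin.last 3) l.castSucc) (h3 : ∀ k : Fin 3, p k.castSucc (Fin.last 3))
    (h4 : p (Fin.last 3) (Fin.last 3)) (k l : Fin 4) : p k l := by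
  refine Fin.lastCases (motive := fun k => ∀ l, p k l) ?_ (fun k' => ?_) k l
  · intro l
    refine Fin.lastCases (motive := fun l => p (Fin.last 3) l) h4 h2 l
  · intro l
    refine Fin.lastCases (motive := fun l => p k'.castSucc l) (h3 k') (h1 k') l

end fam

/-- The projection `X_3 ↦ 0`. -/
noncomputable def r0 : S0 →ₐ[ZMod 2] S3 :=
  FreeAlgebra.lift (ZMod 2) fun i => Fin.lastCases (motive := fun _ => S3) 0 X3 i

theorem r0_c (i : Fin 3) : r0 (X0 i.castSucc) = X3 i := by
  unfold r0 X0 X
  rw [FreeAlgebra.lift_ι_apply, Fin.lastCases_castSucc]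

theorem r0_l : r0 (X0 (Fin.last 3)) = 0 := by
  unfold r0 X0 X
  rw [FreeAlgebra.lift_ι_apply, Fin.lastCases_last]

/-- The inclusion. -/
noncomputable def i0 : S3 →ₐ[ZMod 2] S0 := FreeAlgebra.lift (ZMod 2) fun i => X0 i.castSucc

theorem i0_X (i : Fin 3) : i0 (X3 i) = X0 i.castSucc := by
  unfold i0 X3 X
  rw [FreeAlgebra.lift_ι_apply]

theorem r0_i0 (f : S3) : r0 (i0 f) = f := by
  have h : r0.comp i0 = AlgHom.id (ZMod 2) S3 := by
    apply FreeAlgebra.hom_ext
    funext i
    change r0 (i0 (X3 i)) = X3 i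
    rw [i0_X, r0_c]
  exact DFunLike.congr_fun h f

/-- The derivations of the free algebra of rank three. -/
noncomputable def D3 (k l : Fin 3) : Module.End (ZMod 2) S3 :=
  der (Pi.single k (X3 l * X3 k - X3 k * X3 l))

theorem D3_mul (k l : Fin 3) (f g : S3) : D3 k l (f * g) = f * D3 k l g + D3 k l f * g :=
  der_mul _ _ _

theorem D3_X (k l i : Fin 3) : D3 k l (X3 i) = if i = k then X3 l * X3 k - X3 k * X3 l else 0 := by
  unfold D3 X3
  rw [der_X, Pi.single_apply]

/-- The coefficients of the words ending with `X_3`. -/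
noncomputable def fl : S0 →ₗ[ZMod 2] S0 := fox (Fin.last 3)

theorem fl_c (g : S0) (i : Fin 3) : fl (g * X0 i.castSucc) = 0 := by
  unfold fl X0
  rw [fox_mul_X, if_neg (Fin.castSucc_lt_last i).ne]

theorem fl_l (g : S0) : fl (g * X0 (Fin.last 3)) = g := by
  unfold fl X0
  rw [fox_mul_X, if_pos rfl]

theorem fl_one : fl 1 = 0 := fox_one _

/-- The pair of the part without `X_3` and the part ending with its only letter `X_3`. -/
noncomputable def PP : S0 →ₗ[ZMod 2] S3 × S3 :=
  LinearMap.prod r0.toLinearMap (r0.toLinearMap.comp fl)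

theorem PP_apply (f : S0) : PP f = (r0 f, r0 (fl f)) := rfl

theorem PP_surj (q : S3 × S3) : ∃ f, PP f = q := by
  obtain ⟨a, b⟩ := q
  refine ⟨i0 a + i0 b * X0 (Fin.last 3), ?_⟩
  have h1 : fl (i0 a) = 0 := by
    have : fl.comp i0.toLinearMap = 0 := by
      apply lin_ext
      · change fl (i0 1) = 0
        rw [map_one, fl_one]
      · intro g i
        change fl (i0 (g * X3 i)) = 0
        rw [map_mul, i0_X, fl_c]
    exact DFunLike.congr_fun this a
  rw [PP_apply, map_add, map_mul, r0_l, mul_zero, add_zero, r0_i0, map_add, h1, fl_l, zero_add,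
    r0_i0]

theorem r0_D0_c (k l : Fin 3) (f : S0) : r0 (D0 k.castSucc l.castSucc f) = D3 k l (r0 f) := by
  have h : r0.toLinearMap.comp (D0 k.castSucc l.castSucc) = (D3 k l).comp r0.toLinearMap := by
    refine td_ext (α := r0) (σ := r0) ?_ ?_ ?_
    · intro f g
      change r0 (D0 _ _ (f * g)) = r0 f * r0 (D0 _ _ g) + r0 (D0 _ _ f) * r0 g
      rw [D0_mul, map_add, map_mul, map_mul]
    · intro f g
      change D3 _ _ (r0 (f * g)) = r0 f * D3 _ _ (r0 g) + D3 _ _ (r0 f) * r0 g
      rw [map_mul, D3_mul]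
    · intro i
      change r0 (D0 _ _ (X0 i)) = D3 _ _ (r0 (X0 i))
      refine Fin.lastCases (motive := fun i => r0 (D0 _ _ (X0 i)) = D3 _ _ (r0 (X0 i))) ?_ ?_ i
      · rw [D0_X, r0_l, map_zero, if_neg (Fin.castSucc_lt_last k).ne', map_zero]
      · intro j
        rw [D0_X, r0_c, D3_X]
        by_cases hj : j = k
        · rw [if_pos hj, if_pos (congrArg _ hj), map_sub, map_mul, map_mul, r0_c, r0_c]
        · rw [if_neg hj, if_neg (fun h => hj (Fin.castSucc_injective _ h)), map_zero]
  exact DFunLike.congr_fun h f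

theorem r0_D0_zero (k l : Fin 4) (h : k = Fin.last 3 ∨ l = Fin.last 3) (f : S0) :
    r0 (D0 k l f) = 0 := by
  have h : r0.toLinearMap.comp (D0 k l) = 0 := by
    refine td_ext (α := r0) (σ := r0) ?_ ?_ ?_
    · intro f g
      change r0 (D0 _ _ (f * g)) = r0 f * r0 (D0 _ _ g) + r0 (D0 _ _ f) * r0 g
      rw [D0_mul, map_add, map_mul, map_mul]
    · intro f g
      simp
    · intro i
      change r0 (D0 _ _ (X0 i)) = 0
      rw [D0_X]
      split_ifs
      · rw [map_sub, map_mul, map_mul]
        rcases h with h | h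
        · rw [h, r0_l, mul_zero, zero_mul, sub_zero]
        · rw [h, r0_l, mul_zero, zero_mul, sub_zero]
      · rw [map_zero]
  exact DFunLike.congr_fun h f

/-- Right multiplication. -/
noncomputable def rm (g : S3) : S3 →ₗ[ZMod 2] S3 := LinearMap.mulRight (ZMod 2) g

theorem rm_apply (g f : S3) : rm g f = f * g := rfl

/-- The operators on the pairs. -/
noncomputable def Qg : Fin 4 → Fin 4 → Module.End (ZMod 2) (S3 × S3) :=
  fam (fun k l => LinearMap.prodMap (D3 k l) (D3 k l))
    (fun l => LinearMap.prodMap 0 (rm (X3 l)))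
    (fun k => LinearMap.prod 0 (((rm (X3 k)).comp (fox k)).comp (LinearMap.fst (ZMod 2) S3 S3)))

theorem Qg_kl (k l : Fin 3) (q : S3 × S3) :
    Qg k.castSucc l.castSucc q = (D3 k l q.1, D3 k l q.2) := by
  unfold Qg; rw [fam_kl]; rfl

theorem Qg_l4 (l : Fin 3) (q : S3 × S3) :
    Qg (Fin.last 3) l.castSucc q = (0, q.2 * X3 l) := by
  unfold Qg; rw [fam_l4]; rfl

theorem Qg_k4 (k : Fin 3) (q : S3 × S3) :
    Qg k.castSucc (Fin.last 3) q = (0, fox k q.1 * X3 k) := by
  unfold Qg; rw [fam_k4]; rfl

theorem Qg_44 (q : S3 × S3) : Qg (Fin.last 3) (Fin.last 3) q = 0 := by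
  unfold Qg; rw [fam_44]; rfl

theorem D0_44 (f : S0) : D0 (Fin.last 3) (Fin.last 3) f = 0 := by
  have h : D0 (Fin.last 3) (Fin.last 3) = 0 := by
    refine der_ext (D0_mul _ _) (by simp) ?_
    intro i
    change D0 _ _ (X0 i) = 0
    rw [D0_X, sub_self, ite_self]
  rw [h]; rfl

theorem last_ne (k : Fin 3) : (Fin.last 3 : Fin 4) ≠ k.castSucc := (Fin.castSucc_lt_last k).ne'

theorem PP_D0 (k l : Fin 4) (f : S0) : PP (D0 k l f) = Qg k l (PP f) := by
  revert f
  refine fam_ind (p := fun k l => ∀ f, PP (D0 k l f) = Qg k l (PP f)) ?_ ?_ ?_ ?_ k l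
  · intro k l f
    rw [Qg_kl, PP_apply, PP_apply]
    refine Prod.ext (r0_D0_c k l f) ?_
    change r0 (fl (D0 _ _ f)) = D3 k l (r0 (fl f))
    have h : (r0.toLinearMap.comp fl).comp (D0 k.castSucc l.castSucc) =
        (D3 k l).comp (r0.toLinearMap.comp fl) := by
      apply lin_ext
      · change r0 (fl (D0 _ _ 1)) = D3 k l (r0 (fl 1))
        unfold D0; rw [der_one, fl_one, map_zero, map_zero, map_zero]
      · intro g i
        change r0 (fl (D0 _ _ (g * X0 i))) = D3 k l (r0 (fl (g * X0 i)))
        refine Fin.lastCases (motive := fun i => r0 (fl (D0 _ _ (g * X0 i))) =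
          D3 k l (r0 (fl (g * X0 i)))) ?_ ?_ i
        · rw [D0_mul, D0_X, if_neg (last_ne k), mul_zero, zero_add, fl_l, fl_l, r0_D0_c]
        · intro j
          rw [D0_mul, D0_X, fl_c, map_zero, map_zero, map_add, fl_c, add_zero]
          split_ifs
          · rw [mul_sub, ← mul_assoc, ← mul_assoc, map_sub, fl_c, fl_c, sub_zero, map_zero]
          · rw [mul_zero, map_zero, map_zero]
    exact DFunLike.congr_fun h f
  · intro l f
    rw [Qg_l4, PP_apply, PP_apply]
    refine Prod.ext (r0_D0_zero _ _ (Or.inl rfl) f) ?_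
    change r0 (fl (D0 _ _ f)) = r0 (fl f) * X3 l
    have h : (r0.toLinearMap.comp fl).comp (D0 (Fin.last 3) l.castSucc) =
        (rm (X3 l)).comp (r0.toLinearMap.comp fl) := by
      apply lin_ext
      · change r0 (fl (D0 _ _ 1)) = r0 (fl 1) * X3 l
        unfold D0; rw [der_one, fl_one, map_zero, map_zero, zero_mul]
      · intro g i
        change r0 (fl (D0 _ _ (g * X0 i))) = r0 (fl (g * X0 i)) * X3 l
        refine Fin.lastCases (motive := fun i => r0 (fl (D0 _ _ (g * X0 i))) =
          r0 (fl (g * X0 i)) * X3 l) ?_ ?_ i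
        · rw [D0_mul, D0_X, if_pos rfl, fl_l, map_add, fl_l, mul_sub, ← mul_assoc, ← mul_assoc,
            map_sub, fl_l, fl_c, sub_zero, map_add, r0_D0_zero _ _ (Or.inl rfl), add_zero, map_mul,
            r0_c]
        · intro j
          rw [D0_mul, D0_X, if_neg (last_ne j).symm, fl_c, map_zero, zero_mul, mul_zero, zero_add,
            fl_c, map_zero]
    exact DFunLike.congr_fun h f
  · intro k f
    rw [Qg_k4, PP_apply, PP_apply]
    refine Prod.ext (r0_D0_zero _ _ (Or.inr rfl) f) ?_
    change r0 (fl (D0 _ _ f)) = fox k (r0 f) * X3 k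
    have h : (r0.toLinearMap.comp fl).comp (D0 k.castSucc (Fin.last 3)) =
        ((rm (X3 k)).comp (fox k)).comp r0.toLinearMap := by
      apply lin_ext
      · change r0 (fl (D0 _ _ 1)) = fox k (r0 1) * X3 k
        unfold D0; rw [der_one, map_zero, map_zero, map_one, fox_one, zero_mul]
      · intro g i
        change r0 (fl (D0 _ _ (g * X0 i))) = fox k (r0 (g * X0 i)) * X3 k
        refine Fin.lastCases (motive := fun i => r0 (fl (D0 _ _ (g * X0 i))) =
          fox k (r0 (g * X0 i)) * X3 k) ?_ ?_ i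
        · rw [D0_mul, D0_X, if_neg (last_ne k), mul_zero, zero_add, fl_l, r0_D0_zero _ _ (Or.inr rfl),
            map_mul, r0_l, mul_zero, map_zero, zero_mul]
        · intro j
          have h1 : fox k (r0 g * X3 j) = if j = k then r0 g else 0 := fox_mul_X _ _ _
          have h2 : r0 (g * X0 j.castSucc) = r0 g * X3 j := by rw [map_mul, r0_c]
          rw [D0_mul, D0_X, h2, h1, map_add, fl_c, add_zero]
          by_cases hj : j = k
          · rw [if_pos hj, if_pos (congrArg _ hj), mul_sub, ← mul_assoc, ← mul_assoc, map_sub,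
              fl_c, fl_l, zero_sub, map_neg, map_mul, r0_c]
            exact ZModModule.neg_eq_self _
          · rw [if_neg hj, if_neg (fun h => hj (Fin.castSucc_injective _ h)), mul_zero, map_zero,
              map_zero, zero_mul]
    exact DFunLike.congr_fun h f
  · intro f
    rw [Qg_44, D0_44, map_zero]

/-- The space of the Fox data. -/
abbrev EF : Type := ZMod 2 × (Fin 3 → S3)

/-- The linear map attached to a Fox datum. -/
noncomputable def JJ (y : EF) (f : S0) : S3 × S3 :=
  (y.1 • r0 f, ∑ i, fox i (r0 f) * X3 i * y.2 i)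

theorem JJ_add (y y' : EF) (f : S0) : JJ (y + y') f = JJ y f + JJ y' f := by
  unfold JJ
  refine Prod.ext ?_ ?_
  · simp only [Prod.fst_add, add_smul]
  · simp only [Prod.snd_add, Pi.add_apply, mul_add, Finset.sum_add_distrib]

theorem JJ_neg (y : EF) (f : S0) : JJ (-y) f = - JJ y f := by
  unfold JJ
  refine Prod.ext ?_ ?_
  · simp only [Prod.fst_neg, neg_smul]
  · simp only [Prod.snd_neg, Pi.neg_apply, mul_neg, Finset.sum_neg_distrib]

theorem JJ_zero (f : S0) : JJ 0 f = 0 := by
  unfold JJ
  refine Prod.ext ?_ ?_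
  · simp
  · simp

theorem JJ_sub (y y' : EF) (f : S0) : JJ (y - y') f = JJ y f - JJ y' f := by
  rw [sub_eq_add_neg, JJ_add, JJ_neg, sub_eq_add_neg]

theorem JJ_add' (y : EF) (f f' : S0) : JJ y (f + f') = JJ y f + JJ y f' := by
  unfold JJ
  refine Prod.ext ?_ ?_
  · simp only [map_add, smul_add, Prod.fst_add]
  · simp only [map_add, add_mul, Finset.sum_add_distrib, Prod.snd_add]

theorem JJ_neg' (y : EF) (f : S0) : JJ y (-f) = - JJ y f := by
  unfold JJ
  refine Prod.ext ?_ ?_
  · simp only [map_neg, smul_neg, Prod.fst_neg]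
  · simp only [map_neg, neg_mul, Finset.sum_neg_distrib, Prod.snd_neg]

theorem JJ_zero' (y : EF) : JJ y 0 = 0 := by
  unfold JJ
  refine Prod.ext ?_ ?_
  · simp
  · simp

theorem JJ_sub' (y : EF) (f f' : S0) : JJ y (f - f') = JJ y f - JJ y f' := by
  rw [sub_eq_add_neg, JJ_add', JJ_neg', sub_eq_add_neg]

theorem JJ_X (y : EF) (i : Fin 3) : JJ y (X0 i.castSucc) = (y.1 • X3 i, X3 i * y.2 i) := by
  unfold JJ
  refine Prod.ext ?_ ?_
  · simp only [r0_c]
  · simp only [r0_c]
    rw [Finset.sum_eq_single i]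
    · have h1 : fox i (X3 i) = 1 := by
        have := fox_X (R := ZMod 2) i i
        rw [if_pos rfl] at this
        exact this
      rw [h1, one_mul]
    · intro b _ hb
      have h1 : fox b (X3 i) = 0 := by
        have := fox_X (R := ZMod 2) b i
        rw [if_neg (Ne.symm hb)] at this
        exact this
      rw [h1, zero_mul, zero_mul]
    · intro h; exact absurd (Finset.mem_univ i) h

/-- The operators on the Fox data. -/
noncomputable def Ag : Fin 4 → Fin 4 → Module.End (ZMod 2) EF :=
  fam (fun k l =>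
    { toFun := fun y => (0, fun i => D3 k l (y.2 i) + if i = k then X3 l * (y.2 l - y.2 k) else 0)
      map_add' := fun y y' => by
        refine Prod.ext (add_zero _).symm ?_
        funext i
        change D3 k l (y.2 i + y'.2 i) +
          (if i = k then X3 l * (y.2 l + y'.2 l - (y.2 k + y'.2 k)) else 0) =
          D3 k l (y.2 i) + (if i = k then X3 l * (y.2 l - y.2 k) else 0) +
          (D3 k l (y'.2 i) + if i = k then X3 l * (y'.2 l - y'.2 k) else 0)
        rw [map_add]
        split_ifs
        · noncomm_ring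
        · abel
      map_smul' := fun c y => by
        refine Prod.ext (smul_zero _).symm ?_
        funext i
        change D3 k l (c • y.2 i) + (if i = k then X3 l * (c • y.2 l - c • y.2 k) else 0) =
          c • (D3 k l (y.2 i) + (if i = k then X3 l * (y.2 l - y.2 k) else 0))
        rw [map_smul, smul_add]
        split_ifs
        · rw [← smul_sub, mul_smul_comm]
        · rw [smul_zero] })
    (fun l =>
    { toFun := fun y => (0, fun i => y.2 i * X3 l)
      map_add' := fun y y' => by
        refine Prod.ext (add_zero _).symm ?_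
        funext i
        exact add_mul (y.2 i) (y'.2 i) (X3 l)
      map_smul' := fun c y => by
        refine Prod.ext (smul_zero _).symm ?_
        funext i
        exact smul_mul_assoc c (y.2 i) (X3 l) })
    (fun k =>
    { toFun := fun y => (0, fun i => if i = k then algebraMap (ZMod 2) S3 y.1 else 0)
      map_add' := fun y y' => by
        refine Prod.ext (add_zero _).symm ?_
        funext i
        change (if i = k then algebraMap (ZMod 2) S3 (y.1 + y'.1) else 0) =
          (if i = k then algebraMap (ZMod 2) S3 y.1 else 0) +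
          (if i = k then algebraMap (ZMod 2) S3 y'.1 else 0)
        split_ifs
        · rw [map_add]
        · rw [add_zero]
      map_smul' := fun c y => by
        refine Prod.ext (smul_zero _).symm ?_
        funext i
        change (if i = k then algebraMap (ZMod 2) S3 (c • y.1) else 0) =
          c • (if i = k then algebraMap (ZMod 2) S3 y.1 else 0)
        split_ifs
        · rw [smul_eq_mul, map_mul, Algebra.smul_def]
        · rw [smul_zero] })

theorem Ag_kl (k l : Fin 3) (y : EF) : Ag k.castSucc l.castSucc y =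
    (0, fun i => D3 k l (y.2 i) + if i = k then X3 l * (y.2 l - y.2 k) else 0) := by
  unfold Ag; rw [fam_kl]; rfl

theorem Ag_l4 (l : Fin 3) (y : EF) : Ag (Fin.last 3) l.castSucc y =
    (0, fun i => y.2 i * X3 l) := by
  unfold Ag; rw [fam_l4]; rfl

theorem Ag_k4 (k : Fin 3) (y : EF) : Ag k.castSucc (Fin.last 3) y =
    (0, fun i => if i = k then algebraMap (ZMod 2) S3 y.1 else 0) := by
  unfold Ag; rw [fam_k4]; rfl

theorem Ag_44 (y : EF) : Ag (Fin.last 3) (Fin.last 3) y = 0 := by
  unfold Ag; rw [fam_44]; rfl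

theorem fox_D3 (k l i : Fin 3) (f : S3) : fox i (D3 k l f) = D3 k l (fox i f) +
    fox k f * ((if i = k then X3 l else 0) - (if i = l then X3 k else 0)) := by
  have h : (fox i).comp (D3 k l) = (D3 k l).comp (fox i) +
      (rm ((if i = k then X3 l else 0) - (if i = l then X3 k else 0))).comp (fox k) := by
    apply lin_ext
    · change fox i (D3 k l 1) = D3 k l (fox i 1) + fox k 1 * _
      unfold D3
      rw [der_one, fox_one, fox_one, map_zero, map_zero, zero_mul, add_zero]
    · intro g j
      change fox i (D3 k l (g * X3 j)) = D3 k l (fox i (g * X3 j)) + fox k (g * X3 j) * _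
      have h1 : ∀ (g : S3) (i j : Fin 3), fox i (g * X3 j) = if j = i then g else 0 :=
        fun g i j => fox_mul_X _ _ _
      rw [D3_mul, D3_X, map_add, h1, h1, h1]
      by_cases hj : j = k
      · subst hj
        rw [if_pos rfl, if_pos rfl, mul_sub, ← mul_assoc, ← mul_assoc, map_sub, h1, h1]
        by_cases hi : j = i
        · subst hi
          rw [if_pos rfl, if_pos rfl, if_pos rfl, if_pos rfl]
          by_cases hl : l = j
          · subst hl; simp
          · rw [if_neg hl, if_neg (Ne.symm hl)]; noncomm_ring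
        · rw [if_neg hi, if_neg hi, if_neg hi, if_neg (Ne.symm hi), map_zero]
          by_cases hl : l = i
          · subst hl; rw [if_pos rfl, if_pos rfl]; noncomm_ring
          · rw [if_neg hl, if_neg (Ne.symm hl)]; noncomm_ring
      · rw [if_neg hj, if_neg hj, mul_zero, map_zero, zero_mul, zero_add, add_zero]
        split_ifs
        · rfl
        · rw [map_zero]
  exact DFunLike.congr_fun h f

/-- The compatibility of the operators. -/
def Rel3 (A : Module.End (ZMod 2) EF) (Q : Module.End (ZMod 2) (S3 × S3))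
    (D : Module.End (ZMod 2) S0) : Prop :=
  ∀ (y : EF) (f : S0), JJ (A y) f = Q (JJ y f) - JJ y (D f)

theorem rel3_gen (k l : Fin 4) : Rel3 (Ag k l) (Qg k l) (D0 k l) := by
  refine fam_ind (p := fun k l => Rel3 (Ag k l) (Qg k l) (D0 k l)) ?_ ?_ ?_ ?_ k l
  · intro k l y f
    rw [Ag_kl, Qg_kl]
    unfold JJ
    refine Prod.ext ?_ ?_
    · change (0 : ZMod 2) • r0 f = D3 k l (y.1 • r0 f) - y.1 • r0 (D0 _ _ f)
      rw [r0_D0_c, zero_smul, map_smul, sub_self]
    · change (∑ i, fox i (r0 f) * X3 i * (D3 k l (y.2 i) + if i = k then X3 l * (y.2 l - y.2 k) else 0)) =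
        D3 k l (∑ i, fox i (r0 f) * X3 i * y.2 i) - ∑ i, fox i (r0 (D0 k.castSucc l.castSucc f)) * X3 i * y.2 i
      rw [r0_D0_c]
      simp only [fox_D3, map_sum, D3_mul, D3_X]
      fin_cases k <;> fin_cases l <;> simp [Fin.sum_univ_three] <;> noncomm_ring
  · intro l y f
    rw [Ag_l4, Qg_l4]
    unfold JJ
    refine Prod.ext ?_ ?_
    · change (0 : ZMod 2) • r0 f = 0 - y.1 • r0 (D0 _ _ f)
      rw [r0_D0_zero _ _ (Or.inl rfl), zero_smul, smul_zero, sub_zero]
    · change (∑ i, fox i (r0 f) * X3 i * (y.2 i * X3 l)) =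
        (∑ i, fox i (r0 f) * X3 i * y.2 i) * X3 l - ∑ i, fox i (r0 (D0 (Fin.last 3) l.castSucc f)) * X3 i * y.2 i
      rw [r0_D0_zero _ _ (Or.inl rfl)]
      simp only [map_zero, zero_mul, Finset.sum_const_zero, sub_zero, Finset.sum_mul, mul_assoc]
  · intro k y f
    rw [Ag_k4, Qg_k4]
    unfold JJ
    refine Prod.ext ?_ ?_
    · change (0 : ZMod 2) • r0 f = 0 - y.1 • r0 (D0 _ _ f)
      rw [r0_D0_zero _ _ (Or.inr rfl), zero_smul, smul_zero, sub_zero]
    · change (∑ i, fox i (r0 f) * X3 i * (if i = k then algebraMap (ZMod 2) S3 y.1 else 0)) =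
        fox k (y.1 • r0 f) * X3 k - ∑ i, fox i (r0 (D0 k.castSucc (Fin.last 3) f)) * X3 i * y.2 i
      rw [r0_D0_zero _ _ (Or.inr rfl)]
      simp only [map_zero, zero_mul, Finset.sum_const_zero, sub_zero, mul_ite, mul_zero]
      rw [Finset.sum_ite_eq' Finset.univ k, if_pos (Finset.mem_univ k), map_smul, smul_mul_assoc,
        Algebra.smul_def, Algebra.commutes]
  · intro y f
    rw [Ag_44, Qg_44, D0_44, JJ_zero, JJ_zero', sub_zero]

end Pool.Agent.Helper90.QP
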