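import Mathlib
import Pool.Agent.Helper90.QP.Comp

/-!
The compatibility of the operators for all the elements of the free Lie ring.
-/

namespace Pool.Agent.Helper90.QP

open BurnLie Q28.FreeLieV

/-- The operator on the pairs attached to an element of the free Lie ring. -/
noncomputable def QL : FLie (Grd GG 0) →ₗ⁅ℤ⁆ Module.End (ZMod 2) (S3 × S3) := lft Qg

/-- The operator on the Fox data attached to an element of the free Lie ring. -/
noncomputable def AL : FLie (Grd GG 0) →ₗ⁅ℤ⁆ Module.End (ZMod 2) EF := lft Ag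

theorem PP_DL0 (z : FLie (Grd GG 0)) (f : S0) : PP (DL0 z f) = QL z (PP f) := by
  revert f
  refine lft_ind3 (F1 := D0) (F2 := Qg) (F3 := Qg)
    (p := fun D Q _ => ∀ f, PP (D f) = Q (PP f)) ?_ ?_ ?_ ?_ ?_ z
  · intro f; simp
  · intro D Q _ D' Q' _ h h' f
    rw [LinearMap.add_apply, LinearMap.add_apply, map_add, h, h']
  · intro D Q _ h f
    rw [LinearMap.neg_apply, LinearMap.neg_apply, map_neg, h]
  · intro D Q _ D' Q' _ h h' f
    rw [end_lie, end_lie, map_sub, h, h', h', h]
  · intro k l f; exact PP_D0 k l f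

theorem rel3 (z : FLie (Grd GG 0)) : Rel3 (AL z) (QL z) (DL0 z) := by
  refine lft_ind3 (F1 := Ag) (F2 := Qg) (F3 := D0) (p := Rel3) ?_ ?_ ?_ ?_ ?_ z
  · intro y f
    rw [LinearMap.zero_apply, LinearMap.zero_apply, LinearMap.zero_apply, JJ_zero, JJ_zero',
      sub_zero]
  · intro A Q D A' Q' D' h h' y f
    rw [LinearMap.add_apply, LinearMap.add_apply, LinearMap.add_apply, JJ_add, JJ_add', h, h']
    abel
  · intro A Q D h y f
    rw [LinearMap.neg_apply, LinearMap.neg_apply, LinearMap.neg_apply, JJ_neg, JJ_neg', h]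
    abel
  · intro A Q D A' Q' D' h h' y f
    rw [end_lie, end_lie, end_lie, JJ_sub, JJ_sub', h (A' y) f, h' y f, h' y (D f),
      h' (A y) f, h y f, h y (D' f), map_sub, map_sub]
    abel
  · exact rel3_gen

theorem AL_fst (z : FLie (Grd GG 0)) (y : EF) : (AL z y).1 = 0 := by
  revert y
  refine lft_ind3 (F1 := Ag) (F2 := Ag) (F3 := Ag) (p := fun A _ _ => ∀ y, (A y).1 = 0)
    ?_ ?_ ?_ ?_ ?_ z
  · intro y; rfl
  · intro A _ _ A' _ _ h h' y
    rw [LinearMap.add_apply, Prod.fst_add, h, h', add_zero]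
  · intro A _ _ h y
    rw [LinearMap.neg_apply, Prod.fst_neg, h, neg_zero]
  · intro A _ _ A' _ _ h h' y
    rw [end_lie, Prod.fst_sub, h, h', sub_zero]
  · intro k l
    refine fam_ind (p := fun k l => ∀ y, (Ag k l y).1 = 0) ?_ ?_ ?_ ?_ k l
    · intro k l y; rw [Ag_kl]
    · intro l y; rw [Ag_l4]
    · intro k y; rw [Ag_k4]
    · intro y; rw [Ag_44]; rfl

/-- The value of the derivation is read from the Fox data. -/
theorem read_AL (z : FLie (Grd GG 0)) (i : Fin 3) :
    X3 i * (AL z (1, 0)).2 i = r0 (fl (DL0 z (X0 i.castSucc))) := by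
  have h1 := rel3 z (1, 0) (X0 i.castSucc)
  have h2 : JJ (1, 0) (X0 i.castSucc) = PP (X0 i.castSucc) := by
    rw [JJ_X, PP_apply]
    have h3 : fl (X0 i.castSucc) = 0 := by
      have := fl_c 1 i
      rwa [one_mul] at this
    rw [h3, r0_c, map_zero]
    refine Prod.ext (one_smul _ _) ?_
    exact mul_zero _
  rw [h2, ← PP_DL0, JJ_X] at h1
  have h4 := congrArg Prod.snd h1
  change X3 i * (AL z (1, 0)).2 i = (PP (DL0 z (X0 i.castSucc))).2 -
    ∑ j, fox j (r0 (DL0 z (X0 i.castSucc))) * X3 j * (0 : Fin 3 → S3) j at h4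
  rw [h4, PP_apply]
  simp

/-- If the derivation vanishes, then so does the operator on the Fox data. -/
theorem AL_zero {z : FLie (Grd GG 0)} (h : DL0 z = 0) : AL z = 0 := by
  have hQ : QL z = 0 := by
    refine LinearMap.ext fun q => ?_
    obtain ⟨f, rfl⟩ := PP_surj q
    rw [← PP_DL0, h, LinearMap.zero_apply, map_zero, LinearMap.zero_apply]
  refine LinearMap.ext fun y => ?_
  rw [LinearMap.zero_apply]
  refine Prod.ext (AL_fst z y) ?_
  funext i
  have h1 := rel3 z y (X0 i.castSucc)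
  rw [hQ, h, LinearMap.zero_apply, LinearMap.zero_apply, JJ_zero', sub_zero, JJ_X] at h1
  have h2 : X3 i * (AL z y).2 i = 0 := congrArg Prod.snd h1
  have h3 := congrArg (lfox i) h2
  unfold X3 at h3
  rw [lfox_X_mul, if_pos rfl, map_zero] at h3
  exact h3

end Pool.Agent.Helper90.QP
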