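import Mathlib

/-!
Square matrices over the field with two elements, packed in natural numbers.
-/

namespace Pool.Agent.Helper90.QP

/-- Evaluates its argument before it is used. -/
def force {α : Type} (n : ℕ) (f : ℕ → α) : α :=
  match n with
  | 0 => f 0
  | m + 1 => f (m + 1)

theorem force_eq {α : Type} (n : ℕ) (f : ℕ → α) : force n f = f n := by
  cases n <;> rfl

/-- The number with the digits `1` at the multiples of `w`. -/
def colN (w : ℕ) : ℕ → ℕ
  | 0 => 0
  | m + 1 => 2 ^ w * colN w m + 1

theorem colN_succ (w m : ℕ) : colN w (m + 1) = 2 ^ w * colN w m + 1 := rfl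

/-- The product of packed matrices, with fuel. -/
def mulAux (w col row : ℕ) : ℕ → ℕ → ℕ → ℕ → ℕ
  | 0, _, _, acc => acc
  | k + 1, a, b, acc =>
    force (acc ^^^ ((a &&& col) * (b &&& row))) fun acc' =>
    force (a >>> 1) fun a' => force (b >>> w) fun b' => mulAux w col row k a' b' acc'

/-- The scalar attached to a digit. -/
def bz (x : Bool) : ZMod 2 := if x then 1 else 0

theorem bz_xor (x y : Bool) : bz (x ^^ y) = bz x + bz y := by
  cases x <;> cases y <;> decide

theorem bz_and (x y : Bool) : bz (x && y) = bz x * bz y := by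
  cases x <;> cases y <;> decide

theorem mod_lt_pow (w : ℕ) (hw : 0 < w) (a : ℕ) : a % 2 < 2 ^ w := by
  calc a % 2 < 2 := Nat.mod_lt _ (by norm_num)
    _ = 2 ^ 1 := by norm_num
    _ ≤ 2 ^ w := Nat.pow_le_pow_right (by norm_num) hw

theorem and_col (w : ℕ) (hw : 0 < w) (m a : ℕ) :
    a &&& colN w (m + 1) = 2 ^ w * ((a >>> w) &&& colN w m) + a % 2 := by
  have h1 := mod_lt_pow w hw a
  have h2 : 1 < 2 ^ w := mod_lt_pow w hw 1
  apply Nat.eq_of_testBit_eq
  intro i
  rw [Nat.testBit_and, colN_succ, Nat.testBit_two_pow_mul_add _ h2,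
    Nat.testBit_two_pow_mul_add _ h1, Nat.testBit_and, Nat.testBit_shiftRight]
  by_cases hi : i < w
  · rw [if_pos hi, if_pos hi]
    rcases Nat.eq_zero_or_pos i with h | h
    · subst h
      simp [Nat.testBit_zero]
    · have h3 : (1 : ℕ).testBit i = false := Nat.testBit_lt_two_pow (mod_lt_pow i h 1)
      have h4 : (a % 2).testBit i = false := Nat.testBit_lt_two_pow (mod_lt_pow i h a)
      rw [h3, h4, Bool.and_false]
  · rw [if_neg hi, if_neg hi]
    congr 2
    omega

theorem col_mul (w : ℕ) (hw : 0 < w) {r : ℕ} (hr : r < 2 ^ w) {j : ℕ} (hj : j < w) :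
    ∀ (m a i : ℕ), i < m →
      ((a &&& colN w m) * r).testBit (w * i + j) = (a.testBit (w * i) && r.testBit j) := by
  intro m
  induction m with
  | zero => intro a i hi; exact absurd hi (Nat.not_lt_zero _)
  | succ m ih =>
    intro a i hi
    rw [and_col w hw]
    have h1 : a % 2 * r < 2 ^ w := by
      rcases Nat.mod_two_eq_zero_or_one a with h | h
      · rw [h, zero_mul]; exact Nat.two_pow_pos w
      · rw [h, one_mul]; exact hr
    rw [add_mul, mul_assoc, Nat.testBit_two_pow_mul_add _ h1]
    cases i with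
    | zero =>
      rw [mul_zero, zero_add, if_pos hj, Nat.testBit_zero]
      rcases Nat.mod_two_eq_zero_or_one a with h | h
      · rw [h, zero_mul]; simp
      · rw [h, one_mul]; simp
    | succ i =>
      have h2 : ¬ (w * (i + 1) + j < w) := by
        rw [mul_add, mul_one]; omega
      rw [if_neg h2]
      have h3 : w * (i + 1) + j - w = w * i + j := by rw [mul_add, mul_one]; omega
      rw [h3, ih _ _ (by omega), Nat.testBit_shiftRight]
      congr 2
      ring

theorem mulAux_testBit (w m : ℕ) (hw : 0 < w) {i j : ℕ} (hi : i < m) (hj : j < w) :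
    ∀ (k a b acc : ℕ), bz ((mulAux w (colN w m) (2 ^ w - 1) k a b acc).testBit (w * i + j)) =
      bz (acc.testBit (w * i + j)) +
        ∑ k' ∈ Finset.range k, bz (a.testBit (w * i + k')) * bz (b.testBit (w * k' + j)) := by
  intro k
  induction k with
  | zero => intro a b acc; simp [mulAux]
  | succ k ih =>
    intro a b acc
    unfold mulAux
    rw [force_eq, force_eq, force_eq, ih, Nat.testBit_xor, bz_xor, Finset.sum_range_succ']
    have h1 : b &&& (2 ^ w - 1) < 2 ^ w :=
      lt_of_le_of_lt Nat.and_le_right (Nat.sub_lt (Nat.two_pow_pos w) (by norm_num))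
    rw [col_mul w hw h1 hj m a i hi, bz_and]
    have h2 : (b &&& (2 ^ w - 1)).testBit j = b.testBit j := by
      rw [Nat.testBit_and, Nat.testBit_two_pow_sub_one, decide_eq_true hj, Bool.and_true]
    rw [h2, add_zero, mul_zero, zero_add]
    have h3 : ∀ k', (a >>> 1).testBit (w * i + k') = a.testBit (w * i + (k' + 1)) := by
      intro k'
      rw [Nat.testBit_shiftRight]
      congr 1
      ring
    have h4 : ∀ k', (b >>> w).testBit (w * k' + j) = b.testBit (w * (k' + 1) + j) := by
      intro k'
      rw [Nat.testBit_shiftRight]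
      congr 1
      ring
    simp only [h3, h4]
    ring

/-- The square matrix with the given packed entries. -/
def mat (n a : ℕ) : Matrix (Fin n) (Fin n) (ZMod 2) :=
  Matrix.of fun i j => bz (a.testBit (n * i + j))

theorem mat_apply (n a : ℕ) (i j : Fin n) : mat n a i j = bz (a.testBit (n * i + j)) := rfl

theorem mat_zero (n : ℕ) : mat n 0 = 0 := by
  ext i j
  rw [mat_apply, Nat.zero_testBit]; rfl

theorem mat_xor (n a b : ℕ) : mat n (a ^^^ b) = mat n a + mat n b := by
  ext i j
  rw [Matrix.add_apply, mat_apply, mat_apply, mat_apply, Nat.testBit_xor, bz_xor]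

/-- The product of packed matrices. -/
def mulN (n a b : ℕ) : ℕ := mulAux n (colN n n) (2 ^ n - 1) n a b 0

theorem mat_mulN (n : ℕ) (hn : 0 < n) (a b : ℕ) : mat n (mulN n a b) = mat n a * mat n b := by
  ext i j
  rw [mat_apply, Matrix.mul_apply]
  unfold mulN
  rw [mulAux_testBit n n hn i.2 j.2, Nat.zero_testBit]
  rw [Finset.sum_range]
  simp only [mat_apply]
  have : bz false = 0 := rfl
  rw [this, zero_add]

end Pool.Agent.Helper90.QP
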