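import Mathlib
import Pool.Agent.Helper90.QP.NatMat

/-!
The matrices over the field with two elements which define the detecting Lie algebra.
-/

namespace Pool.Agent.Helper90.QP

/-- Packed matrices. -/
def rN : Fin 3 → ℕ
  | 0 => 2923008849858739313311882665697049866997921219072
  | 1 => 16423602559197257238896294312578984964689895713915683749584762098224753132901478286441316360
  | 2 => 33374861093759897527461138302000566336425193543127511545011826590527614033641262363278179303424

/-- Packed matrices. -/
def rtN : Fin 3 → ℕ
  | 0 => 33374861093759897527461138302000566336425193543127511545011826590527614033641262363278179303424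
  | 1 => 124330809102474930145801909520279822375921456206965691818302005098787756291002407583744
  | 2 => 2923008849858739313311882665697049866997921219072

/-- Packed matrices. -/
def dN : Fin 3 → Fin 3 → ℕ
  | 0, 0 => 0
  | 0, 1 => 267015312367208421958718853997230419343603331534637682763876575847246719879837340842593534083080
  | 0, 2 => 4305357081079485400261849624423858433054478444130009142434512551692013049113797862110617615204352
  | 1, 0 => 248662092489347379789613447583463772708227408186588711795095683440591822775101889183872
  | 1, 1 => 0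
  | 1, 2 => 4271982219985725502734388486121857866718053250586881630889500725101485435080156599747339435900928
  | 2, 0 => 248662092489347379789613447583463772711150417036447451108407566106288872642099810402944
  | 2, 1 => 266998888764649224701479957702917840358638641638923767080126991085148495126704439364307092766720
  | 2, 2 => 0

/-- Packed matrices. -/
def dtN : Fin 3 → Fin 3 → ℕ
  | 0, 0 => 0
  | 0, 1 => 124330809103379557568457685240935323914526647291540192673761675555512650505748809252864
  | 0, 2 => 248662092489290837124827579020165015638821651242389871574202369612811479948571969585664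
  | 1, 0 => 4405481664368050100263741042596847063695678234441762299913207087566280165720614547500803037331456
  | 1, 1 => 0
  | 1, 2 => 248662092489290837124827579020165015635898642392531132260890486947114430081574048366592
  | 2, 0 => 4438856525461809997791202180898847630032103427984889811458218914156807779754255809864081216634880
  | 2, 1 => 904627422655775720655501538605191084574500855459670456724894214746401669120
  | 2, 2 => 0

/-- Packed matrices. -/
def tN : Fin 3 → Fin 3 → ℕ
  | 0, 0 => 0
  | 0, 1 => 4608
  | 0, 2 => 16384
  | 1, 0 => 2064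
  | 1, 1 => 0
  | 1, 2 => 16384
  | 2, 0 => 2064
  | 2, 1 => 4608
  | 2, 2 => 0

/-- Packed matrices. -/
def cN : Fin 4 → ℕ
  | 0 => 35184640526336
  | 1 => 2417870085973333132713984
  | 2 => 348449309881808110302388532008231593082880
  | 3 => 11418068653933610808712934379495463640904105984

/-- Packed matrices. -/
def bN : Fin 4 → ℕ
  | 0 => 401737576079213326860501686470603908572378514273622137243648
  | 1 => 27607196011745604524170282317063513804210326713057528468016895801434112
  | 2 => 3978587788430357212599748302723155836401203098328006988845556917706167630682584170659840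
  | 3 => 130371297131879929094464834822696496145135103926849984104538140543855400860353773217817690112

/-- Packed vectors. -/
def eN : Fin 3 → ℕ
  | 0 => 512
  | 1 => 16512
  | 2 => 17024

/-- The right action of the generators. -/
def RM (j : Fin 3) : Matrix (Fin 18) (Fin 18) (ZMod 2) := mat 18 (rN j)

/-- The derivations. -/
def DM (k l : Fin 3) : Matrix (Fin 18) (Fin 18) (ZMod 2) := mat 18 (dN k l)

/-- The derivations on the centre. -/
def TM (k l : Fin 3) : Matrix (Fin 4) (Fin 4) (ZMod 2) := mat 4 (tN k l)

/-- The halves of the bilinear forms. -/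
def CM (a : Fin 4) : Matrix (Fin 18) (Fin 18) (ZMod 2) := mat 18 (cN a)

/-- The bilinear forms. -/
def BM (a : Fin 4) : Matrix (Fin 18) (Fin 18) (ZMod 2) := CM a + (CM a).transpose

/-- The row with the given digits. -/
def vec (v : ℕ) : Fin 18 → ZMod 2 := fun j => bz (v.testBit j)

/-- The generators of the module. -/
def EM (i : Fin 3) : Fin 18 → ZMod 2 := vec (eN i)

theorem chk1 : ∀ k l j : Fin 3, mulN 18 (rN j) (dN k l) ^^^ mulN 18 (dN k l) (rN j) =
    if j = k then mulN 18 (rN l) (rN k) ^^^ mulN 18 (rN k) (rN l) else 0 := by
  decide +kernel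

theorem chkRT : ∀ l : Fin 3, ∀ i j : Fin 18, (rtN l).testBit (18 * i + j) = (rN l).testBit (18 * j + i) := by
  decide +kernel

theorem chkDT : ∀ k l : Fin 3, ∀ i j : Fin 18, (dtN k l).testBit (18 * i + j) = (dN k l).testBit (18 * j + i) := by
  decide +kernel

theorem chkB : ∀ a : Fin 4, ∀ i j : Fin 18, (bN a).testBit (18 * i + j) =
    ((cN a).testBit (18 * i + j) ^^ (cN a).testBit (18 * j + i)) := by
  decide +kernel

/-- The combination of the forms. -/
def tsum (t : ℕ) (a : Fin 4) : ℕ :=
  (((if t.testBit (4 * 0 + a) then bN 0 else 0) ^^^ (if t.testBit (4 * 1 + a) then bN 1 else 0)) ^^^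
    (if t.testBit (4 * 2 + a) then bN 2 else 0)) ^^^ (if t.testBit (4 * 3 + a) then bN 3 else 0)

theorem chk2 : ∀ k l : Fin 3, ∀ a : Fin 4,
    mulN 18 (dN k l) (bN a) ^^^ mulN 18 (bN a) (dtN k l) = tsum (tN k l) a := by
  decide +kernel

theorem chk3 : ∀ l : Fin 3, ∀ a : Fin 4,
    mulN 18 (rN l) (bN a) ^^^ mulN 18 (bN a) (rtN l) = 0 := by
  decide +kernel

theorem chk4 : ∀ k l i : Fin 3, mulN 18 (eN i) (dN k l) =
    if k = l then 0 else if i = k ∨ i = l then mulN 18 (eN k) (rN l) else 0 := by
  decide +kernel

theorem eN_lt : ∀ i : Fin 3, eN i < 2 ^ 18 := by decide +kernel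

theorem neg_mat {m n : Type} (A : Matrix m n (ZMod 2)) : -A = A := by
  ext i j
  exact ZModModule.neg_eq_self _

theorem sub_mat {m n : Type} (A B : Matrix m n (ZMod 2)) : A - B = A + B := by
  rw [sub_eq_add_neg, neg_mat]

theorem DM_self (k : Fin 3) : DM k k = 0 := by
  have : dN k k = 0 := by revert k; decide
  unfold DM; rw [this, mat_zero]

theorem comm_RD (k l j : Fin 3) : RM j * DM k l - DM k l * RM j =
    if j = k then RM l * RM k - RM k * RM l else 0 := by
  unfold RM DM
  rw [sub_mat, ← mat_mulN 18 (by norm_num), ← mat_mulN 18 (by norm_num), ← mat_xor, chk1]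
  split_ifs
  · rw [sub_mat, ← mat_mulN 18 (by norm_num), ← mat_mulN 18 (by norm_num), ← mat_xor]
  · exact mat_zero _

theorem BM_eq (a : Fin 4) : BM a = mat 18 (bN a) := by
  ext i j
  unfold BM CM
  rw [Matrix.add_apply, Matrix.transpose_apply, mat_apply, mat_apply, mat_apply, ← bz_xor, chkB]

theorem DMT (k l : Fin 3) : (DM k l).transpose = mat 18 (dtN k l) := by
  ext i j
  unfold DM
  rw [Matrix.transpose_apply, mat_apply, mat_apply, chkDT]

theorem RMT (l : Fin 3) : (RM l).transpose = mat 18 (rtN l) := by
  ext i j
  unfold RM
  rw [Matrix.transpose_apply, mat_apply, mat_apply, chkRT]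

theorem bz_smul_mat (n : ℕ) (x : Bool) (a : ℕ) : bz x • mat n a = mat n (if x then a else 0) := by
  cases x
  · have : bz false = 0 := rfl
    rw [this, zero_smul, if_neg (by simp), mat_zero]
  · have : bz true = 1 := rfl
    rw [this, one_smul, if_pos rfl]

theorem form_D (k l : Fin 3) (a : Fin 4) :
    DM k l * BM a + BM a * (DM k l).transpose = ∑ c, TM k l c a • BM c := by
  rw [DMT, BM_eq]
  unfold DM
  rw [← mat_mulN 18 (by norm_num), ← mat_mulN 18 (by norm_num), ← mat_xor, chk2, Fin.sum_univ_four]
  unfold tsum
  rw [mat_xor, mat_xor, mat_xor, ← bz_smul_mat, ← bz_smul_mat, ← bz_smul_mat, ← bz_smul_mat,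
    BM_eq, BM_eq, BM_eq, BM_eq]
  rfl

theorem form_R (l : Fin 3) (a : Fin 4) :
    RM l * BM a + BM a * (RM l).transpose = 0 := by
  rw [RMT, BM_eq]
  unfold RM
  rw [← mat_mulN 18 (by norm_num), ← mat_mulN 18 (by norm_num), ← mat_xor, chk3, mat_zero]

theorem vec_zero : vec 0 = 0 := by
  funext j; unfold vec; rw [Nat.zero_testBit]; rfl

theorem vec_xor (v w : ℕ) : vec (v ^^^ w) = vec v + vec w := by
  funext j; unfold vec; rw [Nat.testBit_xor, bz_xor]; rfl

theorem vec_mul (v r : ℕ) : vec (mulN 18 v r) = Matrix.vecMul (vec v) (mat 18 r) := by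
  funext j
  have h := congrFun (congrFun (mat_mulN 18 (by norm_num) v r) 0) j
  rw [mat_apply, Matrix.mul_apply] at h
  simp only [mat_apply] at h
  unfold vec Matrix.vecMul dotProduct
  simp only [mat_apply]
  simpa using h

theorem EM_D (k l i : Fin 3) : Matrix.vecMul (EM i) (DM k l) =
    if k = l then 0 else if i = k ∨ i = l then Matrix.vecMul (EM k) (RM l) else 0 := by
  unfold EM DM RM
  rw [← vec_mul, ← vec_mul, chk4]
  split_ifs
  · exact vec_zero
  · rfl
  · exact vec_zero

end Pool.Agent.Helper90.QP
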