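import Mathlib
import Pool.Agent.Helper90.QP.MData

/-!
The detecting Lie algebra.
-/

namespace Pool.Agent.Helper90.QP

open Matrix

/-- The underlying space of the Heisenberg algebra. -/
def HH : Type := (Fin 18 → ZMod 2) × (Fin 4 → ZMod 2)

instance : AddCommGroup HH := inferInstanceAs (AddCommGroup ((Fin 18 → ZMod 2) × (Fin 4 → ZMod 2)))
instance : Module (ZMod 2) HH :=
  inferInstanceAs (Module (ZMod 2) ((Fin 18 → ZMod 2) × (Fin 4 → ZMod 2)))

theorem HH_add1 (x y : HH) : (x + y).1 = x.1 + y.1 := rfl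
theorem HH_add2 (x y : HH) : (x + y).2 = x.2 + y.2 := rfl
theorem HH_neg1 (x : HH) : (-x).1 = -x.1 := rfl
theorem HH_neg2 (x : HH) : (-x).2 = -x.2 := rfl
theorem HH_sub1 (x y : HH) : (x - y).1 = x.1 - y.1 := rfl
theorem HH_sub2 (x y : HH) : (x - y).2 = x.2 - y.2 := rfl
theorem HH_smul1 (c : ZMod 2) (x : HH) : (c • x).1 = c • x.1 := rfl
theorem HH_smul2 (c : ZMod 2) (x : HH) : (c • x).2 = c • x.2 := rfl
theorem HH_zero1 : (0 : HH).1 = 0 := rfl
theorem HH_zero2 : (0 : HH).2 = 0 := rfl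
theorem HH_ext {x y : HH} (h1 : x.1 = y.1) (h2 : x.2 = y.2) : x = y := Prod.ext h1 h2

/-- The alternating form. -/
def beta (x y : Fin 18 → ZMod 2) : Fin 4 → ZMod 2 := fun a => x ⬝ᵥ (BM a *ᵥ y)

theorem beta_add_left (x x' y : Fin 18 → ZMod 2) : beta (x + x') y = beta x y + beta x' y := by
  funext a; exact add_dotProduct _ _ _

theorem beta_add_right (x y y' : Fin 18 → ZMod 2) : beta x (y + y') = beta x y + beta x y' := by
  funext a
  change x ⬝ᵥ (BM a *ᵥ (y + y')) = x ⬝ᵥ (BM a *ᵥ y) + x ⬝ᵥ (BM a *ᵥ y')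
  rw [mulVec_add, dotProduct_add]

theorem beta_smul_right (c : ZMod 2) (x y : Fin 18 → ZMod 2) : beta x (c • y) = c • beta x y := by
  funext a
  change x ⬝ᵥ (BM a *ᵥ (c • y)) = c • (x ⬝ᵥ (BM a *ᵥ y))
  rw [mulVec_smul, dotProduct_smul]

theorem beta_smul_left (c : ZMod 2) (x y : Fin 18 → ZMod 2) : beta (c • x) y = c • beta x y := by
  funext a
  exact smul_dotProduct _ _ _

theorem beta_zero_left (y : Fin 18 → ZMod 2) : beta 0 y = 0 := by
  funext a; exact zero_dotProduct _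

theorem beta_zero_right (x : Fin 18 → ZMod 2) : beta x 0 = 0 := by
  funext a
  change x ⬝ᵥ (BM a *ᵥ 0) = 0
  rw [mulVec_zero, dotProduct_zero]

theorem beta_self (x : Fin 18 → ZMod 2) : beta x x = 0 := by
  funext a
  change x ⬝ᵥ ((CM a + (CM a).transpose) *ᵥ x) = 0
  rw [add_mulVec, dotProduct_add, mulVec_transpose, dotProduct_mulVec, dotProduct_comm x (x ᵥ* CM a)]
  exact CharTwo.add_self_eq_zero _

/-- The derivation property of the form. -/
theorem beta_der {D : Matrix (Fin 18) (Fin 18) (ZMod 2)} {T : Matrix (Fin 4) (Fin 4) (ZMod 2)}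
    (h : ∀ a, D * BM a + BM a * D.transpose = ∑ c, T c a • BM c) (x y : Fin 18 → ZMod 2) :
    beta (x ᵥ* D) y + beta x (y ᵥ* D) = beta x y ᵥ* T := by
  funext a
  change (x ᵥ* D) ⬝ᵥ (BM a *ᵥ y) + x ⬝ᵥ (BM a *ᵥ (y ᵥ* D)) = ∑ c, (x ⬝ᵥ (BM c *ᵥ y)) * T c a
  rw [← dotProduct_mulVec, ← mulVec_transpose, mulVec_mulVec, mulVec_mulVec, ← dotProduct_add,
    ← add_mulVec, h a]
  have h1 : ∀ c, (x ⬝ᵥ (BM c *ᵥ y)) * T c a = x ⬝ᵥ ((T c a • BM c) *ᵥ y) := by
    intro c
    rw [smul_mulVec, dotProduct_smul, smul_eq_mul, mul_comm]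
  simp only [h1]
  rw [← dotProduct_sum, sum_mulVec]

instance : Bracket HH HH := ⟨fun x y => (0, beta x.1 y.1)⟩

theorem HH_lie1 (x y : HH) : (⁅x, y⁆ : HH).1 = 0 := rfl
theorem HH_lie2 (x y : HH) : (⁅x, y⁆ : HH).2 = beta x.1 y.1 := rfl

instance : LieRing HH where
  add_lie x y z := by
    refine HH_ext ?_ ?_
    · rw [HH_lie1, HH_add1, HH_lie1, HH_lie1, add_zero]
    · rw [HH_lie2, HH_add1, HH_add2, HH_lie2, HH_lie2, beta_add_left]
  lie_add x y z := by
    refine HH_ext ?_ ?_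
    · rw [HH_lie1, HH_add1, HH_lie1, HH_lie1, add_zero]
    · rw [HH_lie2, HH_add1, HH_add2, HH_lie2, HH_lie2, beta_add_right]
  lie_self x := HH_ext rfl (beta_self _)
  leibniz_lie x y z := by
    refine HH_ext ?_ ?_
    · rw [HH_lie1, HH_add1, HH_lie1, HH_lie1, add_zero]
    · rw [HH_lie2, HH_add2, HH_lie2, HH_lie2, HH_lie1, HH_lie1, HH_lie1, beta_zero_right,
        beta_zero_left, beta_zero_right, add_zero]

instance : LieAlgebra (ZMod 2) HH where
  lie_smul c x y := by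
    refine HH_ext ?_ ?_
    · rw [HH_smul1, HH_lie1, HH_lie1, smul_zero]
    · rw [HH_smul2, HH_lie2, HH_lie2, HH_smul1, beta_smul_right]

/-- The derivations of the Heisenberg algebra. -/
abbrev DH : Type := LieDerivation (ZMod 2) HH HH

/-- The derivation given by a pair of matrices. -/
def mkD (D : Matrix (Fin 18) (Fin 18) (ZMod 2)) (T : Matrix (Fin 4) (Fin 4) (ZMod 2))
    (h : ∀ a, D * BM a + BM a * D.transpose = ∑ c, T c a • BM c) : DH where
  toFun x := (x.1 ᵥ* D, x.2 ᵥ* T)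
  map_add' x y := by
    refine HH_ext ?_ ?_
    · change (x.1 + y.1) ᵥ* D = x.1 ᵥ* D + y.1 ᵥ* D
      rw [add_vecMul]
    · change (x.2 + y.2) ᵥ* T = x.2 ᵥ* T + y.2 ᵥ* T
      rw [add_vecMul]
  map_smul' c x := by
    refine HH_ext ?_ ?_
    · change (c • x.1) ᵥ* D = c • (x.1 ᵥ* D)
      rw [smul_vecMul]
    · change (c • x.2) ᵥ* T = c • (x.2 ᵥ* T)
      rw [smul_vecMul]
  leibniz' x y := by
    refine HH_ext ?_ ?_
    · change (0 : Fin 18 → ZMod 2) ᵥ* D = 0 - 0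
      rw [zero_vecMul, sub_zero]
    · change beta x.1 y.1 ᵥ* T = beta x.1 (y.1 ᵥ* D) - beta y.1 (x.1 ᵥ* D)
      rw [← beta_der h]
      have h1 : beta (x.1 ᵥ* D) y.1 = - beta y.1 (x.1 ᵥ* D) := by
        have h2 := beta_self (x.1 ᵥ* D + y.1)
        rw [beta_add_left, beta_add_right, beta_add_right, beta_self, beta_self, zero_add,
          add_zero] at h2
        exact eq_neg_of_add_eq_zero_left h2
      rw [h1]; abel

theorem mkD_apply (D : Matrix (Fin 18) (Fin 18) (ZMod 2)) (T : Matrix (Fin 4) (Fin 4) (ZMod 2))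
    (h : ∀ a, D * BM a + BM a * D.transpose = ∑ c, T c a • BM c) (x : HH) :
    mkD D T h x = (x.1 ᵥ* D, x.2 ᵥ* T) := rfl

/-- The detecting Lie algebra: the semidirect sum of the Heisenberg algebra and its
derivations. -/
abbrev MM : Type := LieAlgebra.SemiDirectSum HH DH (LieHom.id : DH →ₗ⁅ZMod 2⁆ DH)

theorem MM_left (x y : MM) : (⁅x, y⁆ : MM).left = ⁅x.left, y.left⁆ + x.right y.left - y.right x.left :=
  rfl

theorem MM_right (x y : MM) (h : HH) :
    (⁅x, y⁆ : MM).right h = x.right (y.right h) - y.right (x.right h) := rfl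

end Pool.Agent.Helper90.QP
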