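import Mathlib
import Pool.Agent.Helper90.QP.MLie
import Pool.Agent.Helper90.QP.Comp2

/-!
The homomorphism to the detecting Lie algebra kills the relations of degree two.
-/

namespace Pool.Agent.Helper90.QP

open Matrix BurnLie Q28.FreeLieV

attribute [local irreducible] RM DM TM BM EM

/-- The right action of the free algebra on the module. -/
noncomputable def rho : S3 →ₐ[ZMod 2] Matrix (Fin 18) (Fin 18) (ZMod 2) :=
  FreeAlgebra.lift (ZMod 2) RM

theorem rho_X (j : Fin 3) : rho (X3 j) = RM j := FreeAlgebra.lift_ι_apply _ _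

theorem rho_D3 (k l : Fin 3) (w : S3) : rho (D3 k l w) = rho w * DM k l - DM k l * rho w := by
  have h : rho.toLinearMap.comp (D3 k l) =
      (LinearMap.mulRight (ZMod 2) (DM k l) - LinearMap.mulLeft (ZMod 2) (DM k l)).comp
        rho.toLinearMap := by
    refine td_ext (α := rho) (σ := rho) ?_ ?_ ?_
    · intro f g
      change rho (D3 k l (f * g)) = rho f * rho (D3 k l g) + rho (D3 k l f) * rho g
      rw [D3_mul, map_add, map_mul, map_mul]
    · intro f g
      change rho (f * g) * DM k l - DM k l * rho (f * g) =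
        rho f * (rho g * DM k l - DM k l * rho g) + (rho f * DM k l - DM k l * rho f) * rho g
      rw [map_mul]; noncomm_ring
    · intro i
      change rho (D3 k l (X3 i)) = rho (X3 i) * DM k l - DM k l * rho (X3 i)
      rw [rho_X, comm_RD, D3_X]
      split_ifs
      · rw [map_sub, map_mul, map_mul, rho_X, rho_X]
      · rw [map_zero]
  exact DFunLike.congr_fun h w

/-- The affine space. -/
abbrev AF : Type := ZMod 2 × (Fin 18 → ZMod 2)

/-- The projection of the Fox data. -/
noncomputable def pr (y : EF) : AF := (y.1, ∑ i, EM i ᵥ* rho (y.2 i))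

theorem pr_add (y y' : EF) : pr (y + y') = pr y + pr y' := by
  refine Prod.ext rfl ?_
  change (∑ i, EM i ᵥ* rho (y.2 i + y'.2 i)) = (∑ i, EM i ᵥ* rho (y.2 i)) + ∑ i, EM i ᵥ* rho (y'.2 i)
  simp only [map_add, vecMul_add, Finset.sum_add_distrib]

theorem pr_neg (y : EF) : pr (-y) = - pr y := by
  refine Prod.ext rfl ?_
  change (∑ i, EM i ᵥ* rho (-y.2 i)) = -(∑ i, EM i ᵥ* rho (y.2 i))
  simp only [map_neg, vecMul_neg, Finset.sum_neg_distrib]

theorem pr_zero : pr 0 = 0 := by
  refine Prod.ext rfl ?_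
  change (∑ i, EM i ᵥ* rho 0) = 0
  simp

theorem pr_sub (y y' : EF) : pr (y - y') = pr y - pr y' := by
  rw [sub_eq_add_neg, pr_add, pr_neg, sub_eq_add_neg]

/-- The affine operator given by a matrix. -/
def linP (D : Matrix (Fin 18) (Fin 18) (ZMod 2)) : Module.End (ZMod 2) AF where
  toFun y := (0, y.2 ᵥ* D)
  map_add' y y' := by
    refine Prod.ext (add_zero _).symm ?_
    exact add_vecMul D y.2 y'.2
  map_smul' c y := by
    refine Prod.ext (smul_zero _).symm ?_
    exact smul_vecMul c y.2 D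

/-- The affine operator given by a vector. -/
def trP (e : Fin 18 → ZMod 2) : Module.End (ZMod 2) AF where
  toFun y := (0, y.1 • e)
  map_add' y y' := by
    refine Prod.ext (add_zero _).symm ?_
    exact add_smul y.1 y'.1 e
  map_smul' c y := by
    refine Prod.ext (smul_zero _).symm ?_
    exact mul_smul c y.1 e

/-- The affine operators. -/
noncomputable def Pg : Fin 4 → Fin 4 → Module.End (ZMod 2) AF :=
  fam (fun k l => linP (DM k l)) (fun l => linP (RM l)) (fun k => trP (EM k))

theorem Pg_kl (k l : Fin 3) (y : AF) : Pg k.castSucc l.castSucc y = (0, y.2 ᵥ* DM k l) := by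
  unfold Pg; rw [fam_kl]; rfl
theorem Pg_l4 (l : Fin 3) (y : AF) : Pg (Fin.last 3) l.castSucc y = (0, y.2 ᵥ* RM l) := by
  unfold Pg; rw [fam_l4]; rfl
theorem Pg_k4 (k : Fin 3) (y : AF) : Pg k.castSucc (Fin.last 3) y = (0, y.1 • EM k) := by
  unfold Pg; rw [fam_k4]; rfl
theorem Pg_44 (y : AF) : Pg (Fin.last 3) (Fin.last 3) y = 0 := by
  unfold Pg; rw [fam_44]; rfl

/-- The affine operator attached to an element of the free Lie ring. -/
noncomputable def PL : FLie (Grd GG 0) →ₗ⁅ℤ⁆ Module.End (ZMod 2) AF := lft Pg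

theorem rel4_gen (k l : Fin 4) (y : EF) : pr (Ag k l y) = Pg k l (pr y) := by
  revert y
  refine fam_ind (p := fun k l => ∀ y, pr (Ag k l y) = Pg k l (pr y)) ?_ ?_ ?_ ?_ k l
  · intro k l y
    rw [Ag_kl, Pg_kl]
    refine Prod.ext rfl ?_
    change (∑ i, EM i ᵥ* rho (D3 k l (y.2 i) + if i = k then X3 l * (y.2 l - y.2 k) else 0)) =
      (∑ i, EM i ᵥ* rho (y.2 i)) ᵥ* DM k l
    have h1 : ∀ i, EM i ᵥ* rho (D3 k l (y.2 i) + if i = k then X3 l * (y.2 l - y.2 k) else 0) =
        (EM i ᵥ* rho (y.2 i)) ᵥ* DM k l - (EM i ᵥ* DM k l) ᵥ* rho (y.2 i) +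
        (if i = k then (EM k ᵥ* RM l) ᵥ* rho (y.2 l) - (EM k ᵥ* RM l) ᵥ* rho (y.2 k) else 0) := by
      intro i
      have e1 : EM i ᵥ* (rho (y.2 i) * DM k l - DM k l * rho (y.2 i)) =
          (EM i ᵥ* rho (y.2 i)) ᵥ* DM k l - (EM i ᵥ* DM k l) ᵥ* rho (y.2 i) := by
        rw [vecMul_sub, vecMul_vecMul, vecMul_vecMul]
      have e2 : EM i ᵥ* rho (if i = k then X3 l * (y.2 l - y.2 k) else 0) =
          (if i = k then (EM k ᵥ* RM l) ᵥ* rho (y.2 l) - (EM k ᵥ* RM l) ᵥ* rho (y.2 k) else 0) := by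
        by_cases hi : i = k
        · rw [if_pos hi, if_pos hi, map_mul, rho_X, map_sub, mul_sub, vecMul_sub, vecMul_vecMul,
            vecMul_vecMul, hi]
        · rw [if_neg hi, if_neg hi, map_zero, vecMul_zero]
      rw [map_add, vecMul_add, rho_D3, e1, e2]
    simp only [h1, EM_D]
    rw [Finset.sum_add_distrib, Finset.sum_sub_distrib, sum_vecMul]
    rw [Finset.sum_ite_eq' Finset.univ k, if_pos (Finset.mem_univ k)]
    by_cases hkl : k = l
    · subst hkl
      simp
    · have h2 : (∑ i, (if k = l then 0 else if i = k ∨ i = l then EM k ᵥ* RM l else 0) ᵥ* rho (y.2 i)) =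
          (EM k ᵥ* RM l) ᵥ* rho (y.2 k) + (EM k ᵥ* RM l) ᵥ* rho (y.2 l) := by
        rw [← Finset.sum_pair hkl (f := fun i => (EM k ᵥ* RM l) ᵥ* rho (y.2 i))]
        symm
        have h3 : ∀ i ∈ ({k, l} : Finset (Fin 3)), (EM k ᵥ* RM l) ᵥ* rho (y.2 i) =
            (if k = l then 0 else if i = k ∨ i = l then EM k ᵥ* RM l else 0) ᵥ* rho (y.2 i) := by
          intro i hi
          rw [Finset.mem_insert, Finset.mem_singleton] at hi
          rw [if_neg hkl, if_pos hi]
        rw [Finset.sum_congr rfl h3]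
        refine Finset.sum_subset (Finset.subset_univ _) ?_
        intro i _ hi
        rw [Finset.mem_insert, Finset.mem_singleton] at hi
        rw [if_neg hkl, if_neg hi, zero_vecMul]
      rw [h2]
      generalize (EM k ᵥ* RM l) ᵥ* rho (y.2 k) = P
      generalize (EM k ᵥ* RM l) ᵥ* rho (y.2 l) = Q
      generalize (∑ i, EM i ᵥ* rho (y.2 i) ᵥ* DM k l) = A
      have h5 : A - (P + Q) + (Q - P) = A - (P + P) := by abel
      have h6 : P + P = 0 := by
        funext j
        exact CharTwo.add_self_eq_zero (P j)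
      rw [h5, h6, sub_zero]
  · intro l y
    rw [Ag_l4, Pg_l4]
    refine Prod.ext rfl ?_
    change (∑ i, EM i ᵥ* rho (y.2 i * X3 l)) = (∑ i, EM i ᵥ* rho (y.2 i)) ᵥ* RM l
    rw [sum_vecMul]
    refine Finset.sum_congr rfl fun i _ => ?_
    rw [map_mul, rho_X, vecMul_vecMul]
  · intro k y
    rw [Ag_k4, Pg_k4]
    refine Prod.ext rfl ?_
    change (∑ i, EM i ᵥ* rho (if i = k then algebraMap (ZMod 2) S3 y.1 else 0)) = y.1 • EM k
    rw [Finset.sum_eq_single k]
    · rw [if_pos rfl, AlgHom.commutes, Algebra.algebraMap_eq_smul_one, vecMul_smul, vecMul_one]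
    · intro b _ hb
      rw [if_neg hb, map_zero, vecMul_zero]
    · intro h; exact absurd (Finset.mem_univ k) h
  · intro y
    rw [Ag_44, Pg_44, pr_zero]

theorem rel4 (z : FLie (Grd GG 0)) (y : EF) : pr (AL z y) = PL z (pr y) := by
  revert y
  refine lft_ind3 (F1 := Ag) (F2 := Pg) (F3 := Pg)
    (p := fun A P _ => ∀ y, pr (A y) = P (pr y)) ?_ ?_ ?_ ?_ ?_ z
  · intro y
    rw [LinearMap.zero_apply, LinearMap.zero_apply, pr_zero]
  · intro A P _ A' P' _ h h' y
    rw [LinearMap.add_apply, LinearMap.add_apply, pr_add, h, h']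
  · intro A P _ h y
    rw [LinearMap.neg_apply, LinearMap.neg_apply, pr_neg, h]
  · intro A P _ A' P' _ h h' y
    rw [end_lie, end_lie, pr_sub, h, h', h', h]
  · intro k l y; exact rel4_gen k l y

theorem mk_zero_form (l : Fin 3) (a : Fin 4) :
    RM l * BM a + BM a * (RM l).transpose = ∑ c, (0 : Matrix (Fin 4) (Fin 4) (ZMod 2)) c a • BM c := by
  rw [form_R]
  symm
  refine Finset.sum_eq_zero fun c _ => ?_
  rw [Matrix.zero_apply, zero_smul]

/-- The generators of the detecting Lie algebra. -/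
noncomputable def Mg : Fin 4 → Fin 4 → MM :=
  fam (fun k l => ⟨0, mkD (DM k l) (TM k l) (form_D k l)⟩)
    (fun l => ⟨0, mkD (RM l) 0 (mk_zero_form l)⟩)
    (fun k => ⟨(EM k, 0), 0⟩)

/-- The homomorphism to the detecting Lie algebra. -/
noncomputable def ML : FLie (Grd GG 0) →ₗ⁅ℤ⁆ MM := lft Mg

/-- The compatibility of the element of the detecting Lie algebra and the affine operator. -/
def Rel5 (M : MM) (P : Module.End (ZMod 2) AF) : Prop :=
  (∀ (c : ZMod 2) (h : HH), P (c, h.1) = (0, c • M.left.1 + (M.right h).1)) ∧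
    ∀ h : HH, h.2 = 0 → (M.right h).2 = 0

theorem rel5 (z : FLie (Grd GG 0)) : Rel5 (ML z) (PL z) := by
  refine lft_ind3 (F1 := Mg) (F2 := Pg) (F3 := Pg)
    (p := fun M P _ => Rel5 M P) ?_ ?_ ?_ ?_ ?_ z
  · refine ⟨fun c h => ?_, fun h _ => rfl⟩
    refine Prod.ext rfl ?_
    change (0 : Fin 18 → ZMod 2) = c • 0 + 0
    rw [smul_zero, add_zero]
  · intro M P _ M' P' _ h h'
    refine ⟨fun c x => ?_, fun x hx => ?_⟩
    · rw [LinearMap.add_apply, h.1, h'.1]
      refine Prod.ext (add_zero _) ?_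
      change c • M.left.1 + (M.right x).1 + (c • M'.left.1 + (M'.right x).1) =
        c • (M.left.1 + M'.left.1) + ((M.right x).1 + (M'.right x).1)
      rw [smul_add]; abel
    · change (M.right x).2 + (M'.right x).2 = 0
      rw [h.2 x hx, h'.2 x hx, add_zero]
  · intro M P _ h
    refine ⟨fun c x => ?_, fun x hx => ?_⟩
    · rw [LinearMap.neg_apply, h.1]
      refine Prod.ext neg_zero ?_
      change -(c • M.left.1 + (M.right x).1) = c • (-M.left.1) + -(M.right x).1
      rw [smul_neg]; abel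
    · change -(M.right x).2 = 0
      rw [h.2 x hx, neg_zero]
  · intro M P _ M' P' _ h h'
    have key : ∀ {M M' : MM} {P P' : Module.End (ZMod 2) AF}, Rel5 M P → Rel5 M' P' →
        ∀ (c : ZMod 2) (x : HH), P (P' (c, x.1)) =
          (0, c • (M.right M'.left).1 + (M.right (M'.right x)).1) := by
      intro M M' P P' h h' c x
      rw [h'.1]
      have e : ((0 : ZMod 2), c • M'.left.1 + (M'.right x).1) = (0, (c • M'.left + M'.right x).1) := rfl
      rw [e, h.1, zero_smul, zero_add, map_add, map_smul]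
      rfl
    refine ⟨fun c x => ?_, fun x hx => ?_⟩
    · rw [end_lie, key h h', key h' h]
      refine Prod.ext (sub_zero _) ?_
      change c • (M.right M'.left).1 + (M.right (M'.right x)).1 -
        (c • (M'.right M.left).1 + (M'.right (M.right x)).1) =
        c • (0 + (M.right M'.left).1 - (M'.right M.left).1) +
          ((M.right (M'.right x)).1 - (M'.right (M.right x)).1)
      rw [zero_add, smul_sub]; abel
    · rw [MM_right, HH_sub2, h.2 _ (h'.2 x hx), h'.2 _ (h.2 x hx), sub_zero]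
  · intro k l
    refine fam_ind (p := fun k l => Rel5 (Mg k l) (Pg k l)) ?_ ?_ ?_ ?_ k l
    · intro k l
      unfold Mg
      rw [fam_kl]
      refine ⟨fun c x => ?_, fun x hx => ?_⟩
      · rw [Pg_kl]
        refine Prod.ext rfl ?_
        change x.1 ᵥ* DM k l = c • 0 + x.1 ᵥ* DM k l
        rw [smul_zero, zero_add]
      · change x.2 ᵥ* TM k l = 0
        rw [hx, zero_vecMul]
    · intro l
      unfold Mg
      rw [fam_l4]
      refine ⟨fun c x => ?_, fun x hx => ?_⟩
      · rw [Pg_l4]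
        refine Prod.ext rfl ?_
        change x.1 ᵥ* RM l = c • 0 + x.1 ᵥ* RM l
        rw [smul_zero, zero_add]
      · change x.2 ᵥ* (0 : Matrix (Fin 4) (Fin 4) (ZMod 2)) = 0
        rw [vecMul_zero]
    · intro k
      unfold Mg
      rw [fam_k4]
      refine ⟨fun c x => ?_, fun x hx => rfl⟩
      rw [Pg_k4]
      refine Prod.ext rfl ?_
      change c • EM k = c • EM k + 0
      rw [add_zero]
    · unfold Mg Pg
      rw [fam_44, fam_44]
      refine ⟨fun c h => ?_, fun h _ => rfl⟩
      refine Prod.ext rfl ?_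
      change (0 : Fin 18 → ZMod 2) = c • 0 + 0
      rw [smul_zero, add_zero]

end Pool.Agent.Helper90.QP
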