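import Mathlib
import Pool.Agent.Helper90.QP.Detect

/-!
The homomorphism to the detecting Lie algebra kills the relations of degree two.
-/

namespace Pool.Agent.Helper90.QP

open Matrix BurnLie Q28.FreeLieV

/-- The row with the given digits is in the image. -/
def SR (v : ℕ) : Prop := ∃ w : Fin 3 → S3, (∑ i, EM i ᵥ* rho (w i)) = vec v

theorem SR.base (i : Fin 3) : SR (eN i) := by
  refine ⟨Pi.single i 1, ?_⟩
  rw [Finset.sum_eq_single i]
  · rw [Pi.single_eq_same, map_one, vecMul_one]; rfl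
  · intro b _ hb
    rw [Pi.single_eq_of_ne hb, map_zero, vecMul_zero]
  · intro h; exact absurd (Finset.mem_univ i) h

theorem SR.base' (i : Fin 3) {v : ℕ} (h : eN i = v) : SR v := h ▸ SR.base i

theorem SR.mul {v w : ℕ} (h : SR v) (j : Fin 3) (hw : mulN 18 v (rN j) = w) : SR w := by
  obtain ⟨y, hy⟩ := h
  refine ⟨fun i => y i * X3 j, ?_⟩
  rw [← hw, vec_mul, ← hy, sum_vecMul]
  refine Finset.sum_congr rfl fun i _ => ?_
  rw [map_mul, rho_X, vecMul_vecMul]; rfl

theorem units_SR : ∀ j : Fin 18, SR (2 ^ (j : ℕ)) := by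
  have s0 : SR 512 := SR.base' 0 rfl
  have s1 : SR 1 := SR.mul s0 2 (by decide +kernel)
  have s2 : SR 4098 := SR.mul s0 1 (by decide +kernel)
  have s3 : SR 1024 := SR.mul s2 0 (by decide +kernel)
  have s4 : SR 2 := SR.mul s3 2 (by decide +kernel)
  have s5 : SR 8196 := SR.mul s3 1 (by decide +kernel)
  have s6 : SR 2048 := SR.mul s5 0 (by decide +kernel)
  have s7 : SR 4 := SR.mul s6 2 (by decide +kernel)
  have s8 : SR 8 := SR.mul s2 2 (by decide +kernel)
  have s9 : SR 16 := SR.mul s5 2 (by decide +kernel)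
  have s10 : SR 16512 := SR.base' 1 rfl
  have s11 : SR 32 := SR.mul s10 2 (by decide +kernel)
  have s12 : SR 65536 := SR.mul s10 0 (by decide +kernel)
  have s13 : SR 33024 := SR.mul s12 1 (by decide +kernel)
  have s14 : SR 64 := SR.mul s13 2 (by decide +kernel)
  have s15 : SR 128 := SR.mul s12 2 (by decide +kernel)
  have s16 : SR 131072 := SR.mul s13 0 (by decide +kernel)
  have s17 : SR 256 := SR.mul s16 2 (by decide +kernel)
  have s18 : SR 4096 := SR.mul s8 0 (by decide +kernel)
  have s19 : SR 8192 := SR.mul s9 0 (by decide +kernel)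
  have s20 : SR 16384 := SR.mul s11 0 (by decide +kernel)
  have s21 : SR 32768 := SR.mul s14 0 (by decide +kernel)
  have u0 : SR 1 := s1
  have u1 : SR 2 := s4
  have u2 : SR 4 := s7
  have u3 : SR 8 := s8
  have u4 : SR 16 := s9
  have u5 : SR 32 := s11
  have u6 : SR 64 := s14
  have u7 : SR 128 := s15
  have u8 : SR 256 := s17
  have u9 : SR 512 := s0
  have u10 : SR 1024 := s3
  have u11 : SR 2048 := s6
  have u12 : SR 4096 := s18
  have u13 : SR 8192 := s19
  have u14 : SR 16384 := s20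
  have u15 : SR 32768 := s21
  have u16 : SR 65536 := s12
  have u17 : SR 131072 := s16
  intro j
  fin_cases j
  · exact u0
  · exact u1
  · exact u2
  · exact u3
  · exact u4
  · exact u5
  · exact u6
  · exact u7
  · exact u8
  · exact u9
  · exact u10
  · exact u11
  · exact u12
  · exact u13
  · exact u14
  · exact u15
  · exact u16
  · exact u17

theorem vec_unit (j : Fin 18) : vec (2 ^ (j : ℕ)) = Pi.single j 1 := by
  funext i
  unfold vec
  rw [Nat.testBit_two_pow, Pi.single_apply]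
  by_cases h : i = j
  · subst h; simp [bz]
  · have h1 : ¬ ((j : ℕ) = (i : ℕ)) := fun e => h (Fin.ext e.symm)
    rw [if_neg h, decide_eq_false h1]; rfl

theorem pr_surj (y : AF) : ∃ e : EF, pr e = y := by
  obtain ⟨c, m⟩ := y
  choose w hw using units_SR
  refine ⟨(c, fun i => ∑ j, m j • w j i), ?_⟩
  refine Prod.ext rfl ?_
  change (∑ i, EM i ᵥ* rho (∑ j, m j • w j i)) = m
  have h1 : ∀ i, EM i ᵥ* rho (∑ j, m j • w j i) = ∑ j, m j • (EM i ᵥ* rho (w j i)) := by
    intro i
    rw [map_sum, vecMul_sum]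
    refine Finset.sum_congr rfl fun j _ => ?_
    rw [map_smul, vecMul_smul]
  simp only [h1]
  rw [Finset.sum_comm]
  have h2 : ∀ j, (∑ i, m j • (EM i ᵥ* rho (w j i))) = m j • (Pi.single j (1 : ZMod 2) : Fin 18 → ZMod 2) := by
    intro j
    rw [← Finset.smul_sum, hw, vec_unit]
  simp only [h2]
  funext i
  rw [Finset.sum_apply, Finset.sum_eq_single i]
  · rw [Pi.smul_apply, Pi.single_eq_same, smul_eq_mul, mul_one]
  · intro b _ hb
    rw [Pi.smul_apply, Pi.single_eq_of_ne (Ne.symm hb), smul_zero]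
  · intro h; exact absurd (Finset.mem_univ i) h

theorem PL_zero {z : FLie (Grd GG 0)} (h : DL0 z = 0) : PL z = 0 := by
  refine LinearMap.ext fun y => ?_
  obtain ⟨e, rfl⟩ := pr_surj y
  rw [← rel4, AL_zero h, LinearMap.zero_apply, pr_zero, LinearMap.zero_apply]

theorem chk5 : ∀ (i k : Fin 3) (a : Fin 4),
    (∑ p : Fin 18, ∑ q : Fin 18, if (eN i).testBit p && (eN k).testBit q && (bN a).testBit (18 * p + q)
      then (1 : ℕ) else 0) % 2 = 0 := by
  decide +kernel

theorem bz_cast (x : Bool) : bz x = ((if x then (1 : ℕ) else 0 : ℕ) : ZMod 2) := by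
  cases x <;> rfl

theorem beta_EM (i k : Fin 3) : beta (EM i) (EM k) = 0 := by
  funext a
  unfold beta
  rw [BM_eq]
  have h1 : EM i ⬝ᵥ (mat 18 (bN a) *ᵥ EM k) = (((∑ p : Fin 18, ∑ q : Fin 18,
      if (eN i).testBit p && (eN k).testBit q && (bN a).testBit (18 * p + q)
      then (1 : ℕ) else 0) : ℕ) : ZMod 2) := by
    rw [Nat.cast_sum]
    unfold dotProduct mulVec dotProduct
    refine Finset.sum_congr rfl fun p _ => ?_
    rw [Nat.cast_sum, Finset.mul_sum]
    refine Finset.sum_congr rfl fun q _ => ?_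
    rw [← bz_cast, bz_and, bz_and]
    change bz ((eN i).testBit p) * (bz ((bN a).testBit (18 * p + q)) * bz ((eN k).testBit q)) = _
    ring
  rw [h1]
  have h2 := chk5 i k a
  rw [Pi.zero_apply, ZMod.natCast_eq_zero_iff]
  exact Nat.dvd_of_mod_eq_zero h2

theorem beta_sum_left {ι : Type} (s : Finset ι) (f : ι → Fin 18 → ZMod 2) (y : Fin 18 → ZMod 2) :
    beta (∑ i ∈ s, f i) y = ∑ i ∈ s, beta (f i) y := by
  classical
  induction s using Finset.induction_on with
  | empty => rw [Finset.sum_empty, Finset.sum_empty, beta_zero_left]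
  | insert a s ha ih => rw [Finset.sum_insert ha, Finset.sum_insert ha, beta_add_left, ih]

theorem beta_sum_right {ι : Type} (s : Finset ι) (f : ι → Fin 18 → ZMod 2) (y : Fin 18 → ZMod 2) :
    beta y (∑ i ∈ s, f i) = ∑ i ∈ s, beta y (f i) := by
  classical
  induction s using Finset.induction_on with
  | empty => rw [Finset.sum_empty, Finset.sum_empty, beta_zero_right]
  | insert a s ha ih => rw [Finset.sum_insert ha, Finset.sum_insert ha, beta_add_right, ih]

/-- The vectors which occur in degree one. -/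
def V1 (x : HH) : Prop := x.2 = 0 ∧ ∃ c : Fin 3 → ZMod 2, x.1 = ∑ i, c i • EM i

theorem V1.add {x y : HH} (hx : V1 x) (hy : V1 y) : V1 (x + y) := by
  obtain ⟨h1, c, h2⟩ := hx
  obtain ⟨h1', c', h2'⟩ := hy
  refine ⟨by rw [HH_add2, h1, h1', add_zero], c + c', ?_⟩
  rw [HH_add1, h2, h2', ← Finset.sum_add_distrib]
  refine Finset.sum_congr rfl fun i _ => ?_
  rw [Pi.add_apply, add_smul]

theorem V1.zero : V1 0 := by
  refine ⟨rfl, 0, ?_⟩
  rw [HH_zero1]
  symm
  refine Finset.sum_eq_zero fun i _ => ?_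
  rw [Pi.zero_apply, zero_smul]

theorem V1.beta {x y : HH} (hx : V1 x) (hy : V1 y) : QP.beta x.1 y.1 = 0 := by
  obtain ⟨-, c, h2⟩ := hx
  obtain ⟨-, c', h2'⟩ := hy
  rw [h2, h2', beta_sum_left]
  refine Finset.sum_eq_zero fun i _ => ?_
  rw [beta_sum_right]
  refine Finset.sum_eq_zero fun k _ => ?_
  rw [beta_smul_left, beta_smul_right, beta_EM, smul_zero, smul_zero]

theorem V1_gen (k l : Fin 4) : V1 (Mg k l).left := by
  refine fam_ind (p := fun k l => V1 (Mg k l).left) ?_ ?_ ?_ ?_ k l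
  · intro k l; unfold Mg; rw [fam_kl]; exact V1.zero
  · intro l; unfold Mg; rw [fam_l4]; exact V1.zero
  · intro k; unfold Mg; rw [fam_k4]
    refine ⟨rfl, Pi.single k 1, ?_⟩
    rw [Finset.sum_eq_single k]
    · rw [Pi.single_eq_same, one_smul]
    · intro b _ hb
      rw [Pi.single_eq_of_ne hb, zero_smul]
    · intro h; exact absurd (Finset.mem_univ k) h
  · unfold Mg; rw [fam_44]; exact V1.zero

theorem V1_incl (v : Grd GG 0) : V1 (ML (incl v)).left := by
  unfold ML
  rw [lft_incl]
  refine sum_ind3 (E1 := MM) (E2 := MM) (E3 := MM) (p := fun M _ _ => V1 M.left) V1.zero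
    (fun x _ _ x' _ _ hx hx' => V1.add hx hx')
    (F1 := fun k => ∑ l, ev k l v • Mg k l) (F2 := fun k => ∑ l, ev k l v • Mg k l)
    (F3 := fun k => ∑ l, ev k l v • Mg k l) (fun k => ?_) Finset.univ
  refine sum_ind3 (E1 := MM) (E2 := MM) (E3 := MM) (p := fun M _ _ => V1 M.left) V1.zero
    (fun x _ _ x' _ _ hx hx' => V1.add hx hx')
    (F1 := fun l => ev k l v • Mg k l) (F2 := fun l => ev k l v • Mg k l)
    (F3 := fun l => ev k l v • Mg k l) (fun l => ?_) Finset.univ
  rcases zmod_cases (ev k l v) with hc | hc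
  · rw [hc, zero_smul]; exact V1.zero
  · rw [hc, one_smul]; exact V1_gen k l

/-- The central component vanishes in degree two. -/
theorem degTwo_left {t : FLie (Grd GG 0)} (ht : t ∈ degTwo (Grd GG 0)) : (ML t).left.2 = 0 := by
  have ht' : t ∈ AddSubgroup.closure {z | ∃ v w : Grd GG 0, z = ⁅incl v, incl w⁆} := by
    rw [← Submodule.span_int_eq_addSubgroupClosure]
    exact ht
  clear ht
  induction ht' using AddSubgroup.closure_induction with
  | mem t ht =>
    obtain ⟨v, w, rfl⟩ := ht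
    have h1 := V1_incl v
    have h2 := V1_incl w
    rw [LieHom.map_lie, MM_left, HH_sub2, HH_add2, HH_lie2, h1.beta h2,
      (rel5 (incl v)).2 _ h2.1, (rel5 (incl w)).2 _ h1.1, add_zero, sub_zero]
  | zero => rw [map_zero]; rfl
  | add t u _ _ ht hu =>
    rw [map_add]
    change (ML t).left.2 + (ML u).left.2 = 0
    rw [ht, hu, add_zero]
  | neg t _ ht =>
    rw [map_neg]
    change -(ML t).left.2 = 0
    rw [ht, neg_zero]

/-- The pairing of basis vectors with the given value of the form. -/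
def yN : Fin 4 → Fin 18
  | 0 => 11
  | 1 => 13
  | 2 => 15
  | 3 => 17

theorem chk6 : ∀ a c : Fin 4, (bN c).testBit (18 * 0 + yN a) = decide (a = c) := by
  decide +kernel

theorem beta_unit (a : Fin 4) :
    beta (Pi.single 0 1) (Pi.single (yN a) 1) = Pi.single a 1 := by
  funext c
  unfold beta
  rw [BM_eq, mulVec_single_one, single_one_dotProduct]
  change bz ((bN c).testBit (18 * 0 + yN a)) = _
  rw [chk6, Pi.single_apply]
  by_cases h : a = c
  · rw [if_pos h.symm, decide_eq_true h]; rfl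
  · rw [if_neg (Ne.symm h), decide_eq_false h]; rfl

/-- The element with the given components. -/
def hm (m : Fin 18 → ZMod 2) (n : Fin 4 → ZMod 2) : HH := (m, n)

theorem hm1 (m : Fin 18 → ZMod 2) (n : Fin 4 → ZMod 2) : (hm m n).1 = m := rfl
theorem hm2 (m : Fin 18 → ZMod 2) (n : Fin 4 → ZMod 2) : (hm m n).2 = n := rfl

/-- A derivation which kills the first component vanishes. -/
theorem der_zero (d : DH) (h1 : ∀ x : HH, (d x).1 = 0) (h2 : ∀ x : HH, x.2 = 0 → (d x).2 = 0) :
    d = 0 := by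
  have k1 : ∀ x y : HH, d ⁅x, y⁆ = 0 := by
    intro x y
    rw [LieDerivation.apply_lie_eq_sub]
    refine HH_ext ?_ ?_
    · rw [HH_sub1, HH_lie1, HH_lie1, sub_zero, HH_zero1]
    · rw [HH_sub2, HH_lie2, HH_lie2, h1, h1, beta_zero_right, beta_zero_right, sub_zero, HH_zero2]
  have k2 : ∀ n : Fin 4 → ZMod 2, d (hm 0 n) = 0 := by
    intro n
    have e : hm 0 n = ∑ a, n a • ⁅hm (Pi.single 0 1) 0, hm (Pi.single (yN a) 1) 0⁆ := by
      have e1 : ∀ (s : Finset (Fin 4)),
          (∑ a ∈ s, n a • ⁅hm (Pi.single 0 1) 0, hm (Pi.single (yN a) 1) 0⁆) =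
          hm 0 (∑ a ∈ s, n a • (Pi.single a 1 : Fin 4 → ZMod 2)) := by
        intro s
        induction s using Finset.induction_on with
        | empty => rfl
        | insert a s ha ih =>
          rw [Finset.sum_insert ha, Finset.sum_insert ha, ih]
          refine HH_ext ?_ ?_
          · rw [HH_add1, HH_smul1, HH_lie1, smul_zero, hm1, hm1, add_zero]
          · rw [HH_add2, HH_smul2, HH_lie2, hm1, hm1, beta_unit, hm2, hm2]
      rw [e1]
      refine HH_ext rfl ?_
      rw [hm2, hm2]
      funext b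
      rw [Finset.sum_apply, Finset.sum_eq_single b]
      · rw [Pi.smul_apply, Pi.single_eq_same, smul_eq_mul, mul_one]
      · intro c _ hc
        rw [Pi.smul_apply, Pi.single_eq_of_ne (Ne.symm hc), smul_zero]
      · intro h; exact absurd (Finset.mem_univ b) h
    rw [e, map_sum]
    refine Finset.sum_eq_zero fun a _ => ?_
    rw [map_smul, k1, smul_zero]
  have k3 : ∀ m : Fin 18 → ZMod 2, d (hm m 0) = 0 :=
    fun m => HH_ext (h1 _) (h2 _ rfl)
  ext x : 1
  have e : x = hm x.1 0 + hm 0 x.2 := by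
    refine HH_ext ?_ ?_
    · rw [HH_add1, hm1, hm1, add_zero]
    · rw [HH_add2, hm2, hm2, zero_add]
  rw [e, map_add, k2, k3, add_zero]
  rfl

/-- The relations of degree two are mapped to zero. -/
theorem ML_zero {t : FLie (Grd GG 0)} (ht : t ∈ degTwo (Grd GG 0)) (h0 : natMap GG t = 0) :
    ML t = 0 := by
  have hP := PL_zero (degTwo_DL0 ht h0)
  have h5 := rel5 t
  have h1 : ∀ (c : ZMod 2) (h : HH), c • (ML t).left.1 + ((ML t).right h).1 = 0 := by
    intro c h
    have := h5.1 c h
    rw [hP, LinearMap.zero_apply] at this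
    exact (congrArg Prod.snd this).symm
  have h2 : ∀ h : HH, ((ML t).right h).1 = 0 := by
    intro h
    have := h1 0 h
    rwa [zero_smul, zero_add] at this
  have h3 : (ML t).left.1 = 0 := by
    have := h1 1 0
    rwa [h2, one_smul, add_zero] at this
  have h4 : (ML t).right = 0 := der_zero _ h2 h5.2
  have h6 : (ML t).left = 0 := HH_ext h3 (degTwo_left ht)
  exact LieAlgebra.SemiDirectSum.ext h6 h4

end Pool.Agent.Helper90.QP
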