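import Mathlib

/-!
A consequence of the relations of McCool in a Lie ring, verified by computation.
-/

namespace Pool.Agent.Helper90.QP

/-- Elements of the free module on `u, v` over the free algebra on three letters. -/
inductive Tr where
  | nil : Tr
  | nd : ℤ → ℤ → Tr → Tr → Tr → Tr

namespace Tr

/-- Addition. -/
def add : Tr → Tr → Tr
  | nil, t => t
  | nd a b x y z, nil => nd a b x y z
  | nd a b x y z, nd a' b' x' y' z' => nd (a + a') (b + b') (add x x') (add y y') (add z z')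

/-- Subtraction. -/
def neg : Tr → Tr
  | nil => nil
  | nd a b x y z => nd (-a) (-b) (neg x) (neg y) (neg z)

/-- Subtraction. -/
def sub (s t : Tr) : Tr := add s (neg t)

/-- All the coefficients vanish. -/
def isZ : Tr → Bool
  | nil => true
  | nd a b x y z => (a == 0) && (b == 0) && isZ x && isZ y && isZ z

/-- The action of the first generator. -/
def opa : Tr → Tr
  | nil => nil
  | nd p q x y z => nd 0 0 (add (add (opa x) (nd 0 (q - p) nil nil nil)) (nd 0 0 nil y nil))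
      (sub (opa y) (nd 0 0 y nil nil)) (opa z)

/-- The action of the second generator. -/
def opb : Tr → Tr
  | nil => nil
  | nd _ q x y z => nd 0 0 (opb x) (add (add (opb y) (nd q q nil nil nil)) (nd 0 0 nil nil z))
      (sub (opb z) (nd 0 0 nil z nil))

/-- The action of the third generator. -/
def opc : Tr → Tr
  | nil => nil
  | nd p _ x y z => nd 0 0 (sub (opc x) (nd 0 0 nil nil x)) (opc y)
      (add (add (opc z) (nd p 0 nil nil nil)) (nd 0 0 x nil nil))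

end Tr

/-- Lie expressions. -/
inductive Ex where
  | a : Ex
  | b : Ex
  | c : Ex
  | x1 : Ex
  | x2 : Ex
  | x3 : Ex
  | br : Ex → Ex → Ex
  | pl : Ex → Ex → Ex

/-- The action of a Lie expression. -/
def act : Ex → Tr → Tr
  | .a, t => t.opa
  | .b, t => t.opb
  | .c, t => t.opc
  | .x1, t => .nd 0 0 t .nil .nil
  | .x2, t => .nd 0 0 .nil t .nil
  | .x3, t => .nd 0 0 .nil .nil t
  | .br e f, t => Tr.sub (act e (act f t)) (act f (act e t))
  | .pl e f, t => Tr.add (act e t) (act f t)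

/-- The element of degree six. -/
def xE : Ex :=
  .pl (.pl (.pl
    (.br (.br (.br (.br .a .b) (.br .b .c)) .a) .c)
    (.br (.br (.br (.br .b .c) (.br .c .a)) .b) .a))
    (.br (.br (.br (.br .c .a) (.br .a .b)) .c) .b))
    (.br (.br .x2 (.br .x3 .x1)) (.br .x1 (.br .x2 .x3)))

theorem check_u : (act xE (.nd 1 0 .nil .nil .nil)).isZ = true := by decide +kernel

theorem check_v : (act xE (.nd 0 1 .nil .nil .nil)).isZ = true := by decide +kernel

/-- Elements of a Lie ring which satisfy the relations of McCool. -/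
structure McRel (L : Type) [LieRing L] where
  a : L
  b : L
  c : L
  x1 : L
  x2 : L
  x3 : L
  u : L
  v : L
  a1 : ⁅a, x1⁆ = 0
  a2 : ⁅a, x2⁆ = ⁅x1, x2⁆
  a3 : ⁅a, x3⁆ = 0
  b1 : ⁅b, x1⁆ = 0
  b2 : ⁅b, x2⁆ = 0
  b3 : ⁅b, x3⁆ = ⁅x2, x3⁆
  c1 : ⁅c, x1⁆ = ⁅x3, x1⁆
  c2 : ⁅c, x2⁆ = 0
  c3 : ⁅c, x3⁆ = 0
  au : ⁅a, u⁆ = -⁅x1, v⁆
  av : ⁅a, v⁆ = ⁅x1, v⁆
  bu : ⁅b, u⁆ = 0
  bv : ⁅b, v⁆ = ⁅x2, u + v⁆
  cu : ⁅c, u⁆ = ⁅x3, u⁆
  cv : ⁅c, v⁆ = 0

namespace McRel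

variable {L : Type} [LieRing L] (M : McRel L)

/-- Evaluation. -/
def ev : Tr → L
  | .nil => 0
  | .nd p q x y z => p • M.u + q • M.v + ⁅M.x1, ev x⁆ + ⁅M.x2, ev y⁆ + ⁅M.x3, ev z⁆

theorem ev_add (s t : Tr) : M.ev (s.add t) = M.ev s + M.ev t := by
  induction s generalizing t with
  | nil => unfold Tr.add; simp [ev]
  | nd p q x y z hx hy hz =>
    cases t with
    | nil => unfold Tr.add; simp [ev]
    | nd p' q' x' y' z' =>
      unfold Tr.add ev
      rw [hx, hy, hz]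
      simp only [lie_add, add_smul]
      abel

theorem ev_neg (t : Tr) : M.ev t.neg = - M.ev t := by
  induction t with
  | nil => simp [Tr.neg, ev]
  | nd p q x y z hx hy hz =>
    unfold Tr.neg ev
    rw [hx, hy, hz]
    simp only [lie_neg, neg_smul]
    abel

theorem ev_sub (s t : Tr) : M.ev (s.sub t) = M.ev s - M.ev t := by
  unfold Tr.sub; rw [ev_add, ev_neg, sub_eq_add_neg]

theorem ev_isZ {t : Tr} (h : t.isZ = true) : M.ev t = 0 := by
  induction t with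
  | nil => rfl
  | nd p q x y z hx hy hz =>
    unfold Tr.isZ at h
    simp only [Bool.and_eq_true, beq_iff_eq] at h
    obtain ⟨⟨⟨⟨hp, hq⟩, h1⟩, h2⟩, h3⟩ := h
    unfold ev
    rw [hp, hq, hx h1, hy h2, hz h3]
    simp

theorem ev_1 (t : Tr) : M.ev (.nd 0 0 t .nil .nil) = ⁅M.x1, M.ev t⁆ := by simp [ev]
theorem ev_2 (t : Tr) : M.ev (.nd 0 0 .nil t .nil) = ⁅M.x2, M.ev t⁆ := by simp [ev]
theorem ev_3 (t : Tr) : M.ev (.nd 0 0 .nil .nil t) = ⁅M.x3, M.ev t⁆ := by simp [ev]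

theorem ev_opa (t : Tr) : M.ev t.opa = ⁅M.a, M.ev t⁆ := by
  induction t with
  | nil => simp [Tr.opa, ev]
  | nd p q x y z hx hy hz =>
    have e1 : M.ev (.nd p q x y z) = p • M.u + q • M.v + ⁅M.x1, M.ev x⁆ + ⁅M.x2, M.ev y⁆ +
      ⁅M.x3, M.ev z⁆ := rfl
    have e2 : M.ev (Tr.opa (.nd p q x y z)) = (0 : ℤ) • M.u + (0 : ℤ) • M.v +
      ⁅M.x1, M.ev ((x.opa.add (.nd 0 (q - p) .nil .nil .nil)).add (.nd 0 0 .nil y .nil))⁆ +
      ⁅M.x2, M.ev (y.opa.sub (.nd 0 0 y .nil .nil))⁆ + ⁅M.x3, M.ev z.opa⁆ := rfl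
    have e3 : M.ev (.nd 0 (q - p) .nil .nil .nil) = (q - p) • M.v := by simp [ev]
    rw [e2, ev_add, ev_add, ev_sub, e3, ev_1, ev_2, hx, hy, hz, e1]
    simp only [lie_add, lie_sub, lie_zsmul, zero_smul, M.au, M.av]
    rw [leibniz_lie M.a M.x1, leibniz_lie M.a M.x2, leibniz_lie M.a M.x3, M.a1, M.a2, M.a3,
      lie_lie M.x1 M.x2 (M.ev y)]
    simp only [zero_lie, zero_add, smul_neg, sub_smul]
    abel

theorem ev_opb (t : Tr) : M.ev t.opb = ⁅M.b, M.ev t⁆ := by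
  induction t with
  | nil => simp [Tr.opb, ev]
  | nd p q x y z hx hy hz =>
    have e1 : M.ev (.nd p q x y z) = p • M.u + q • M.v + ⁅M.x1, M.ev x⁆ + ⁅M.x2, M.ev y⁆ +
      ⁅M.x3, M.ev z⁆ := rfl
    have e2 : M.ev (Tr.opb (.nd p q x y z)) = (0 : ℤ) • M.u + (0 : ℤ) • M.v + ⁅M.x1, M.ev x.opb⁆ +
      ⁅M.x2, M.ev ((y.opb.add (.nd q q .nil .nil .nil)).add (.nd 0 0 .nil .nil z))⁆ +
      ⁅M.x3, M.ev (z.opb.sub (.nd 0 0 .nil z .nil))⁆ := rfl
    have e3 : M.ev (.nd q q .nil .nil .nil) = q • (M.u + M.v) := by simp [ev, smul_add]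
    rw [e2, ev_add, ev_add, ev_sub, e3, ev_2, ev_3, hx, hy, hz, e1]
    simp only [lie_add, lie_sub, lie_zsmul, zero_smul, M.bu, M.bv]
    rw [leibniz_lie M.b M.x1, leibniz_lie M.b M.x2, leibniz_lie M.b M.x3, M.b1, M.b2, M.b3,
      lie_lie M.x2 M.x3 (M.ev z)]
    simp only [zero_lie, zero_add, smul_zero]
    abel

theorem ev_opc (t : Tr) : M.ev t.opc = ⁅M.c, M.ev t⁆ := by
  induction t with
  | nil => simp [Tr.opc, ev]
  | nd p q x y z hx hy hz =>
    have e1 : M.ev (.nd p q x y z) = p • M.u + q • M.v + ⁅M.x1, M.ev x⁆ + ⁅M.x2, M.ev y⁆ +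
      ⁅M.x3, M.ev z⁆ := rfl
    have e2 : M.ev (Tr.opc (.nd p q x y z)) = (0 : ℤ) • M.u + (0 : ℤ) • M.v +
      ⁅M.x1, M.ev (x.opc.sub (.nd 0 0 .nil .nil x))⁆ + ⁅M.x2, M.ev y.opc⁆ +
      ⁅M.x3, M.ev ((z.opc.add (.nd p 0 .nil .nil .nil)).add (.nd 0 0 x .nil .nil))⁆ := rfl
    have e3 : M.ev (.nd p 0 .nil .nil .nil) = p • M.u := by simp [ev]
    rw [e2, ev_add, ev_add, ev_sub, e3, ev_1, ev_3, hx, hy, hz, e1]
    simp only [lie_add, lie_sub, lie_zsmul, zero_smul, M.cu, M.cv]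
    rw [leibniz_lie M.c M.x1, leibniz_lie M.c M.x2, leibniz_lie M.c M.x3, M.c1, M.c2, M.c3,
      lie_lie M.x3 M.x1 (M.ev x)]
    simp only [zero_lie, zero_add, smul_zero, add_zero]
    abel

/-- The value of a Lie expression. -/
def evE : Ex → L
  | .a => M.a
  | .b => M.b
  | .c => M.c
  | .x1 => M.x1
  | .x2 => M.x2
  | .x3 => M.x3
  | .br e f => ⁅evE e, evE f⁆
  | .pl e f => evE e + evE f

theorem ev_act (e : Ex) (t : Tr) : M.ev (act e t) = ⁅M.evE e, M.ev t⁆ := by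
  induction e generalizing t with
  | a => exact M.ev_opa t
  | b => exact M.ev_opb t
  | c => exact M.ev_opc t
  | x1 => exact M.ev_1 t
  | x2 => exact M.ev_2 t
  | x3 => exact M.ev_3 t
  | br e f he hf =>
    unfold act evE
    rw [ev_sub, he, hf, hf, he, lie_lie]
  | pl e f he hf =>
    unfold act evE
    rw [ev_add, he, hf, add_lie]

theorem x_u : ⁅M.evE xE, M.u⁆ = 0 := by
  have h := M.ev_act xE (.nd 1 0 .nil .nil .nil)
  rw [M.ev_isZ check_u] at h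
  have e : M.ev (.nd 1 0 .nil .nil .nil) = M.u := by simp [ev]
  rw [e] at h
  exact h.symm

theorem x_v : ⁅M.evE xE, M.v⁆ = 0 := by
  have h := M.ev_act xE (.nd 0 1 .nil .nil .nil)
  rw [M.ev_isZ check_v] at h
  have e : M.ev (.nd 0 1 .nil .nil .nil) = M.v := by simp [ev]
  rw [e] at h
  exact h.symm

end McRel

end Pool.Agent.Helper90.QP
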