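import Mathlib
import Pool.Agent.Helper90.QP.McC
import Pool.Agent.Helper90.QP.Assoc

/-!
The generators of the group of basis-conjugating automorphisms and their relations.
-/

namespace Pool.Agent.Helper90.QP

open BurnLie Q28.FreeLieV
open scoped commutatorElement

set_option linter.unusedSimpArgs false

/-- The underlying endomorphism of a generator. -/
def kf (k l : Fin 4) : FreeGroup (Fin 4) →* FreeGroup (Fin 4) :=
  FreeGroup.lift fun i => if i = k then FreeGroup.of l * FreeGroup.of k * (FreeGroup.of l)⁻¹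
    else FreeGroup.of i

/-- The underlying endomorphism of the inverse of a generator. -/
def kb (k l : Fin 4) : FreeGroup (Fin 4) →* FreeGroup (Fin 4) :=
  FreeGroup.lift fun i => if i = k then (FreeGroup.of l)⁻¹ * FreeGroup.of k * FreeGroup.of l
    else FreeGroup.of i

theorem kf_of (k l i : Fin 4) : kf k l (FreeGroup.of i) =
    if i = k then FreeGroup.of l * FreeGroup.of k * (FreeGroup.of l)⁻¹ else FreeGroup.of i := by
  unfold kf; rw [FreeGroup.lift_apply_of]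

theorem kb_of (k l i : Fin 4) : kb k l (FreeGroup.of i) =
    if i = k then (FreeGroup.of l)⁻¹ * FreeGroup.of k * FreeGroup.of l else FreeGroup.of i := by
  unfold kb; rw [FreeGroup.lift_apply_of]

theorem kf_l (k l : Fin 4) : kf k l (FreeGroup.of l) = FreeGroup.of l := by
  rw [kf_of]
  split_ifs with h
  · rw [← h]; group
  · rfl

theorem kb_l (k l : Fin 4) : kb k l (FreeGroup.of l) = FreeGroup.of l := by
  rw [kb_of]
  split_ifs with h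
  · rw [← h]; group
  · rfl

theorem kf_kb (k l : Fin 4) (w : FreeGroup (Fin 4)) : kf k l (kb k l w) = w := by
  have h : (kf k l).comp (kb k l) = MonoidHom.id _ := by
    apply FreeGroup.ext_hom
    intro i
    change kf k l (kb k l (FreeGroup.of i)) = FreeGroup.of i
    rw [kb_of]
    split_ifs with h
    · rw [map_mul, map_mul, map_inv, kf_l, kf_of, if_pos rfl, h]; group
    · rw [kf_of, if_neg h]
  exact DFunLike.congr_fun h w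

theorem kb_kf (k l : Fin 4) (w : FreeGroup (Fin 4)) : kb k l (kf k l w) = w := by
  have h : (kb k l).comp (kf k l) = MonoidHom.id _ := by
    apply FreeGroup.ext_hom
    intro i
    change kb k l (kf k l (FreeGroup.of i)) = FreeGroup.of i
    rw [kf_of]
    split_ifs with h
    · rw [map_mul, map_mul, map_inv, kb_l, kb_of, if_pos rfl, h]; group
    · rw [kb_of, if_neg h]
  exact DFunLike.congr_fun h w

/-- A generator: `x_k ↦ x_l x_k x_l⁻¹`. -/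
def KK (k l : Fin 4) : GG :=
  ⟨{ toFun := kf k l
     invFun := kb k l
     left_inv := kb_kf k l
     right_inv := kf_kb k l
     map_mul' := map_mul (kf k l) }, by
    intro i
    change ∃ w, kf k l (FreeGroup.of i) = w * FreeGroup.of i * w⁻¹
    rw [kf_of]
    split_ifs with h
    · exact ⟨FreeGroup.of l, by rw [h]⟩
    · exact ⟨1, by simp⟩⟩

theorem KK_apply (k l : Fin 4) (w : FreeGroup (Fin 4)) : (KK k l).1 w = kf k l w := rfl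

theorem GG_ext {g h : GG} (H : ∀ i, g.1 (FreeGroup.of i) = h.1 (FreeGroup.of i)) : g = h := by
  apply Subtype.ext
  apply MulEquiv.ext
  intro w
  have h2 : (g.1 : FreeGroup (Fin 4) ≃* FreeGroup (Fin 4)).toMonoidHom =
      (h.1 : FreeGroup (Fin 4) ≃* FreeGroup (Fin 4)).toMonoidHom := FreeGroup.ext_hom _ _ H
  exact DFunLike.congr_fun h2 w

theorem GG_mul (g h : GG) (w : FreeGroup (Fin 4)) : (g * h).1 w = g.1 (h.1 w) := rfl

/-- The same conjugating letter. -/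
theorem K_same (k m l : Fin 4) (h1 : k ≠ m) (h2 : k ≠ l) (h3 : m ≠ l) : KK k l * KK m l = KK m l * KK k l := by
  apply GG_ext
  intro i
  simp only [GG_mul, KK_apply, kf_of]
  by_cases hk : i = k
  · subst hk
    simp [h1, h1.symm, h2, h2.symm, h3, h3.symm, kf_of]
  · by_cases hm : i = m
    · subst hm
      simp [h1, h1.symm, h2, h2.symm, h3, h3.symm, kf_of]
    · simp [hk, hm, kf_of]

/-- Disjoint indices. -/
theorem K_disj (k l m n : Fin 4) (h1 : k ≠ m) (h2 : k ≠ n) (h3 : l ≠ m) :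
    KK k l * KK m n = KK m n * KK k l := by
  apply GG_ext
  intro i
  simp only [GG_mul, KK_apply, kf_of]
  by_cases hk : i = k
  · subst hk
    simp [h1, h1.symm, h2, h2.symm, h3, h3.symm, kf_of]
  · by_cases hm : i = m
    · subst hm
      simp [h1, h1.symm, h2, h2.symm, h3, h3.symm, kf_of]
    · simp [hk, hm, kf_of]

/-- The relation of three indices. -/
theorem K_tri (i j k : Fin 4) (h1 : i ≠ j) (h2 : i ≠ k) (h3 : j ≠ k) :
    (KK i k * KK j k) * KK i j = KK i j * (KK i k * KK j k) := by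
  apply GG_ext
  intro m
  simp only [GG_mul, KK_apply, kf_of]
  by_cases hi : m = i
  · subst hi
    simp [h1, h1.symm, h2, h2.symm, h3, h3.symm, kf_of]
    group
  · by_cases hj : m = j
    · subst hj
      simp [h1, h1.symm, h2, h2.symm, h3, h3.symm, kf_of]
    · simp [hi, hj, kf_of]

/-- The class of an element in degree one. -/
noncomputable def cl (h : GG) : AssocLie GG := mkL 0 ⟨h, Subgroup.mem_top h⟩

theorem cl_mul (g h : GG) : cl (g * h) = cl g + cl h := by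
  unfold cl; rw [← mkL_mul]; rfl

theorem AL_lie (m n : ℕ) (g : lcs GG m) (h : lcs GG n) :
    ⁅mkL m g, mkL n h⁆ = mkL (m + n + 1) ⟨⁅(g : GG), (h : GG)⁆, lcs_comm_mem g.2 h.2⟩ :=
  lieHom_mkL m n g h

theorem cl_comm {g h : GG} (H : g * h = h * g) : ⁅cl g, cl h⁆ = 0 := by
  unfold cl
  rw [AL_lie]
  have e : ⁅g, h⁆ = 1 := commutatorElement_eq_one_iff_mul_comm.2 H
  rw [mkL_of_mem]
  change ⁅g, h⁆ ∈ lcs GG (0 + 0 + 1 + 1)
  rw [e]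
  exact one_mem _

theorem cl_tri (i j k : Fin 4) (h1 : i ≠ j) (h2 : i ≠ k) (h3 : j ≠ k) :
    ⁅cl (KK i j), cl (KK i k) + cl (KK j k)⁆ = 0 := by
  rw [← cl_mul]
  exact cl_comm (K_tri i j k h1 h2 h3).symm

/-- The relations of McCool in the associated Lie ring. -/
noncomputable def McG : McRel (AssocLie GG) where
  a := cl (KK 1 0)
  b := cl (KK 2 1)
  c := cl (KK 0 2)
  x1 := cl (KK 1 0) + cl (KK 2 0)
  x2 := cl (KK 0 1) + cl (KK 2 1)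
  x3 := cl (KK 0 2) + cl (KK 1 2)
  u := cl (KK 0 3)
  v := cl (KK 1 3)
  a1 := by
    rw [lie_add, lie_self, zero_add]
    exact cl_comm (K_same 1 2 0 (by decide) (by decide) (by decide))
  a2 := by
    have h := cl_tri 2 0 1 (by decide) (by decide) (by decide)
    rw [add_lie, add_comm (cl (KK 0 1)), h, add_zero]
  a3 := by
    have h := cl_tri 1 0 2 (by decide) (by decide) (by decide)
    rw [add_comm (cl (KK 0 2)), h]
  b1 := by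
    have h := cl_tri 2 1 0 (by decide) (by decide) (by decide)
    rw [add_comm (cl (KK 1 0)), h]
  b2 := by
    rw [lie_add, lie_self, add_zero]
    exact cl_comm (K_same 2 0 1 (by decide) (by decide) (by decide))
  b3 := by
    have h := cl_tri 0 1 2 (by decide) (by decide) (by decide)
    rw [add_lie, h, zero_add]
  c1 := by
    have h := cl_tri 1 2 0 (by decide) (by decide) (by decide)
    rw [add_lie, h, add_zero]
  c2 := by
    exact cl_tri 0 2 1 (by decide) (by decide) (by decide)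
  c3 := by
    rw [lie_add, lie_self, zero_add]
    exact cl_comm (K_same 0 1 2 (by decide) (by decide) (by decide))
  au := by
    have h := cl_tri 1 0 3 (by decide) (by decide) (by decide)
    have h2 : ⁅cl (KK 2 0), cl (KK 1 3)⁆ = 0 :=
      cl_comm (K_disj 2 0 1 3 (by decide) (by decide) (by decide))
    rw [lie_add] at h
    rw [add_lie, h2, add_zero]
    exact eq_neg_of_add_eq_zero_right h
  av := by
    have h2 : ⁅cl (KK 2 0), cl (KK 1 3)⁆ = 0 :=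
      cl_comm (K_disj 2 0 1 3 (by decide) (by decide) (by decide))
    rw [add_lie, h2, add_zero]
  bu := cl_comm (K_disj 2 1 0 3 (by decide) (by decide) (by decide))
  bv := by
    have h := cl_tri 0 1 3 (by decide) (by decide) (by decide)
    have h2 : ⁅cl (KK 2 1), cl (KK 0 3)⁆ = 0 :=
      cl_comm (K_disj 2 1 0 3 (by decide) (by decide) (by decide))
    rw [add_lie, h, zero_add, lie_add, h2, zero_add]
  cu := by
    have h2 : ⁅cl (KK 1 2), cl (KK 0 3)⁆ = 0 :=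
      cl_comm (K_disj 1 2 0 3 (by decide) (by decide) (by decide))
    rw [add_lie, h2, add_zero]
  cv := cl_comm (K_disj 0 2 1 3 (by decide) (by decide) (by decide))

/-- The class of a group element in the associated Lie ring. -/
def Cls (n : ℕ) (x : AssocLie GG) (h : GG) : Prop := ∃ hh : h ∈ lcs GG n, x = mkL n ⟨h, hh⟩

theorem Cls.base (h : GG) : Cls 0 (cl h) h := ⟨_, rfl⟩

theorem Cls.comm {m n : ℕ} {x y : AssocLie GG} {g h : GG} (a : Cls m x g) (b : Cls n y h) :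
    Cls (m + n + 1) ⁅x, y⁆ ⁅g, h⁆ := by
  obtain ⟨ha, rfl⟩ := a
  obtain ⟨hb, rfl⟩ := b
  exact ⟨lcs_comm_mem ha hb, AL_lie m n ⟨g, ha⟩ ⟨h, hb⟩⟩

theorem Cls.mul {n : ℕ} {x y : AssocLie GG} {g h : GG} (a : Cls n x g) (b : Cls n y h) :
    Cls n (x + y) (g * h) := by
  obtain ⟨ha, rfl⟩ := a
  obtain ⟨hb, rfl⟩ := b
  exact ⟨mul_mem ha hb, (mkL_mul n _ _).symm⟩

/-- The element of the sixth term of the lower central series. -/
def gg : GG :=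
  ((⁅⁅⁅⁅KK 1 0, KK 2 1⁆, ⁅KK 2 1, KK 0 2⁆⁆, KK 1 0⁆, KK 0 2⁆ *
    ⁅⁅⁅⁅KK 2 1, KK 0 2⁆, ⁅KK 0 2, KK 1 0⁆⁆, KK 2 1⁆, KK 1 0⁆) *
    ⁅⁅⁅⁅KK 0 2, KK 1 0⁆, ⁅KK 1 0, KK 2 1⁆⁆, KK 0 2⁆, KK 2 1⁆) *
    ⁅⁅KK 0 1 * KK 2 1, ⁅KK 0 2 * KK 1 2, KK 1 0 * KK 2 0⁆⁆,
      ⁅KK 1 0 * KK 2 0, ⁅KK 0 1 * KK 2 1, KK 0 2 * KK 1 2⁆⁆⁆

theorem cls_gen {a b c x1 x2 x3 : AssocLie GG} {ga gb gc g1 g2 g3 : GG} (ha : Cls 0 a ga)
    (hb : Cls 0 b gb) (hc : Cls 0 c gc) (h1 : Cls 0 x1 g1) (h2 : Cls 0 x2 g2) (h3 : Cls 0 x3 g3) :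
    Cls 5 (⁅⁅⁅⁅a, b⁆, ⁅b, c⁆⁆, a⁆, c⁆ + ⁅⁅⁅⁅b, c⁆, ⁅c, a⁆⁆, b⁆, a⁆ + ⁅⁅⁅⁅c, a⁆, ⁅a, b⁆⁆, c⁆, b⁆ +
      ⁅⁅x2, ⁅x3, x1⁆⁆, ⁅x1, ⁅x2, x3⁆⁆⁆)
    (((⁅⁅⁅⁅ga, gb⁆, ⁅gb, gc⁆⁆, ga⁆, gc⁆ * ⁅⁅⁅⁅gb, gc⁆, ⁅gc, ga⁆⁆, gb⁆, ga⁆) *
      ⁅⁅⁅⁅gc, ga⁆, ⁅ga, gb⁆⁆, gc⁆, gb⁆) * ⁅⁅g2, ⁅g3, g1⁆⁆, ⁅g1, ⁅g2, g3⁆⁆⁆) := by
  have hab := ha.comm hb
  have hbc := hb.comm hc
  have hca := hc.comm ha
  have k1 := ((hab.comm hbc).comm ha).comm hc
  have k2 := ((hbc.comm hca).comm hb).comm ha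
  have k3 := ((hca.comm hab).comm hc).comm hb
  have k4 := (h2.comm (h3.comm h1)).comm (h1.comm (h2.comm h3))
  exact ((k1.mul k2).mul k3).mul k4

theorem evE_x {L : Type} [LieRing L] (M : McRel L) : M.evE xE =
    ⁅⁅⁅⁅M.a, M.b⁆, ⁅M.b, M.c⁆⁆, M.a⁆, M.c⁆ + ⁅⁅⁅⁅M.b, M.c⁆, ⁅M.c, M.a⁆⁆, M.b⁆, M.a⁆ +
      ⁅⁅⁅⁅M.c, M.a⁆, ⁅M.a, M.b⁆⁆, M.c⁆, M.b⁆ + ⁅⁅M.x2, ⁅M.x3, M.x1⁆⁆, ⁅M.x1, ⁅M.x2, M.x3⁆⁆⁆ := rfl

theorem cls_gg : Cls 5 (McG.evE xE) gg := by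
  rw [evE_x]
  exact cls_gen (Cls.base (KK 1 0)) (Cls.base (KK 2 1)) (Cls.base (KK 0 2))
    ((Cls.base (KK 1 0)).mul (Cls.base (KK 2 0))) ((Cls.base (KK 0 1)).mul (Cls.base (KK 2 1)))
    ((Cls.base (KK 0 2)).mul (Cls.base (KK 1 2)))

theorem McG_u : McG.u = cl (KK 0 3) := rfl
theorem McG_v : McG.v = cl (KK 1 3) := rfl

theorem mem_of_cls {n : ℕ} {x y : AssocLie GG} {g h : GG} (a : Cls n x g) (b : Cls 0 y h)
    (e : ⁅x, y⁆ = 0) : ⁅g, h⁆ ∈ lcs GG (n + 2) := by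
  have h := a.comm b
  rw [e] at h
  obtain ⟨h1, e1⟩ := h
  exact mkL_eq_zero e1.symm

attribute [irreducible] gg

/-- The two elements of the eighth term of the lower central series. -/
theorem gu_mem : ⁅gg, KK 0 3⁆ ∈ lcs GG 7 := by
  have h := McG.x_u
  rw [McG_u] at h
  exact mem_of_cls cls_gg (Cls.base (KK 0 3)) h

theorem gv_mem : ⁅gg, KK 1 3⁆ ∈ lcs GG 7 := by
  have h := McG.x_v
  rw [McG_v] at h
  exact mem_of_cls cls_gg (Cls.base (KK 1 3)) h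

theorem witt_aux {G : Type} [Group G] (A B u v : G) :
    (A * ⁅u, B⁆ * A⁻¹) * ⁅A, B⁆ * (B * ⁅A, v⁆ * B⁻¹) =
      (A * (u * B * u⁻¹)) * (B * (v * A * v⁻¹))⁻¹ := by
  simp only [commutatorElement_def]
  group

/-- The group identity behind the relation of degree nine. -/
theorem witt_like {G : Type} [Group G] (g u v : G) (h : u * v = v * u) :
    (⁅g, u⁆ * ⁅u, ⁅g, v⁆⁆ * ⁅g, u⁆⁻¹) * ⁅⁅g, u⁆, ⁅g, v⁆⁆ *
      (⁅g, v⁆ * ⁅⁅g, u⁆, v⁆ * ⁅g, v⁆⁻¹) = 1 := by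
  rw [witt_aux]
  have h1 : ∀ x y : G, ⁅g, x⁆ * (x * ⁅g, y⁆ * x⁻¹) = g * (x * y) * g⁻¹ * (x * y)⁻¹ := by
    intro x y
    simp only [commutatorElement_def]
    group
  rw [h1, h1, h, mul_inv_cancel]

theorem uv_comm : KK 0 3 * KK 1 3 = KK 1 3 * KK 0 3 :=
  K_same 0 1 3 (by decide) (by decide) (by decide)

theorem rel_gen {A B u v : GG} (hA : A ∈ lcs GG 7) (hB : B ∈ lcs GG 7)
    (hAv : ⁅A, v⁆ ∈ lcs GG 8) (huB : ⁅u, B⁆ ∈ lcs GG 8)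
    (key : (A * ⁅u, B⁆ * A⁻¹) * ⁅A, B⁆ * (B * ⁅A, v⁆ * B⁻¹) = 1) :
    mkL 8 ⟨⁅A, v⁆, hAv⟩ + mkL 8 ⟨⁅u, B⁆, huB⟩ = 0 := by
  have hAB : ⁅A, B⁆ ∈ lcs GG 9 :=
    lcs_anti (m := 9) (n := 15) (by norm_num) (lcs_comm_mem (m := 7) (n := 7) hA hB)
  have hAB' : ⁅A, B⁆ ∈ lcs GG 8 := lcs_anti (m := 8) (n := 9) (by norm_num) hAB
  have c1 : A * ⁅u, B⁆ * A⁻¹ ∈ lcs GG 8 := conj_mem' A huB
  have c2 : B * ⁅A, v⁆ * B⁻¹ ∈ lcs GG 8 := conj_mem' B hAv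
  have e1 : mkL 8 ⟨_, c1⟩ = mkL 8 ⟨_, huB⟩ := mkL_conj 8 A ⟨_, huB⟩ ⟨_, c1⟩ rfl
  have e2 : mkL 8 ⟨_, c2⟩ = mkL 8 ⟨_, hAv⟩ := mkL_conj 8 B ⟨_, hAv⟩ ⟨_, c2⟩ rfl
  have e3 : mkL 8 ⟨_, hAB'⟩ = 0 := mkL_of_mem (n := 8) (g := ⟨_, hAB'⟩) hAB
  have e4 : mkL 8 ⟨_, c1⟩ + mkL 8 ⟨_, hAB'⟩ + mkL 8 ⟨_, c2⟩ = 0 := by
    rw [← mkL_mul, ← mkL_mul, ← mkL_one 8]
    congr 1
    exact Subtype.ext key
  rw [e1, e2, e3, add_zero] at e4
  rw [add_comm]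
  exact e4

/-- The relation of degree nine. -/
theorem rel_nine (hAv : ⁅⁅gg, KK 0 3⁆, KK 1 3⁆ ∈ lcs GG 8) (huB : ⁅KK 0 3, ⁅gg, KK 1 3⁆⁆ ∈ lcs GG 8) :
    mkL 8 ⟨⁅⁅gg, KK 0 3⁆, KK 1 3⁆, hAv⟩ + mkL 8 ⟨⁅KK 0 3, ⁅gg, KK 1 3⁆⁆, huB⟩ = 0 :=
  rel_gen gu_mem gv_mem hAv huB (witt_like gg (KK 0 3) (KK 1 3) uv_comm)

end Pool.Agent.Helper90.QP
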