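import Mathlib
import Pool.Agent.Helper90.QP.NatMat

/-!
A computation with packed matrices.
-/

namespace Pool.Agent.Helper90.QP

/-- Indices. -/
inductive I4 where
  | i0 : I4
  | i1 : I4
  | i2 : I4
  | i3 : I4

/-- Words in the generators. -/
inductive WW where
  | g : I4 → I4 → WW
  | mul : WW → WW → WW
  | com : WW → WW → WW

/-- The state of the computation. -/
structure St where
  p0 : ℕ
  p1 : ℕ
  p2 : ℕ
  p3 : ℕ
  q0 : ℕ
  q1 : ℕ
  q2 : ℕ
  q3 : ℕ

/-- The components. -/
def St.p (s : St) : I4 → ℕ
  | .i0 => s.p0
  | .i1 => s.p1
  | .i2 => s.p2
  | .i3 => s.p3

/-- The components. -/
def St.q (s : St) : I4 → ℕ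
  | .i0 => s.q0
  | .i1 => s.q1
  | .i2 => s.q2
  | .i3 => s.q3

/-- Replaces the components with the given index. -/
def upd (s : St) (x y : ℕ) : I4 → St
  | .i0 => ⟨x, s.p1, s.p2, s.p3, y, s.q1, s.q2, s.q3⟩
  | .i1 => ⟨s.p0, x, s.p2, s.p3, s.q0, y, s.q2, s.q3⟩
  | .i2 => ⟨s.p0, s.p1, x, s.p3, s.q0, s.q1, y, s.q3⟩
  | .i3 => ⟨s.p0, s.p1, s.p2, x, s.q0, s.q1, s.q2, y⟩

/-- The product of packed matrices of size 27. -/
def mN (a b : ℕ) : ℕ := mulAux 27
  21040543762957761137983724327298642625287149378200820854933729661974485906479391503224264265742110183186889057495989308313374259913359961368043083373680930436489928722177779993045419942871656049753825435285716993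
  134217727 27 a b 0

theorem mN_eq (a b : ℕ) : mN a b = mulN 27 a b := by
  have h : 21040543762957761137983724327298642625287149378200820854933729661974485906479391503224264265742110183186889057495989308313374259913359961368043083373680930436489928722177779993045419942871656049753825435285716993 =
    colN 27 27 := by decide +kernel
  have h2 : 134217727 = 2 ^ 27 - 1 := by norm_num
  unfold mN mulN
  rw [h, h2]

/-- One step. -/
def stepAux (k : I4) (x y : ℕ) (s : St) : St :=
  force (mN x (s.p k)) fun t => force (mN t y) fun t' =>
  force (mN x (s.q k)) fun r => force (mN r y) fun r' => upd s t' r' k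

/-- One step. -/
def stepE (k l : I4) : Bool → St → St
  | true, s => stepAux k (s.p l) (s.q l) s
  | false, s => stepAux k (s.q l) (s.p l) s

/-- One step. -/
def step (k l : I4) (e : Bool) (s : St) : St :=
  match s with
  | ⟨a, b, c, d, a', b', c', d'⟩ => stepE k l e ⟨a, b, c, d, a', b', c', d'⟩

/-- The computation. -/
def run : WW → Bool → St → St
  | .g k l, e, s => step k l e s
  | .mul x y, true, s => run y true (run x true s)
  | .mul x y, false, s => run x false (run y false s)
  | .com x y, true, s => run y false (run x false (run y true (run x true s)))
  | .com x y, false, s => run x false (run y false (run x true (run y true s)))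

/-- The initial state. -/
def init : St := ⟨
  1412006984614244669618461243971725891786210742592177306268300006826947877928899062135431474660308693435089339964060705723109314003346653847682555374466667778590674366863571342017688139237437609110785390580556154196197379,
  1412006984614244669618461243971723716244984060591515411326235301038023631685961372001390189476346121931609607589227826833207958621213642151540539437569433550839882628422791179568398615861272807309149493669370668991381505,
  1412006984614244669618461243971723716244984060591515411326235301038861619678461035758168154218622679835994720721058180726992456633289334462643539149708724161767656135897894877377039329039898499152874642167474115189932035,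
  1412006984614244669618461243971728067327421215547587876432823378861018715706538294723014215725826608651045025407799726295015732402003616982011612097016193561226737776959983956591262539950790070501767812140855076379951105,
  1412006984614244669618461243971725891786210742592177306268300006826947877928899062135431474660308693435089339964060705723109314003346653847682555374466667778590674366863571342017688139237437609110785390580556154196197379,
  1412006984614244669618461243971723716244984060591515411326235301038023631685961372001390189476346121931609607589227826833207958621213642151540539437569433550839882628422791179568398615861272807309149493669370668991381505,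
  1412006984614244669618461243971723716244984060591515411326235301038861619678461035758168154218622679835994720721058180726992456633289334462643539149708724161767656135897894877377039329039898499152874642167474115189932039,
  1412006984614244669618461243971728067327421215547587876432823378861018715706538294723014215725826608651045025407799726295015732402003616982011612097016193561226737776959983956591262539950790070501767812140855076379951105⟩

/-- The word of the element of the sixth term of the lower central series. -/
def wg : WW :=
  .mul (.mul (.mul
    (.com (.com (.com (.com (.g .i1 .i0) (.g .i2 .i1)) (.com (.g .i2 .i1) (.g .i0 .i2))) (.g .i1 .i0)) (.g .i0 .i2))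
    (.com (.com (.com (.com (.g .i2 .i1) (.g .i0 .i2)) (.com (.g .i0 .i2) (.g .i1 .i0))) (.g .i2 .i1)) (.g .i1 .i0)))
    (.com (.com (.com (.com (.g .i0 .i2) (.g .i1 .i0)) (.com (.g .i1 .i0) (.g .i2 .i1))) (.g .i0 .i2)) (.g .i2 .i1)))
    (.com (.com (.mul (.g .i0 .i1) (.g .i2 .i1)) (.com (.mul (.g .i0 .i2) (.g .i1 .i2)) (.mul (.g .i1 .i0) (.g .i2 .i0))))
      (.com (.mul (.g .i1 .i0) (.g .i2 .i0)) (.com (.mul (.g .i0 .i1) (.g .i2 .i1)) (.mul (.g .i0 .i2) (.g .i1 .i2)))))

/-- The word of the element of the eighth term of the lower central series. -/
def wb : WW := .com wg (.g .i1 .i3)

/-- The check of the final state. -/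
def good (s : St) : Bool :=
  match s with
  | ⟨a, _, c, _, _, _, _, _⟩ =>
    (!(a.testBit 12)) && (!(a.testBit 19)) && (a.testBit 26) &&
    (!(c.testBit 12)) && (!(c.testBit 19)) && (!(c.testBit 26))

theorem numcheck : good (run wb true init) = true := by decide +kernel

end Pool.Agent.Helper90.QP
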