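import Mathlib
import Pool.Agent.Helper90.QP.Num
import Pool.Agent.Helper90.QP.Grp

/-!
The meaning of the computation with packed matrices.
-/

namespace Pool.Agent.Helper90.QP

open scoped commutatorElement

/-- The matrices of size 27. -/
abbrev M27 : Type := Matrix (Fin 27) (Fin 27) (ZMod 2)

theorem mat_mN (a b : ℕ) : mat 27 (mN a b) = mat 27 a * mat 27 b := by
  rw [mN_eq, mat_mulN 27 (by norm_num)]

/-- The packed identity matrix. -/
def oneN : ℕ := 1 ||| colN 28 27

theorem mat_one : mat 27 (colN 28 27) = 1 := by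
  have h : ∀ i j : Fin 27, (colN 28 27).testBit (27 * i + j) = decide (i = j) := by
    decide +kernel
  ext i j
  rw [mat_apply, h, Matrix.one_apply]
  by_cases hij : i = j
  · rw [if_pos hij, decide_eq_true hij]; rfl
  · rw [if_neg hij, decide_eq_false hij]; rfl

/-- Packed generators. -/
def uN : Fin 4 → ℕ
  | 0 => init.p0
  | 1 => init.p1
  | 2 => init.p2
  | 3 => init.p3

/-- Packed inverses of the generators. -/
def vN : Fin 4 → ℕ
  | 0 => init.q0
  | 1 => init.q1
  | 2 => init.q2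
  | 3 => init.q3

theorem chk_uv : ∀ j : Fin 4, mN (uN j) (vN j) = colN 28 27 ∧ mN (vN j) (uN j) = colN 28 27 := by
  decide +kernel

/-- The unipotent representation. -/
def yg (j : Fin 4) : M27ˣ where
  val := mat 27 (uN j)
  inv := mat 27 (vN j)
  val_inv := by rw [← mat_mN, (chk_uv j).1, mat_one]
  inv_val := by rw [← mat_mN, (chk_uv j).2, mat_one]

/-- The unipotent representation. -/
def YY : FreeGroup (Fin 4) →* M27ˣ := FreeGroup.lift yg

theorem YY_of (j : Fin 4) : YY (FreeGroup.of j) = yg j := by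
  unfold YY; rw [FreeGroup.lift_apply_of]

/-- The index. -/
def I4.f : I4 → Fin 4
  | .i0 => 0
  | .i1 => 1
  | .i2 => 2
  | .i3 => 3

theorem I4.f_inj {i j : I4} (h : i.f = j.f) : i = j := by
  cases i <;> cases j <;> first | rfl | (exfalso; revert h; decide)

/-- The group element of a word. -/
def evW : WW → GG
  | .g k l => KK k.f l.f
  | .mul x y => evW x * evW y
  | .com x y => ⁅evW x, evW y⁆

/-- The sign. -/
def sgn (e : Bool) (g : GG) : GG := if e then g else g⁻¹

/-- The state describes the automorphism. -/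
def Inv (φ : GG) (s : St) : Prop :=
  ∀ i : I4, mat 27 (s.p i) = ((YY (φ.1 (FreeGroup.of i.f)) : M27ˣ) : M27) ∧
    mat 27 (s.q i) = (((YY (φ.1 (FreeGroup.of i.f)))⁻¹ : M27ˣ) : M27)

theorem inv_init : Inv 1 init := by
  intro i
  change _ = ((YY (FreeGroup.of i.f) : M27ˣ) : M27) ∧ _ = (((YY (FreeGroup.of i.f))⁻¹ : M27ˣ) : M27)
  rw [YY_of]
  cases i <;> exact ⟨rfl, rfl⟩

theorem upd_p (s : St) (x y : ℕ) (k i : I4) :
    (upd s x y k).p i = if i.f = k.f then x else s.p i := by
  cases k <;> cases i <;> rfl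

theorem upd_q (s : St) (x y : ℕ) (k i : I4) :
    (upd s x y k).q i = if i.f = k.f then y else s.q i := by
  cases k <;> cases i <;> rfl

theorem stepAux_p (k i : I4) (x y : ℕ) (s : St) : (stepAux k x y s).p i =
    if i.f = k.f then mN (mN x (s.p k)) y else s.p i := by
  unfold stepAux
  rw [force_eq, force_eq, force_eq, force_eq, upd_p]

theorem stepAux_q (k i : I4) (x y : ℕ) (s : St) : (stepAux k x y s).q i =
    if i.f = k.f then mN (mN x (s.q k)) y else s.q i := by
  unfold stepAux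
  rw [force_eq, force_eq, force_eq, force_eq, upd_q]

theorem step_eq (k l : I4) (e : Bool) (s : St) : step k l e s = stepE k l e s := by
  cases s; rfl

theorem KK_inv_apply (k l : Fin 4) (w : FreeGroup (Fin 4)) : ((KK k l)⁻¹).1 w = kb k l w := rfl

theorem u_one {M : Type} [Monoid M] (P Q : Mˣ) : (P : M) * (Q : M) * ((P⁻¹ : Mˣ) : M) =
    ((P * Q * P⁻¹ : Mˣ) : M) := by
  rw [Units.val_mul, Units.val_mul]

theorem u_two {M : Type} [Monoid M] (P Q : Mˣ) : (P : M) * ((Q⁻¹ : Mˣ) : M) * ((P⁻¹ : Mˣ) : M) =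
    (((P * Q * P⁻¹)⁻¹ : Mˣ) : M) := by
  rw [← Units.val_mul, ← Units.val_mul]
  congr 1
  group

theorem u_three {M : Type} [Monoid M] (P Q : Mˣ) : ((P⁻¹ : Mˣ) : M) * (Q : M) * (P : M) =
    ((P⁻¹ * Q * P : Mˣ) : M) := by
  rw [Units.val_mul, Units.val_mul]

theorem u_four {M : Type} [Monoid M] (P Q : Mˣ) : ((P⁻¹ : Mˣ) : M) * ((Q⁻¹ : Mˣ) : M) * (P : M) =
    (((P⁻¹ * Q * P)⁻¹ : Mˣ) : M) := by
  rw [← Units.val_mul, ← Units.val_mul]
  congr 1
  group

theorem inv_step {φ : GG} {s : St} (h : Inv φ s) (k l : I4) (e : Bool) :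
    Inv (φ * sgn e (KK k.f l.f)) (step k l e s) := by
  rw [step_eq]
  intro i
  cases e with
  | true =>
    have h1 : (φ * sgn true (KK k.f l.f)).1 (FreeGroup.of i.f) =
        φ.1 (kf k.f l.f (FreeGroup.of i.f)) := rfl
    rw [h1, kf_of]
    unfold stepE
    rw [stepAux_p, stepAux_q]
    by_cases hi : i.f = k.f
    · rw [if_pos hi, if_pos hi, if_pos hi, mat_mN, mat_mN, mat_mN, mat_mN, (h l).1, (h l).2,
        (h k).1, (h k).2, map_mul, map_mul, map_inv, map_mul, map_mul, map_inv]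
      exact ⟨u_one _ _, u_two _ _⟩
    · rw [if_neg hi, if_neg hi, if_neg hi]
      exact h i
  | false =>
    have h1 : (φ * sgn false (KK k.f l.f)).1 (FreeGroup.of i.f) =
        φ.1 (kb k.f l.f (FreeGroup.of i.f)) := rfl
    rw [h1, kb_of]
    unfold stepE
    rw [stepAux_p, stepAux_q]
    by_cases hi : i.f = k.f
    · rw [if_pos hi, if_pos hi, if_pos hi, mat_mN, mat_mN, mat_mN, mat_mN, (h l).1, (h l).2,
        (h k).1, (h k).2, map_mul, map_mul, map_mul, map_mul, map_inv, map_inv]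
      exact ⟨u_three _ _, u_four _ _⟩
    · rw [if_neg hi, if_neg hi, if_neg hi]
      exact h i

theorem inv_run (w : WW) : ∀ (e : Bool) {φ : GG} {s : St}, Inv φ s →
    Inv (φ * sgn e (evW w)) (run w e s) := by
  induction w with
  | g k l => intro e φ s h; exact inv_step h k l e
  | mul x y hx hy =>
    intro e φ s h
    cases e with
    | true =>
      have h1 := hy true (hx true h)
      have e1 : φ * sgn true (evW x) * sgn true (evW y) = φ * sgn true (evW (.mul x y)) := by
        simp only [sgn, evW, if_true]; group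
      rw [e1] at h1
      exact h1
    | false =>
      have h1 := hx false (hy false h)
      have e1 : φ * sgn false (evW y) * sgn false (evW x) = φ * sgn false (evW (.mul x y)) := by
        simp only [sgn, evW, Bool.false_eq_true, if_false]; group
      rw [e1] at h1
      exact h1
  | com x y hx hy =>
    intro e φ s h
    cases e with
    | true =>
      have h1 := hy false (hx false (hy true (hx true h)))
      have e1 : φ * sgn true (evW x) * sgn true (evW y) * sgn false (evW x) * sgn false (evW y) =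
          φ * sgn true (evW (.com x y)) := by
        simp only [sgn, evW, if_true, Bool.false_eq_true, if_false, commutatorElement_def]; group
      rw [e1] at h1
      exact h1
    | false =>
      have h1 := hx false (hy false (hx true (hy true h)))
      have e1 : φ * sgn true (evW y) * sgn true (evW x) * sgn false (evW y) * sgn false (evW x) =
          φ * sgn false (evW (.com x y)) := by
        simp only [sgn, evW, if_true, Bool.false_eq_true, if_false, commutatorElement_def]; group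
      rw [e1] at h1
      exact h1

theorem evW_wb : evW wb = ⁅gg, KK 1 3⁆ := by
  unfold gg
  rfl

theorem good_spec {s : St} (h : good s = true) :
    (s.p .i0).testBit 12 = false ∧ (s.p .i0).testBit 19 = false ∧ (s.p .i0).testBit 26 = true ∧
    (s.p .i2).testBit 12 = false ∧ (s.p .i2).testBit 19 = false ∧ (s.p .i2).testBit 26 = false := by
  obtain ⟨a, b, c, d, a', b', c', d'⟩ := s
  unfold good at h
  simp only [Bool.and_eq_true, Bool.not_eq_true'] at h
  obtain ⟨⟨⟨⟨⟨h1, h2⟩, h3⟩, h4⟩, h5⟩, h6⟩ := h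
  exact ⟨h1, h2, h3, h4, h5, h6⟩

theorem mat_row (a : ℕ) (j : Fin 27) : mat 27 a 0 j = bz (a.testBit j) := by
  rw [mat_apply]
  congr 2
  change 27 * 0 + (j : ℕ) = j
  rw [mul_zero, zero_add]

theorem entries_of {φ : GG} {s : St} (h : Inv φ s) (hg : good s = true) :
    ((YY (φ.1 (FreeGroup.of 0)) : M27ˣ) : M27) 0 12 = 0 ∧
    ((YY (φ.1 (FreeGroup.of 0)) : M27ˣ) : M27) 0 19 = 0 ∧
    ((YY (φ.1 (FreeGroup.of 0)) : M27ˣ) : M27) 0 26 = 1 ∧
    ((YY (φ.1 (FreeGroup.of 2)) : M27ˣ) : M27) 0 12 = 0 ∧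
    ((YY (φ.1 (FreeGroup.of 2)) : M27ˣ) : M27) 0 19 = 0 ∧
    ((YY (φ.1 (FreeGroup.of 2)) : M27ˣ) : M27) 0 26 = 0 := by
  obtain ⟨g1, g2, g3, g4, g5, g6⟩ := good_spec hg
  have h0 := (h .i0).1
  have h2 := (h .i2).1
  change _ = ((YY (φ.1 (FreeGroup.of 0)) : M27ˣ) : M27) at h0
  change _ = ((YY (φ.1 (FreeGroup.of 2)) : M27ˣ) : M27) at h2
  rw [← h0, ← h2, mat_row, mat_row, mat_row, mat_row, mat_row, mat_row]
  refine ⟨?_, ?_, ?_, ?_, ?_, ?_⟩
  · exact congrArg bz g1
  · exact congrArg bz g2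
  · exact congrArg bz g3
  · exact congrArg bz g4
  · exact congrArg bz g5
  · exact congrArg bz g6

theorem inv_wb : Inv ⁅gg, KK 1 3⁆ (run wb true init) := by
  have h := inv_run wb true inv_init
  have e1 : (1 : GG) * sgn true (evW wb) = ⁅gg, KK 1 3⁆ := by
    rw [evW_wb, one_mul]; rfl
  rw [e1] at h
  exact h

/-- The entries of the matrices of the images of the first and the third generators. -/
theorem entries :
    ((YY (⁅gg, KK 1 3⁆.1 (FreeGroup.of 0)) : M27ˣ) : M27) 0 12 = 0 ∧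
    ((YY (⁅gg, KK 1 3⁆.1 (FreeGroup.of 0)) : M27ˣ) : M27) 0 19 = 0 ∧
    ((YY (⁅gg, KK 1 3⁆.1 (FreeGroup.of 0)) : M27ˣ) : M27) 0 26 = 1 ∧
    ((YY (⁅gg, KK 1 3⁆.1 (FreeGroup.of 2)) : M27ˣ) : M27) 0 12 = 0 ∧
    ((YY (⁅gg, KK 1 3⁆.1 (FreeGroup.of 2)) : M27ˣ) : M27) 0 19 = 0 ∧
    ((YY (⁅gg, KK 1 3⁆.1 (FreeGroup.of 2)) : M27ˣ) : M27) 0 26 = 0 :=
  entries_of inv_wb numcheck

end Pool.Agent.Helper90.QP
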