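import Mathlib
import Pool.Agent.Helper90.QP.Num2
import Pool.Agent.Helper90.QP.Detect2

/-!
The link between the computation and the detecting Lie algebra.
-/

namespace Pool.Agent.Helper90.QP

open Matrix BurnLie Q28.FreeLieV
open scoped commutatorElement

/-- Packed matrices of size eight. -/
def m8N : Fin 4 → ℕ
  | 0 => 1075843088
  | 1 => 8813272891392
  | 2 => 2256206450130960
  | 3 => 2147483648

/-- The matrices of size eight. -/
def M8 (j : Fin 4) : Matrix (Fin 8) (Fin 8) (ZMod 2) := mat 8 (m8N j)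

/-- The representation of size eight over the ring of truncated polynomials. -/
noncomputable def ThR : SS →ₐ[RR] Matrix (Fin 8) (Fin 8) RR :=
  FreeAlgebra.lift RR fun j => (M8 j).map cc

theorem ThR_X (j : Fin 4) : ThR (XX j) = (M8 j).map cc := FreeAlgebra.lift_ι_apply _ _

/-- The representation of size eight. -/
noncomputable def Th0 : S0 →ₐ[ZMod 2] Matrix (Fin 8) (Fin 8) (ZMod 2) :=
  FreeAlgebra.lift (ZMod 2) M8

theorem Th0_X (j : Fin 4) : Th0 (X0 j) = M8 j := FreeAlgebra.lift_ι_apply _ _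

/-- The representation of size eight of the algebra of rank three. -/
noncomputable def Th3 : S3 →ₐ[ZMod 2] Matrix (Fin 8) (Fin 8) (ZMod 2) :=
  FreeAlgebra.lift (ZMod 2) fun j => M8 j.castSucc

theorem Th3_X (j : Fin 3) : Th3 (X3 j) = M8 j.castSucc := FreeAlgebra.lift_ι_apply _ _

theorem map_cc_epR (A : Matrix (Fin 8) (Fin 8) (ZMod 2)) : (A.map cc).map epR = A := by
  ext i j
  rw [Matrix.map_apply, Matrix.map_apply, epR_cc]

theorem ThR_red (f : SS) : (ThR f).map epR = Th0 (red f) := by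
  have hring : ∀ A B : Matrix (Fin 8) (Fin 8) RR, (A * B).map epR = A.map epR * B.map epR :=
    fun A B => Matrix.map_mul
  induction f using FreeAlgebra.induction with
  | grade0 r =>
    rw [AlgHom.commutes, red_algebraMap, AlgHom.commutes]
    ext i j
    rw [Matrix.map_apply, Matrix.algebraMap_matrix_apply, Matrix.algebraMap_matrix_apply]
    split_ifs
    · rfl
    · exact map_zero _
  | grade1 i =>
    have h : FreeAlgebra.ι RR i = XX i := rfl
    rw [h, ThR_X, red_X, Th0_X, map_cc_epR]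
  | mul a b ha hb => rw [map_mul, hring, ha, hb, map_mul, map_mul]
  | add a b ha hb =>
    rw [map_add, map_add, map_add, ← ha, ← hb]
    ext i j
    exact map_add epR _ _

/-- The states of the unrolled representation. -/
def stF (a : Fin 27) : Fin 8 :=
  ([0, 4, 1, 2, 4, 5, 1, 2, 3, 4, 5, 6, 7, 1, 2, 3, 4, 5, 6, 7, 1, 2, 3, 4, 5, 6, 7] : List (Fin 8)).getD a 0

/-- The levels of the unrolled representation. -/
def lvN (a : Fin 27) : ℕ :=
  ([0, 1, 2, 2, 3, 3, 4, 4, 4, 5, 5, 5, 5, 6, 6, 6, 7, 7, 7, 7, 8, 8, 8, 9, 9, 9, 9] : List ℕ).getD a 0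

/-- The nilpotent parts. -/
def nN (j : Fin 4) : ℕ := uN j ^^^ colN 28 27

theorem chk_lv : ∀ (j : Fin 4) (a b : Fin 27), (nN j).testBit (27 * a + b) = true →
    lvN b = lvN a + 1 := by
  decide +kernel

theorem chk_st : ∀ (j : Fin 4) (a : Fin 27), lvN a ≠ 9 → ∀ τ : Fin 8,
    (∑ b : Fin 27, if stF b = τ then bz ((nN j).testBit (27 * a + b)) else 0) =
      bz ((m8N j).testBit (8 * stF a + τ)) := by
  decide +kernel

theorem chk_le : ∀ a : Fin 27, lvN a ≤ 9 := by decide +kernel

theorem chk_end : ∀ b : Fin 27, stF b = 7 → b = 12 ∨ b = 19 ∨ b = 26 := by decide +kernel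

/-- The intertwiner between the unrolled representation and the representation of size eight. -/
noncomputable def Kt : Matrix (Fin 27) (Fin 8) RR :=
  Matrix.of fun a τ => if stF a = τ then tt ^ lvN a else 0

theorem Kt_apply (a : Fin 27) (τ : Fin 8) : Kt a τ = if stF a = τ then tt ^ lvN a else 0 := rfl

theorem NK (j : Fin 4) : (mat 27 (nN j)).map cc * Kt = Kt * (tt • (M8 j).map cc) := by
  ext a τ
  rw [Matrix.mul_apply, Matrix.mul_apply]
  have hR : (∑ σ, Kt a σ * (tt • (M8 j).map cc) σ τ) = tt ^ (lvN a + 1) * cc (M8 j (stF a) τ) := by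
    rw [Finset.sum_eq_single (stF a)]
    · rw [Kt_apply, if_pos rfl, Matrix.smul_apply, Matrix.map_apply, smul_eq_mul, ← mul_assoc,
        ← pow_succ]
    · intro σ _ hσ
      rw [Kt_apply, if_neg (Ne.symm hσ), zero_mul]
    · intro h; exact absurd (Finset.mem_univ _) h
  have hL : ∀ b, ((mat 27 (nN j)).map cc) a b * Kt b τ =
      tt ^ (lvN a + 1) * cc (if stF b = τ then bz ((nN j).testBit (27 * a + b)) else 0) := by
    intro b
    rw [Matrix.map_apply, mat_apply, Kt_apply]
    by_cases hb : (nN j).testBit (27 * a + b) = true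
    · have h1 := chk_lv j a b hb
      rw [hb, h1]
      split_ifs
      · ring
      · rw [cc_zero, mul_zero, mul_zero]
    · have h2 : (nN j).testBit (27 * a + b) = false := by
        rw [Bool.not_eq_true] at hb; exact hb
      rw [h2]
      have h3 : bz false = 0 := rfl
      rw [h3, cc_zero, zero_mul, ite_self, cc_zero, mul_zero]
  rw [hR]
  simp only [hL]
  rw [← Finset.mul_sum]
  by_cases h9 : lvN a = 9
  · rw [h9]
    change tt ^ 10 * _ = tt ^ 10 * _
    rw [tt_pow, zero_mul, zero_mul]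
  · have h4 : (∑ b : Fin 27, cc (if stF b = τ then bz ((nN j).testBit (27 * a + b)) else 0)) =
        cc (∑ b : Fin 27, if stF b = τ then bz ((nN j).testBit (27 * a + b)) else 0) := by
      unfold cc; rw [map_sum]
    rw [h4, chk_st j a h9 τ]
    rfl

theorem mapcc_mul {n m k : ℕ} (A : Matrix (Fin n) (Fin m) (ZMod 2)) (B : Matrix (Fin m) (Fin k) (ZMod 2)) :
    (A * B).map cc = A.map cc * B.map cc := Matrix.map_mul (f := algebraMap (ZMod 2) RR)

theorem mapcc_one {n : ℕ} : (1 : Matrix (Fin n) (Fin n) (ZMod 2)).map cc = 1 :=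
  Matrix.map_one cc cc_zero cc_one

theorem mapcc_add {n m : ℕ} (A B : Matrix (Fin n) (Fin m) (ZMod 2)) :
    (A + B).map cc = A.map cc + B.map cc := Matrix.map_add cc cc_add A B

theorem uN_eq (j : Fin 4) : mat 27 (uN j) = 1 + mat 27 (nN j) := by
  unfold nN
  rw [mat_xor, mat_one]
  have : (1 : M27) + (mat 27 (uN j) + 1) = mat 27 (uN j) + (1 + 1) := by abel
  rw [this]
  have h2 : (1 : M27) + 1 = 0 := by
    ext i j
    exact CharTwo.add_self_eq_zero _
  rw [h2, add_zero]

theorem YK (w : FreeGroup (Fin 4)) :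
    ((YY w : M27ˣ) : M27).map cc * Kt = Kt * ThR ((mu w : SSˣ) : SS) := by
  have hinv : ∀ w : FreeGroup (Fin 4), ((YY w : M27ˣ) : M27).map cc * Kt = Kt * ThR ((mu w : SSˣ) : SS) →
      ((YY w⁻¹ : M27ˣ) : M27).map cc * Kt = Kt * ThR ((mu w⁻¹ : SSˣ) : SS) := by
    intro w h
    have h1 : ((YY w⁻¹ : M27ˣ) : M27).map cc * ((YY w : M27ˣ) : M27).map cc = 1 := by
      rw [← mapcc_mul, ← Units.val_mul, ← map_mul, inv_mul_cancel, map_one]
      exact mapcc_one
    have h2 : ThR ((mu w : SSˣ) : SS) * ThR ((mu w⁻¹ : SSˣ) : SS) = 1 := by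
      rw [← map_mul, ← Units.val_mul, ← map_mul, mul_inv_cancel, map_one, Units.val_one, map_one]
    calc ((YY w⁻¹ : M27ˣ) : M27).map cc * Kt
        = ((YY w⁻¹ : M27ˣ) : M27).map cc * (Kt * (ThR ((mu w : SSˣ) : SS) *
            ThR ((mu w⁻¹ : SSˣ) : SS))) := by rw [h2, Matrix.mul_one]
      _ = ((YY w⁻¹ : M27ˣ) : M27).map cc * ((((YY w : M27ˣ) : M27).map cc * Kt) *
            ThR ((mu w⁻¹ : SSˣ) : SS)) := by rw [h, Matrix.mul_assoc]
      _ = (((YY w⁻¹ : M27ˣ) : M27).map cc * ((YY w : M27ˣ) : M27).map cc) * Kt *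
            ThR ((mu w⁻¹ : SSˣ) : SS) := by simp only [Matrix.mul_assoc]
      _ = Kt * ThR ((mu w⁻¹ : SSˣ) : SS) := by rw [h1, Matrix.one_mul]
  have hof : ∀ i, ((YY (FreeGroup.of i) : M27ˣ) : M27).map cc * Kt =
      Kt * ThR ((mu (FreeGroup.of i) : SSˣ) : SS) := by
    intro i
    rw [YY_of, mu_of, map_add, map_one, map_smul, ThR_X]
    have h1 : ((yg i : M27ˣ) : M27) = mat 27 (uN i) := rfl
    rw [h1, uN_eq, mapcc_add, mapcc_one, Matrix.add_mul, Matrix.one_mul, NK, Matrix.mul_add,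
      Matrix.mul_one]
  induction w using FreeGroup.induction_on with
  | C1 =>
    rw [map_one, map_one, Units.val_one, Units.val_one, map_one, mapcc_one, Matrix.one_mul,
      Matrix.mul_one]
  | of i => exact hof i
  | inv_of i h => exact hinv _ h
  | mul u v hu hv =>
    rw [map_mul, map_mul, Units.val_mul, Units.val_mul, map_mul, mapcc_mul, Matrix.mul_assoc, hv,
      ← Matrix.mul_assoc, hu, Matrix.mul_assoc]

theorem st0 : stF 0 = 0 := rfl
theorem lv0 : lvN 0 = 0 := rfl
theorem st26 : stF 26 = 7 := rfl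
theorem lv26 : lvN 26 = 9 := rfl

/-- The entry of the representation of size eight. -/
theorem num_entry (w : FreeGroup (Fin 4)) (h12 : ((YY w : M27ˣ) : M27) 0 12 = 0)
    (h19 : ((YY w : M27ˣ) : M27) 0 19 = 0) :
    ThR ((mu w : SSˣ) : SS) 0 7 = tt ^ 9 * cc (((YY w : M27ˣ) : M27) 0 26) := by
  have h := congrFun (congrFun (YK w) 0) 7
  rw [Matrix.mul_apply, Matrix.mul_apply] at h
  have hR : (∑ σ, Kt 0 σ * ThR ((mu w : SSˣ) : SS) σ 7) = ThR ((mu w : SSˣ) : SS) 0 7 := by
    rw [Finset.sum_eq_single 0]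
    · rw [Kt_apply, st0, if_pos rfl, lv0, pow_zero, one_mul]
    · intro σ _ hσ
      rw [Kt_apply, st0, if_neg (Ne.symm hσ), zero_mul]
    · intro h; exact absurd (Finset.mem_univ _) h
  have hL : (∑ b, (((YY w : M27ˣ) : M27).map cc) 0 b * Kt b 7) =
      tt ^ 9 * cc (((YY w : M27ˣ) : M27) 0 26) := by
    rw [Finset.sum_eq_single 26]
    · rw [Kt_apply, st26, if_pos rfl, lv26, Matrix.map_apply, mul_comm]
    · intro b _ hb
      rw [Kt_apply, Matrix.map_apply]
      by_cases hs : stF b = 7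
      · rcases chk_end b hs with e | e | e
        · rw [e, h12, cc_zero, zero_mul]
        · rw [e, h19, cc_zero, zero_mul]
        · exact absurd e hb
      · rw [if_neg hs, mul_zero]
    · intro h; exact absurd (Finset.mem_univ _) h
  rw [hR, hL] at h
  exact h.symm

/-- The value of the functional on the leading term. -/
theorem lead_entry {i : Fin 4} (hi : M8 i 0 7 = 0) (w : FreeGroup (Fin 4)) (f g : SS)
    (hw : ((mu w : SSˣ) : SS) = 1 + tt • XX i + tt ^ 9 • f + tt ^ 10 • g)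
    (h12 : ((YY w : M27ˣ) : M27) 0 12 = 0) (h19 : ((YY w : M27ˣ) : M27) 0 19 = 0) :
    Th0 (red f) 0 7 = ((YY w : M27ˣ) : M27) 0 26 := by
  have h1 := num_entry w h12 h19
  rw [hw, map_add, map_add, map_add, map_one, map_smul, map_smul, map_smul, ThR_X, tt_pow,
    zero_smul, add_zero, Matrix.add_apply, Matrix.add_apply, Matrix.smul_apply, Matrix.smul_apply,
    Matrix.map_apply, hi, cc_zero, smul_zero, add_zero] at h1
  have h2 : (1 : Matrix (Fin 8) (Fin 8) RR) 0 7 = 0 := Matrix.one_apply_ne (by decide)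
  rw [h2, zero_add, smul_eq_mul] at h1
  have h3 : tt ^ 9 * (ThR f 0 7 - cc (((YY w : M27ˣ) : M27) 0 26)) = tt ^ (9 + 1) * 0 := by
    rw [mul_sub, h1, sub_self, mul_zero]
  have h4 := epR_zero (le_refl 9) h3
  rw [map_sub, epR_cc, sub_eq_zero] at h4
  rw [← ThR_red, Matrix.map_apply]
  exact h4

/-- Intertwiners of representations of free algebras. -/
theorem intertwine {ι : Type} {n m : ℕ} {A : Type} [Ring A] [Algebra (ZMod 2) A]
    (α : FreeAlgebra (ZMod 2) ι →ₐ[ZMod 2] Matrix (Fin n) (Fin n) (ZMod 2))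
    (β : FreeAlgebra (ZMod 2) ι →ₐ[ZMod 2] A) (γ : A →ₐ[ZMod 2] Matrix (Fin m) (Fin m) (ZMod 2))
    (K : Matrix (Fin n) (Fin m) (ZMod 2))
    (h : ∀ i, α (X (ZMod 2) i) * K = K * γ (β (X (ZMod 2) i))) (f : FreeAlgebra (ZMod 2) ι) :
    α f * K = K * γ (β f) := by
  induction f using FreeAlgebra.induction with
  | grade0 r =>
    rw [AlgHom.commutes, AlgHom.commutes, AlgHom.commutes, Algebra.algebraMap_eq_smul_one,
      Algebra.algebraMap_eq_smul_one, Matrix.smul_mul, Matrix.one_mul, Matrix.mul_smul,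
      Matrix.mul_one]
  | grade1 i => exact h i
  | mul a b ha hb =>
    rw [map_mul, map_mul, map_mul, Matrix.mul_assoc, hb, ← Matrix.mul_assoc, ha, Matrix.mul_assoc]
  | add a b ha hb =>
    rw [map_add, map_add, map_add, Matrix.add_mul, Matrix.mul_add, ha, hb]

theorem chk_col7 : ∀ (j : Fin 3) (σ : Fin 8), M8 j.castSucc σ 7 = 0 := by decide +kernel
theorem chk_col7' : ∀ σ : Fin 8, M8 (Fin.last 3) σ 7 = if σ = 3 then 1 else 0 := by decide +kernel

theorem Th0_fl (g : S0) : Th0 g 0 7 = Th0 (fl g) 0 3 := by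
  have e1 : ∀ a b : Fin 8, (∀ A B : Matrix (Fin 8) (Fin 8) (ZMod 2), (A + B) a b = A a b + B a b) :=
    fun a b A B => rfl
  let L1 : S0 →ₗ[ZMod 2] ZMod 2 :=
    { toFun := fun g => Th0 g 0 7
      map_add' := fun g g' => by rw [map_add]; rfl
      map_smul' := fun c g => by rw [map_smul]; rfl }
  let L2 : S0 →ₗ[ZMod 2] ZMod 2 :=
    { toFun := fun g => Th0 (fl g) 0 3
      map_add' := fun g g' => by rw [map_add, map_add]; rfl
      map_smul' := fun c g => by rw [map_smul, map_smul]; rfl }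
  have h : L1 = L2 := by
    apply lin_ext
    · change Th0 1 0 7 = Th0 (fl 1) 0 3
      rw [fl_one, map_zero, map_one]
      exact Matrix.one_apply_ne (by decide)
    · intro g i
      change Th0 (g * X0 i) 0 7 = Th0 (fl (g * X0 i)) 0 3
      refine Fin.lastCases (motive := fun i => Th0 (g * X0 i) 0 7 = Th0 (fl (g * X0 i)) 0 3) ?_ ?_ i
      · rw [fl_l, map_mul, Th0_X, Matrix.mul_apply]
        simp only [chk_col7', mul_ite, mul_one, mul_zero]
        rw [Finset.sum_ite_eq' Finset.univ (3 : Fin 8), if_pos (Finset.mem_univ _)]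
      · intro j
        rw [fl_c, map_zero, map_mul, Th0_X, Matrix.mul_apply]
        simp only [chk_col7, mul_zero]
        rw [Finset.sum_const_zero]
        rfl
  exact DFunLike.congr_fun h g

end Pool.Agent.Helper90.QP
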