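import Mathlib
import Pool.Agent.Helper90.QP.Link

/-!
The link between the computation and the detecting Lie algebra.
-/

namespace Pool.Agent.Helper90.QP

open Matrix BurnLie Q28.FreeLieV
open scoped commutatorElement

/-- The diagonal matrix which kills the last state. -/
def dg (a : Fin 8) : ZMod 2 := if a = 7 then 0 else 1

theorem chk_dg : ∀ (j : Fin 3) (a b : Fin 8), M8 j.castSucc a b * dg b = dg a * M8 j.castSucc a b := by
  decide +kernel

theorem chk_dg' : ∀ (a b : Fin 8), M8 (Fin.last 3) a b * dg b = 0 := by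
  decide +kernel

theorem Th0_r0 (g : S0) : Th0 g 0 3 = Th3 (r0 g) 0 3 := by
  have h := intertwine (n := 8) (m := 8) Th0 r0 Th3 (Matrix.diagonal dg) (by
    intro i
    change Th0 (X0 i) * Matrix.diagonal dg = Matrix.diagonal dg * Th3 (r0 (X0 i))
    refine Fin.lastCases (motive := fun i => Th0 (X0 i) * Matrix.diagonal dg =
      Matrix.diagonal dg * Th3 (r0 (X0 i))) ?_ ?_ i
    · rw [r0_l, map_zero, Matrix.mul_zero, Th0_X]
      ext a b
      rw [Matrix.mul_diagonal, chk_dg']; rfl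
    · intro j
      rw [r0_c, Th0_X, Th3_X]
      ext a b
      rw [Matrix.mul_diagonal, Matrix.diagonal_mul, chk_dg]) g
  have h1 := congrFun (congrFun h 0) 3
  rw [Matrix.mul_diagonal, Matrix.diagonal_mul] at h1
  have h2 : dg 3 = 1 := rfl
  have h3 : dg 0 = 1 := rfl
  rw [h2, h3, mul_one, one_mul] at h1
  exact h1

theorem chk_row0 : ∀ (σ : Fin 8), M8 0 0 σ = if σ = 4 then 1 else 0 := by decide +kernel
theorem chk_row2 : ∀ (σ : Fin 8), M8 2 0 σ = if σ = 4 then 1 else 0 := by decide +kernel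

theorem Th3_mul0 (w : S3) : Th3 (X3 0 * w) 0 3 = Th3 w 4 3 := by
  rw [map_mul, Th3_X, Matrix.mul_apply]
  change (∑ σ, M8 0 0 σ * Th3 w σ 3) = _
  simp only [chk_row0, ite_mul, one_mul, zero_mul]
  rw [Finset.sum_ite_eq' Finset.univ (4 : Fin 8), if_pos (Finset.mem_univ _)]

theorem Th3_mul2 (w : S3) : Th3 (X3 2 * w) 0 3 = Th3 w 4 3 := by
  rw [map_mul, Th3_X, Matrix.mul_apply]
  change (∑ σ, M8 2 0 σ * Th3 w σ 3) = _
  simp only [chk_row2, ite_mul, one_mul, zero_mul]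
  rw [Finset.sum_ite_eq' Finset.univ (4 : Fin 8), if_pos (Finset.mem_univ _)]

/-- The projection of the module to the states. -/
def TT : Matrix (Fin 18) (Fin 8) (ZMod 2) :=
  Matrix.of fun i j => bz ((19845801812657478446300529666 : ℕ).testBit (8 * i + j))

theorem chk_T : ∀ (j : Fin 3) (a : Fin 18) (τ : Fin 8),
    (∑ b : Fin 18, RM j a b * TT b τ) = ∑ σ : Fin 8, TT a σ * M8 j.castSucc σ τ := by
  decide +kernel

theorem rho_T (w : S3) : rho w * TT = TT * Th3 w := by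
  refine intertwine (n := 18) (m := 8) rho (AlgHom.id (ZMod 2) S3) Th3 TT ?_ w
  intro i
  change rho (X3 i) * TT = TT * Th3 (X3 i)
  rw [rho_X, Th3_X]
  ext a τ
  rw [Matrix.mul_apply, Matrix.mul_apply]
  exact chk_T i a τ

theorem chk_ET : ∀ (i : Fin 3) (τ : Fin 8), (∑ b : Fin 18, EM i b * TT b τ) =
    if i = 1 then 0 else if τ = 4 then 1 else 0 := by
  decide +kernel

theorem EM_T (i : Fin 3) : EM i ᵥ* TT = if i = 1 then 0 else Pi.single 4 1 := by
  funext τ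
  have h := chk_ET i τ
  change (∑ b : Fin 18, EM i b * TT b τ) = _
  rw [h]
  split_ifs with h1 h2
  · rfl
  · subst h2; rfl
  · rw [Pi.single_eq_of_ne h2]

theorem chk_T3 : ∀ p : Fin 18, TT p 3 = if p = 2 then 1 else 0 := by decide +kernel

/-- The coordinate of the module element. -/
theorem coord (ω : Fin 3 → S3) : (∑ i, EM i ᵥ* rho (ω i)) 2 = Th3 (ω 0) 4 3 + Th3 (ω 2) 4 3 := by
  have h1 : ((∑ i, EM i ᵥ* rho (ω i)) ᵥ* TT) 3 = (∑ i, EM i ᵥ* rho (ω i)) 2 := by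
    change (∑ p, (∑ i, EM i ᵥ* rho (ω i)) p * TT p 3) = _
    simp only [chk_T3, mul_ite, mul_one, mul_zero]
    rw [Finset.sum_ite_eq' Finset.univ (2 : Fin 18), if_pos (Finset.mem_univ _)]
  rw [← h1, sum_vecMul]
  have h2 : ∀ i, EM i ᵥ* rho (ω i) ᵥ* TT = (if i = 1 then 0 else Pi.single 4 1) ᵥ* Th3 (ω i) := by
    intro i
    rw [vecMul_vecMul, rho_T, ← vecMul_vecMul, EM_T]
  simp only [h2]
  rw [Fin.sum_univ_three]
  have e0 : (if (0 : Fin 3) = 1 then (0 : Fin 8 → ZMod 2) else Pi.single 4 1) = Pi.single 4 1 := rfl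
  have e1 : (if (1 : Fin 3) = 1 then (0 : Fin 8 → ZMod 2) else Pi.single 4 1) = 0 := rfl
  have e2 : (if (2 : Fin 3) = 1 then (0 : Fin 8 → ZMod 2) else Pi.single 4 1) = Pi.single 4 1 := rfl
  rw [e0, e1, e2, zero_vecMul, add_zero, Pi.add_apply, single_one_vecMul, single_one_vecMul]
  rfl

/-- The coordinate of the element of the detecting Lie algebra. -/
theorem ML_coord (z : FLie (Grd GG 0)) :
    (ML z).left.1 2 = Th0 (DL0 z (X0 0)) 0 7 + Th0 (DL0 z (X0 2)) 0 7 := by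
  have h1 : (ML z).left.1 = (∑ i, EM i ᵥ* rho ((AL z (1, 0)).2 i)) := by
    have h2 := (rel5 z).1 1 0
    have h3 : ((1 : ZMod 2), (0 : HH).1) = pr (1, 0) := by
      refine Prod.ext rfl ?_
      change (0 : Fin 18 → ZMod 2) = ∑ i, EM i ᵥ* rho 0
      simp
    rw [h3, ← rel4] at h2
    have h4 := congrArg Prod.snd h2
    change (∑ i, EM i ᵥ* rho ((AL z (1, 0)).2 i)) = (1 : ZMod 2) • (ML z).left.1 + ((ML z).right 0).1 at h4
    rw [h4, map_zero, HH_zero1, add_zero, one_smul]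
  rw [h1, coord]
  have k : ∀ i : Fin 3, Th0 (DL0 z (X0 i.castSucc)) 0 7 = Th3 (X3 i * (AL z (1, 0)).2 i) 0 3 := by
    intro i
    rw [Th0_fl, Th0_r0, read_AL]
  have k0 := k 0
  have k2 := k 2
  rw [Th3_mul0] at k0
  rw [Th3_mul2] at k2
  rw [← k0, ← k2]
  rfl

theorem chk_8 : M8 0 0 7 = 0 ∧ M8 2 0 7 = 0 := by decide +kernel

/-- The leading term of the element of the eighth term of the lower central series. -/
theorem exists_zb : ∃ z, natMap GG z = mkL 7 ⟨⁅gg, KK 1 3⁆, gv_mem⟩ ∧ (ML z).left.1 2 = 1 := by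
  obtain ⟨z, hz, h⟩ := deep_exp gv_mem
  refine ⟨z, hz, ?_⟩
  obtain ⟨g0, h0⟩ := h 0
  obtain ⟨g2, h2⟩ := h 2
  obtain ⟨a1, a2, a3, b1, b2, b3⟩ := entries
  have c0 := lead_entry chk_8.1 _ _ _ h0 a1 a2
  have c2 := lead_entry chk_8.2 _ _ _ h2 b1 b2
  rw [red_DL, red_X, a3] at c0
  rw [red_DL, red_X, b3] at c2
  rw [ML_coord, c0, c2, add_zero]

end Pool.Agent.Helper90.QP
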