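import Mathlib
import Pool.Agent.Helper90.QP.Link2

/-!
The Lie ring of the lower central series of the group of basis-conjugating automorphisms of the
free group of rank four is not quadratic.
-/

namespace Pool.Agent.Helper90.QP

open Matrix BurnLie Q28.FreeLieV
open scoped commutatorElement

theorem ep_KK (k l k' l' : Fin 4) (h : k ≠ l) :
    ep k' l' (KK k l) = if k' = k ∧ l' = l then 1 else 0 := by
  by_cases hl : l' = k'
  · subst hl
    rw [ep_self, if_neg]
    rintro ⟨h1, h2⟩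
    exact h (h1.symm.trans h2)
  · by_cases hk : k' = k
    · subst hk
      have h1 : (KK k' l).1 (FreeGroup.of k') = FreeGroup.of l * FreeGroup.of k' * (FreeGroup.of l)⁻¹ := by
        rw [KK_apply, kf_of, if_pos rfl]
      rw [ep_eq hl h1, lam_of]
      by_cases hll : l = l'
      · rw [if_pos hll, if_pos ⟨rfl, hll.symm⟩]
      · rw [if_neg hll, if_neg (fun h => hll h.2.symm)]
    · have h1 : (KK k l).1 (FreeGroup.of k') = 1 * FreeGroup.of k' * 1⁻¹ := by
        rw [KK_apply, kf_of, if_neg hk]; simp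
      rw [ep_eq hl h1, lam_one, if_neg (fun h => hk h.1)]

/-- The class of a generator in degree one. -/
def cg (k l : Fin 4) : Grd GG 0 := grMk 0 ⟨KK k l, Subgroup.mem_top _⟩

theorem ML_cg (k l : Fin 4) (h : k ≠ l) : ML (incl (cg k l)) = Mg k l := by
  unfold ML
  rw [lft_incl]
  have h1 : ∀ k' l', ev k' l' (cg k l) = if k' = k ∧ l' = l then 1 else 0 := by
    intro k' l'
    exact ep_KK k l k' l' h
  simp only [h1]
  rw [Finset.sum_eq_single k]
  · rw [Finset.sum_eq_single l]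
    · rw [if_pos ⟨rfl, rfl⟩, one_smul]
    · intro b _ hb
      rw [if_neg (fun h => hb h.2), zero_smul]
    · intro h; exact absurd (Finset.mem_univ _) h
  · intro b _ hb
    refine Finset.sum_eq_zero fun l' _ => ?_
    rw [if_neg (fun h => hb h.1), zero_smul]
  · intro h; exact absurd (Finset.mem_univ _) h

theorem Mg_03 : Mg 0 3 = ⟨(EM 0, 0), 0⟩ := fam_k4 _ _ _ 0
theorem Mg_13 : Mg 1 3 = ⟨(EM 1, 0), 0⟩ := fam_k4 _ _ _ 1

theorem natMap_cg (k l : Fin 4) : natMap GG (incl (cg k l)) = mkL 0 ⟨KK k l, Subgroup.mem_top _⟩ := by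
  rw [natMap_incl]; rfl

theorem chk_b1 : ∀ p : Fin 18, (∑ q : Fin 18, if (bN 0).testBit (18 * p + q) && (eN 1).testBit q
    then (1 : ℕ) else 0) % 2 = 0 := by decide +kernel

theorem chk_b0 : ∀ q : Fin 18, (∑ p : Fin 18, if (eN 0).testBit p && (bN 0).testBit (18 * p + q)
    then (1 : ℕ) else 0) % 2 = if q = 2 then 1 else 0 := by decide +kernel

theorem beta_e1 (x : Fin 18 → ZMod 2) : beta x (EM 1) 0 = 0 := by
  have h : BM 0 *ᵥ EM 1 = 0 := by
    rw [BM_eq]
    funext p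
    have h1 : (mat 18 (bN 0) *ᵥ EM 1) p = (((∑ q : Fin 18,
        if (bN 0).testBit (18 * p + q) && (eN 1).testBit q then (1 : ℕ) else 0) : ℕ) : ZMod 2) := by
      rw [Nat.cast_sum]
      change (∑ q, mat 18 (bN 0) p q * EM 1 q) = _
      refine Finset.sum_congr rfl fun q _ => ?_
      rw [← bz_cast, bz_and]
      rfl
    rw [h1, Pi.zero_apply, ZMod.natCast_eq_zero_iff]
    exact Nat.dvd_of_mod_eq_zero (chk_b1 p)
  unfold beta
  rw [h, dotProduct_zero]

theorem beta_e0 (y : Fin 18 → ZMod 2) : beta (EM 0) y 0 = y 2 := by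
  have h : EM 0 ᵥ* BM 0 = Pi.single 2 1 := by
    rw [BM_eq]
    funext q
    have h1 : (EM 0 ᵥ* mat 18 (bN 0)) q = (((∑ p : Fin 18,
        if (eN 0).testBit p && (bN 0).testBit (18 * p + q) then (1 : ℕ) else 0) : ℕ) : ZMod 2) := by
      rw [Nat.cast_sum]
      change (∑ p, EM 0 p * mat 18 (bN 0) p q) = _
      refine Finset.sum_congr rfl fun p _ => ?_
      rw [← bz_cast, bz_and]
      rfl
    have h2 : (((∑ p : Fin 18, if (eN 0).testBit p && (bN 0).testBit (18 * p + q)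
        then (1 : ℕ) else 0) : ℕ) : ZMod 2) = (((if q = 2 then 1 else 0 : ℕ)) : ZMod 2) := by
      rw [← chk_b0 q, ZMod.natCast_mod]
    rw [h1, h2]
    by_cases hq : q = 2
    · subst hq; rw [if_pos rfl, Pi.single_eq_same]; rfl
    · rw [if_neg hq, Pi.single_eq_of_ne hq]; rfl
  change EM 0 ⬝ᵥ (BM 0 *ᵥ y) = y 2
  rw [dotProduct_mulVec, h, single_one_dotProduct]

theorem MM_calc (x y : MM) (h1 : (x.right (hm (EM 1) 0)).2 = 0) (h2 : (y.right (hm (EM 0) 0)).2 = 0) :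
    (⁅x, (⟨hm (EM 1) 0, 0⟩ : MM)⁆ + ⁅(⟨hm (EM 0) 0, 0⟩ : MM), y⁆ : MM).left.2 0 = y.left.1 2 := by
  have e : (⁅x, (⟨hm (EM 1) 0, 0⟩ : MM)⁆ + ⁅(⟨hm (EM 0) 0, 0⟩ : MM), y⁆ : MM).left.2 0 =
      ((beta x.left.1 (EM 1) 0 + (x.right (hm (EM 1) 0)).2 0) - 0) +
        ((beta (EM 0) y.left.1 0 + 0) - (y.right (hm (EM 0) 0)).2 0) := rfl
  rw [e, h1, h2, beta_e1, beta_e0, Pi.zero_apply]
  ring

/-- The Lie ring of the lower central series of the group of basis-conjugating automorphisms of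
the free group of rank four is not quadratic. -/
theorem not_quadratic_four : ¬ IsQuadratic GG := by
  obtain ⟨za, hA, hza, -⟩ := hasLift 7 gu_mem
  obtain ⟨zb, hzb, h1⟩ := exists_zb
  have hAv : ⁅⁅gg, KK 0 3⁆, KK 1 3⁆ ∈ lcs GG 8 :=
    lcs_comm_mem (m := 7) (n := 0) gu_mem (Subgroup.mem_top _)
  have huB : ⁅KK 0 3, ⁅gg, KK 1 3⁆⁆ ∈ lcs GG 8 :=
    lcs_comm_mem (m := 0) (n := 7) (Subgroup.mem_top _) gv_mem
  refine not_quad_of ML (fun t ht h0 => ML_zero ht h0)
    (⁅za, incl (cg 1 3)⁆ + ⁅incl (cg 0 3), zb⁆) ?_ ?_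
  · rw [map_add, LieHom.map_lie, LieHom.map_lie, natMap_cg, natMap_cg, hza, hzb, AL_lie, AL_lie]
    exact rel_nine hAv huB
  · intro h
    have h2 := congrArg (fun M : MM => M.left.2 0) h
    rw [map_add, LieHom.map_lie, LieHom.map_lie, ML_cg 1 3 (by decide), ML_cg 0 3 (by decide),
      Mg_03, Mg_13] at h2
    have h3 := MM_calc (ML za) (ML zb) ((rel5 za).2 _ rfl) ((rel5 zb).2 _ rfl)
    rw [h1] at h3
    have h4 : (1 : ZMod 2) = 0 := h3.symm.trans h2
    exact absurd h4 (by decide)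

end Pool.Agent.Helper90.QP
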