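import Mathlib
import Pool.Agent.Helper90.QP.Assoc

/-!
Retracts of groups with a quadratic Lie ring.
-/

namespace Pool.Agent.Helper90.QP

open BurnLie Q28.FreeLieV
open scoped commutatorElement

section retract

variable {G G' : Type} [Group G] [Group G'] (f : G →* G')

theorem lcs_map : ∀ (n : ℕ) {g : G}, g ∈ lcs G n → f g ∈ lcs G' n := by
  intro n
  induction n with
  | zero => intro g _; exact Subgroup.mem_top _
  | succ n ih =>
    intro g hg
    rw [lcs, Subgroup.mem_lowerCentralSeries_succ_iff] at hg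
    induction hg using Subgroup.closure_induction with
    | mem x hx =>
      obtain ⟨y, hy, w, -, rfl⟩ := hx
      rw [map_commutatorElement]
      exact lcs_comm_mem (m := n) (n := 0) (ih hy) (Subgroup.mem_top _)
    | one => rw [map_one]; exact one_mem _
    | mul x y _ _ hx hy => rw [map_mul]; exact mul_mem hx hy
    | inv x _ hx => rw [map_inv]; exact inv_mem hx

/-- The restriction to the terms of the lower central series. -/
def lcsHom (n : ℕ) : lcs G n →* lcs G' n :=
  (f.comp (lcs G n).subtype).codRestrict (lcs G' n) fun g => lcs_map f n g.2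

theorem lcsHom_coe (n : ℕ) (g : lcs G n) : ((lcsHom f n g : lcs G' n) : G') = f g := rfl

theorem lcsHom_le (n : ℕ) : (lcs G (n + 1)).subgroupOf (lcs G n) ≤
    ((lcs G' (n + 1)).subgroupOf (lcs G' n)).comap (lcsHom f n) := by
  intro g hg
  rw [Subgroup.mem_comap, Subgroup.mem_subgroupOf]
  exact lcs_map f (n + 1) (Subgroup.mem_subgroupOf.1 hg)

/-- The map of the quotients. -/
def grdMap (n : ℕ) : Grd G n →+ Grd G' n :=
  MonoidHom.toAdditive (QuotientGroup.map ((lcs G (n + 1)).subgroupOf (lcs G n))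
    ((lcs G' (n + 1)).subgroupOf (lcs G' n)) (lcsHom f n) (lcsHom_le f n))

theorem grdMap_mk (n : ℕ) (g : lcs G n) : grdMap f n (grMk n g) = grMk n (lcsHom f n g) := rfl

/-- The map of the associated Lie rings. -/
noncomputable def alMap : AssocLie G →+ AssocLie G' :=
  DirectSum.toAddMonoid fun n => (ofL n).comp (grdMap f n)

theorem alMap_of (n : ℕ) (x : Grd G n) : alMap f (ofL n x) = ofL n (grdMap f n x) :=
  DirectSum.toAddMonoid_of _ _ _

theorem alMap_mk (n : ℕ) (g : lcs G n) : alMap f (mkL n g) = mkL n (lcsHom f n g) := by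
  unfold mkL
  rw [alMap_of, grdMap_mk]

theorem alMap_lie (x y : AssocLie G) : alMap f ⁅x, y⁆ = ⁅alMap f x, alMap f y⁆ := by
  induction x using ind with
  | h0 => rw [zero_lie, map_zero, zero_lie]
  | h1 m g =>
    induction y using ind with
    | h0 => rw [lie_zero, map_zero, lie_zero]
    | h1 n h =>
      have e1 : ⁅mkL m g, mkL n h⁆ = mkL (m + n + 1) ⟨⁅(g : G), (h : G)⁆, lcs_comm_mem g.2 h.2⟩ :=
        lieHom_mkL m n g h
      have e2 : ⁅mkL m (lcsHom f m g), mkL n (lcsHom f n h)⁆ = mkL (m + n + 1)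
          ⟨⁅((lcsHom f m g : lcs G' m) : G'), ((lcsHom f n h : lcs G' n) : G')⁆,
            lcs_comm_mem (lcsHom f m g).2 (lcsHom f n h).2⟩ :=
        lieHom_mkL m n (lcsHom f m g) (lcsHom f n h)
      rw [e1, alMap_mk, alMap_mk, alMap_mk, e2]
      congr 1
      apply Subtype.ext
      change f ⁅(g : G), (h : G)⁆ = ⁅f g, f h⁆
      exact map_commutatorElement f _ _
    | h2 y y' hy hy' => rw [lie_add, map_add, map_add, lie_add, hy, hy']
  | h2 x x' hx hx' => rw [add_lie, map_add, map_add, add_lie, hx, hx']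

/-- The map of the free Lie rings. -/
noncomputable def flMap : FLie (Grd G 0) →ₗ⁅ℤ⁆ FLie (Grd G' 0) :=
  liftF (AddMonoidHom.mk' (fun v => incl (grdMap f 0 v)) fun v w => by
    rw [map_add, incl_add])

theorem flMap_incl (v : Grd G 0) : flMap f (incl v) = incl (grdMap f 0 v) := liftF_incl _ _

theorem natMap_flMap (z : FLie (Grd G 0)) : natMap G' (flMap f z) = alMap f (natMap G z) := by
  induction z using FLie_ind with
  | h0 => rw [map_zero, map_zero, map_zero, map_zero]
  | h1 v => rw [flMap_incl, natMap_incl, natMap_incl, alMap_of]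
  | h2 x y hx hy => rw [map_add, map_add, map_add, map_add, hx, hy]
  | h3 x hx => rw [map_neg, map_neg, map_neg, map_neg, hx]
  | h4 x y hx hy => rw [LieHom.map_lie, LieHom.map_lie, LieHom.map_lie, alMap_lie, hx, hy]

theorem flMap_degTwo {z : FLie (Grd G 0)} (hz : z ∈ degTwo (Grd G 0)) :
    flMap f z ∈ degTwo (Grd G' 0) := by
  induction hz using Submodule.span_induction with
  | mem z hz =>
    obtain ⟨v, w, rfl⟩ := hz
    rw [LieHom.map_lie, flMap_incl, flMap_incl]
    exact Submodule.subset_span ⟨_, _, rfl⟩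
  | zero => rw [map_zero]; exact zero_mem _
  | add x y _ _ hx hy => rw [map_add]; exact add_mem hx hy
  | smul n x _ hx => rw [map_zsmul]; exact (degTwo (Grd G' 0)).smul_mem n hx

theorem flMap_comp {G'' : Type} [Group G''] (f' : G' →* G'') (z : FLie (Grd G 0)) :
    flMap f' (flMap f z) = flMap (f'.comp f) z := by
  induction z using FLie_ind with
  | h0 => rw [map_zero, map_zero, map_zero]
  | h1 v =>
    obtain ⟨g, rfl⟩ := grMk_surj 0 v
    rw [flMap_incl, flMap_incl, flMap_incl, grdMap_mk, grdMap_mk, grdMap_mk]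
    rfl
  | h2 x y hx hy => rw [map_add, map_add, map_add, hx, hy]
  | h3 x hx => rw [map_neg, map_neg, map_neg, hx]
  | h4 x y hx hy => rw [LieHom.map_lie, LieHom.map_lie, LieHom.map_lie, hx, hy]

theorem flMap_id (z : FLie (Grd G 0)) : flMap (MonoidHom.id G) z = z := by
  induction z using FLie_ind with
  | h0 => rw [map_zero]
  | h1 v =>
    obtain ⟨g, rfl⟩ := grMk_surj 0 v
    rw [flMap_incl, grdMap_mk]
    rfl
  | h2 x y hx hy => rw [map_add, hx, hy]
  | h3 x hx => rw [map_neg, hx]
  | h4 x y hx hy => rw [LieHom.map_lie, hx, hy]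

/-- A retract of a group with a quadratic Lie ring has a quadratic Lie ring. -/
theorem quadratic_retract (i : G →* G') (r : G' →* G) (h : r.comp i = MonoidHom.id G)
    (hq : IsQuadratic G') : IsQuadratic G := by
  refine le_antisymm ?_ ?_
  · intro z hz
    rw [LieHom.mem_ker] at hz
    have h1 : natMap G' (flMap i z) = 0 := by rw [natMap_flMap, hz, map_zero]
    have h2 : flMap i z ∈ (natMap G').ker := LieHom.mem_ker.2 h1
    rw [hq] at h2
    have h3 : LieSubmodule.lieSpan ℤ (FLie (Grd G' 0))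
        {z | z ∈ (natMap G').ker ∧ z ∈ degTwo (Grd G' 0)} ≤
        LieIdeal.comap (flMap r) (LieSubmodule.lieSpan ℤ (FLie (Grd G 0))
          {z | z ∈ (natMap G).ker ∧ z ∈ degTwo (Grd G 0)}) := by
      rw [LieSubmodule.lieSpan_le]
      rintro t ⟨ht1, ht2⟩
      change flMap r t ∈ LieSubmodule.lieSpan ℤ (FLie (Grd G 0))
          {z | z ∈ (natMap G).ker ∧ z ∈ degTwo (Grd G 0)}
      refine LieSubmodule.subset_lieSpan ⟨?_, flMap_degTwo r ht2⟩
      rw [LieHom.mem_ker, natMap_flMap, LieHom.mem_ker.1 ht1, map_zero]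
    have h4 := h3 h2
    change flMap r (flMap i z) ∈ LieSubmodule.lieSpan ℤ (FLie (Grd G 0))
          {z | z ∈ (natMap G).ker ∧ z ∈ degTwo (Grd G 0)} at h4
    rw [flMap_comp, h, flMap_id] at h4
    exact h4
  · rw [LieSubmodule.lieSpan_le]
    rintro t ⟨ht1, -⟩
    exact ht1

end retract

end Pool.Agent.Helper90.QP
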