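import Mathlib
import Pool.Agent.Helper90.QP.Retract
import Pool.Agent.Helper90.QP.Final

/-!
The groups of basis-conjugating automorphisms of smaller rank are retracts of those of larger
rank.
-/

namespace Pool.Agent.Helper90.QP

open BurnLie Q28.FreeLieV

section emb

variable {m n : ℕ} (hmn : m ≤ n)

/-- The inclusion of the free groups. -/
def inc : FreeGroup (Fin m) →* FreeGroup (Fin n) :=
  FreeGroup.lift fun i => FreeGroup.of (Fin.castLE hmn i)

/-- The projection of the free groups. -/
def prj : FreeGroup (Fin n) →* FreeGroup (Fin m) :=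
  FreeGroup.lift fun i => if h : (i : ℕ) < m then FreeGroup.of ⟨i, h⟩ else 1

theorem inc_of (i : Fin m) : inc hmn (FreeGroup.of i) = FreeGroup.of (Fin.castLE hmn i) := by
  unfold inc; rw [FreeGroup.lift_apply_of]

theorem prj_of (i : Fin n) : (prj (m := m) (n := n)) (FreeGroup.of i) =
    if h : (i : ℕ) < m then FreeGroup.of ⟨i, h⟩ else 1 := by
  unfold prj; rw [FreeGroup.lift_apply_of]

theorem prj_castLE (i : Fin m) : (prj (m := m) (n := n)) (FreeGroup.of (Fin.castLE hmn i)) =
    FreeGroup.of i := by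
  rw [prj_of, dif_pos (show ((Fin.castLE hmn i : Fin n) : ℕ) < m from i.2)]
  rfl

theorem prj_inc (w : FreeGroup (Fin m)) : prj (inc hmn w) = w := by
  have h : (prj (m := m) (n := n)).comp (inc hmn) = MonoidHom.id _ := by
    apply FreeGroup.ext_hom
    intro i
    change prj (inc hmn (FreeGroup.of i)) = FreeGroup.of i
    rw [inc_of, prj_castLE]
  exact DFunLike.congr_fun h w

/-- The extension of an automorphism by the identity. -/
def exf (φ : PSigma m) : FreeGroup (Fin n) →* FreeGroup (Fin n) :=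
  FreeGroup.lift fun i => if h : (i : ℕ) < m then inc hmn (φ.1 (FreeGroup.of ⟨i, h⟩))
    else FreeGroup.of i

theorem exf_of (φ : PSigma m) (i : Fin n) : exf hmn φ (FreeGroup.of i) =
    if h : (i : ℕ) < m then inc hmn (φ.1 (FreeGroup.of ⟨i, h⟩)) else FreeGroup.of i := by
  unfold exf; rw [FreeGroup.lift_apply_of]

theorem exf_inc (φ : PSigma m) (w : FreeGroup (Fin m)) :
    exf hmn φ (inc hmn w) = inc hmn (φ.1 w) := by
  have h : (exf hmn φ).comp (inc hmn) =
      (inc hmn).comp (φ.1 : FreeGroup (Fin m) ≃* FreeGroup (Fin m)).toMonoidHom := by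
    apply FreeGroup.ext_hom
    intro i
    change exf hmn φ (inc hmn (FreeGroup.of i)) = inc hmn (φ.1 (FreeGroup.of i))
    rw [inc_of, exf_of, dif_pos (show ((Fin.castLE hmn i : Fin n) : ℕ) < m from i.2)]
    rfl
  exact DFunLike.congr_fun h w

theorem exf_mul (φ ψ : PSigma m) (w : FreeGroup (Fin n)) :
    exf hmn (φ * ψ) w = exf hmn φ (exf hmn ψ w) := by
  have h : exf hmn (φ * ψ) = (exf hmn φ).comp (exf hmn ψ) := by
    apply FreeGroup.ext_hom
    intro i
    change exf hmn (φ * ψ) (FreeGroup.of i) = exf hmn φ (exf hmn ψ (FreeGroup.of i))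
    rw [exf_of, exf_of]
    split_ifs with h
    · rw [exf_inc]; rfl
    · rw [exf_of, dif_neg h]
  exact DFunLike.congr_fun h w

theorem exf_one (w : FreeGroup (Fin n)) : exf hmn (1 : PSigma m) w = w := by
  have h : exf hmn (1 : PSigma m) = MonoidHom.id _ := by
    apply FreeGroup.ext_hom
    intro i
    change exf hmn (1 : PSigma m) (FreeGroup.of i) = FreeGroup.of i
    rw [exf_of]
    split_ifs with h
    · change inc hmn (FreeGroup.of ⟨i, h⟩) = FreeGroup.of i
      rw [inc_of]; rfl
    · rfl
  exact DFunLike.congr_fun h w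

/-- The extension of an automorphism by the identity. -/
def exA (φ : PSigma m) : PSigma n :=
  ⟨{ toFun := exf hmn φ
     invFun := exf hmn φ⁻¹
     left_inv := fun w => by rw [← exf_mul, inv_mul_cancel, exf_one]
     right_inv := fun w => by rw [← exf_mul, mul_inv_cancel, exf_one]
     map_mul' := map_mul (exf hmn φ) }, by
    intro i
    change ∃ w, exf hmn φ (FreeGroup.of i) = w * FreeGroup.of i * w⁻¹
    rw [exf_of]
    split_ifs with h
    · obtain ⟨w, hw⟩ := φ.2 ⟨i, h⟩
      refine ⟨inc hmn w, ?_⟩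
      rw [hw, map_mul, map_mul, map_inv, inc_of]; rfl
    · exact ⟨1, by simp⟩⟩

theorem PS_ext {k : ℕ} {g h : PSigma k} (H : ∀ w, g.1 w = h.1 w) : g = h :=
  Subtype.ext (MulEquiv.ext H)

/-- The embedding of the groups. -/
def exH : PSigma m →* PSigma n where
  toFun := exA hmn
  map_one' := PS_ext fun w => exf_one hmn w
  map_mul' φ ψ := PS_ext fun w => exf_mul hmn φ ψ w

/-- The restriction of an automorphism. -/
def ref (φ : PSigma n) : FreeGroup (Fin m) →* FreeGroup (Fin m) :=
  (prj (m := m) (n := n)).comp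
    ((φ.1 : FreeGroup (Fin n) ≃* FreeGroup (Fin n)).toMonoidHom.comp (inc hmn))

theorem ref_apply (φ : PSigma n) (w : FreeGroup (Fin m)) : ref hmn φ w = prj (φ.1 (inc hmn w)) := rfl

theorem ref_prj (φ : PSigma n) (w : FreeGroup (Fin n)) :
    ref hmn φ (prj w) = prj (φ.1 w) := by
  have h : (ref hmn φ).comp (prj (m := m) (n := n)) =
      (prj (m := m) (n := n)).comp (φ.1 : FreeGroup (Fin n) ≃* FreeGroup (Fin n)).toMonoidHom := by
    apply FreeGroup.ext_hom
    intro i
    change ref hmn φ (prj (FreeGroup.of i)) = prj (φ.1 (FreeGroup.of i))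
    by_cases h : (i : ℕ) < m
    · rw [prj_of, dif_pos h, ref_apply, inc_of]; rfl
    · obtain ⟨w, hw⟩ := φ.2 i
      have h1 : (prj (m := m) (n := n)) (FreeGroup.of i) = 1 := by rw [prj_of, dif_neg h]
      rw [hw, map_mul, map_mul, map_inv, h1, map_one, mul_one, mul_inv_cancel]
  exact DFunLike.congr_fun h w

theorem ref_mul (φ ψ : PSigma n) (w : FreeGroup (Fin m)) :
    ref hmn (φ * ψ) w = ref hmn φ (ref hmn ψ w) := by
  rw [ref_apply hmn ψ, ref_prj]; rfl

theorem ref_one (w : FreeGroup (Fin m)) : ref hmn (1 : PSigma n) w = w := prj_inc hmn w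

/-- The restriction of an automorphism. -/
def reA (φ : PSigma n) : PSigma m :=
  ⟨{ toFun := ref hmn φ
     invFun := ref hmn φ⁻¹
     left_inv := fun w => by rw [← ref_mul, inv_mul_cancel, ref_one]
     right_inv := fun w => by rw [← ref_mul, mul_inv_cancel, ref_one]
     map_mul' := map_mul (ref hmn φ) }, by
    intro i
    change ∃ w, ref hmn φ (FreeGroup.of i) = w * FreeGroup.of i * w⁻¹
    obtain ⟨w, hw⟩ := φ.2 (Fin.castLE hmn i)
    refine ⟨prj w, ?_⟩
    rw [ref_apply, inc_of, hw, map_mul, map_mul, map_inv, prj_castLE]⟩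

/-- The retraction of the groups. -/
def reH : PSigma n →* PSigma m where
  toFun := reA hmn
  map_one' := PS_ext fun w => ref_one hmn w
  map_mul' φ ψ := PS_ext fun w => ref_mul hmn φ ψ w

theorem re_ex : (reH hmn).comp (exH hmn) = MonoidHom.id (PSigma m) := by
  apply MonoidHom.ext
  intro φ
  apply PS_ext
  intro w
  change prj (exf hmn φ (inc hmn w)) = φ.1 w
  rw [exf_inc, prj_inc]

end emb

/-- The Lie ring of the lower central series of the group of basis-conjugating automorphisms of
the free group of rank at least four is not quadratic. -/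
theorem not_quadratic_all (n : ℕ) (hn : 4 ≤ n) : ¬ IsQuadratic (PSigma n) := fun h =>
  not_quadratic_four (quadratic_retract (exH hn) (reH hn) (re_ex hn) h)

end Pool.Agent.Helper90.QP
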